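import Pool.Agent.TH819.PL.Sym
import Pool.Agent.H336R2.V.Defs

/-! Moments over a complete residue system. -/

open Finset

namespace TH819.PM

open H343 H336V TH819.PL

lemma ex_int (n : ℤ) : ex (n : ℝ) = 1 := by
  unfold ex
  rw [show ((2 * Real.pi * (n : ℝ) : ℝ) : ℂ) * Complex.I = n * (2 * Real.pi * Complex.I) by
    push_cast; ring]
  exact Complex.exp_int_mul_two_pi_mul_I n

lemma ex_add' (x y : ℝ) : ex (x + y) = ex x * ex y := by
  unfold ex
  rw [← Complex.exp_add]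
  congr 1
  push_cast
  ring

lemma ex_norm (x : ℝ) : ‖ex x‖ = 1 := by
  unfold ex
  exact Complex.norm_exp_ofReal_mul_I _

lemma ex_conj (x : ℝ) : (starRingEnd ℂ) (ex x) = ex (-x) := by
  unfold ex
  rw [← Complex.exp_conj]
  congr 1
  rw [map_mul, Complex.conj_ofReal, Complex.conj_I]
  push_cast
  ring

lemma ex_nsmul (x : ℝ) (n : ℕ) : ex (n * x) = ex x ^ n := by
  unfold ex
  rw [← Complex.exp_nat_mul]
  congr 1
  push_cast
  ring

/-- orthogonality -/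
lemma orth {k : ℕ} (hk : 1 ≤ k) (z : ℤ) :
    ‖∑ A ∈ range k, ex ((A : ℝ) * z / k)‖ ≤ if (k : ℤ) ∣ z then (k : ℝ) else 0 := by
  have hk0 : (k : ℝ) ≠ 0 := by
    have : (0 : ℝ) < k := by exact_mod_cast hk
    exact this.ne'
  split_ifs with h
  · refine (norm_sum_le _ _).trans (le_of_eq ?_)
    rw [sum_congr rfl fun A _ => ex_norm _, sum_const, card_range, nsmul_eq_mul, mul_one]
  · set w : ℂ := ex (z / k) with hw
    have h1 : ∀ A ∈ range k, ex ((A : ℝ) * z / k) = w ^ A := by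
      intro A _
      rw [hw, ← ex_nsmul]
      congr 1
      ring
    rw [sum_congr rfl h1]
    have hwk : w ^ k = 1 := by
      rw [hw, ← ex_nsmul]
      have : (k : ℝ) * (z / k) = ((z : ℤ) : ℝ) := by field_simp
      rw [this, ex_int]
    have hw1 : w ≠ 1 := by
      intro hw1
      apply h
      rw [hw] at hw1
      unfold ex at hw1
      rw [Complex.exp_eq_one_iff] at hw1
      obtain ⟨n, hn⟩ := hw1
      have hpi : (2 * (Real.pi : ℂ) * Complex.I) ≠ 0 := by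
        have : (Real.pi : ℂ) ≠ 0 := by exact_mod_cast Real.pi_pos.ne'
        simp [this, Complex.I_ne_zero]
      have h2 : (((z : ℝ) / k : ℝ) : ℂ) = n := by
        apply mul_right_cancel₀ hpi
        rw [← hn]
        push_cast
        ring
      have h3 : (z : ℝ) / k = n := by exact_mod_cast h2
      rw [div_eq_iff hk0] at h3
      refine ⟨n, ?_⟩
      have : (z : ℝ) = ((k : ℤ) * n : ℤ) := by
        rw [h3]; push_cast; ring
      exact_mod_cast this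
    have h2 : (w - 1) * ∑ A ∈ range k, w ^ A = 0 := by
      rw [mul_geom_sum, hwk, sub_self]
    rcases mul_eq_zero.1 h2 with h3 | h3
    · exact absurd (sub_eq_zero.1 h3) hw1
    · rw [h3, norm_zero]

lemma prod_single' {κ : Type*} (T : Finset κ) (r : κ → ℚ) (c : κ → ℝ) :
    ∏ t ∈ T, (AddMonoidAlgebra.single (r t) (c t) : AA) =
      AddMonoidAlgebra.single (∑ t ∈ T, r t) (∏ t ∈ T, c t) := by
  classical
  induction T using Finset.induction_on with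
  | empty => simp [AddMonoidAlgebra.one_def]
  | insert t T ht ih =>
    rw [prod_insert ht, ih, AddMonoidAlgebra.single_mul_single, sum_insert ht, prod_insert ht]

section

variable {ι : Type*} (S : Finset ι) (r : ι → ℚ) (c : ι → ℝ)

/-- positive frequencies -/
noncomputable def Pp : AA := ∑ i ∈ S, AddMonoidAlgebra.single (r i) (c i)

/-- negative frequencies -/
noncomputable def Pn : AA := ∑ i ∈ S, AddMonoidAlgebra.single (-r i) (c i)

lemma sym_sum : ∑ i ∈ S, sym (r i) (2 * c i) = Pp S r c + Pn S r c := by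
  unfold Pp Pn sym
  rw [← sum_add_distrib]
  refine sum_congr rfl fun i _ => ?_
  rw [mul_div_cancel_left₀ _ (two_ne_zero)]

lemma coeff_prod (m : ℕ) : (Pp S r c ^ m * Pn S r c ^ m).coeff 0 =
    ∑ f ∈ Fintype.piFinset (fun _ : Fin m => S), ∑ g ∈ Fintype.piFinset (fun _ : Fin m => S),
      if ∑ t, r (f t) = ∑ t, r (g t) then (∏ t, c (f t)) * ∏ t, c (g t) else 0 := by
  classical
  unfold Pp Pn
  rw [sum_pow', sum_pow', sum_mul_sum, coeff_sum']
  refine sum_congr rfl fun f _ => ?_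
  rw [coeff_sum']
  refine sum_congr rfl fun g _ => ?_
  rw [prod_single', prod_single', AddMonoidAlgebra.single_mul_single,
    AddMonoidAlgebra.coeff_single, Finsupp.single_apply, sum_neg_distrib]
  by_cases h : ∑ t, r (f t) = ∑ t, r (g t)
  · rw [if_pos h, if_pos (by rw [h]; ring)]
  · rw [if_neg h, if_neg (fun h2 => h (by linarith))]

lemma coeff_prod_le (hc : ∀ i ∈ S, 0 ≤ c i) (m : ℕ) : (Pp S r c ^ m * Pn S r c ^ m).coeff 0 ≤
    ((∑ i ∈ S, sym (r i) (2 * c i)) ^ (2 * m)).coeff 0 := by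
  have hp : NN (Pp S r c) := NN_sum fun i hi => NN_single _ (hc i hi)
  have hn : NN (Pn S r c) := NN_sum fun i hi => NN_single _ (hc i hi)
  rw [sym_sum, add_pow, coeff_sum']
  have h1 : ∀ j ∈ range (2 * m + 1), 0 ≤ (Pp S r c ^ j * Pn S r c ^ (2 * m - j) *
      ((2 * m).choose j : AA)).coeff 0 := by
    intro j _
    have h2 : Pp S r c ^ j * Pn S r c ^ (2 * m - j) * ((2 * m).choose j : AA) =
        ((2 * m).choose j : ℝ) • (Pp S r c ^ j * Pn S r c ^ (2 * m - j)) := by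
      rw [Algebra.smul_def, map_natCast, mul_comm]
    rw [h2, AddMonoidAlgebra.coeff_smul_apply, smul_eq_mul]
    exact mul_nonneg (by positivity) (NN_mul (NN_pow hp _) (NN_pow hn _) 0)
  refine le_trans ?_ (single_le_sum h1 (mem_range.2 (by omega : m < 2 * m + 1)))
  have h2 : Pp S r c ^ m * Pn S r c ^ (2 * m - m) * ((2 * m).choose m : AA) =
      ((2 * m).choose m : ℝ) • (Pp S r c ^ m * Pn S r c ^ m) := by
    rw [Algebra.smul_def, map_natCast, mul_comm, show 2 * m - m = m by omega]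
  rw [h2, AddMonoidAlgebra.coeff_smul_apply, smul_eq_mul]
  have h3 : (1 : ℝ) ≤ ((2 * m).choose m : ℝ) := by
    exact_mod_cast Nat.choose_pos (by omega : m ≤ 2 * m)
  have h4 := NN_mul (NN_pow hp m) (NN_pow hn m) 0
  nlinarith

end

/-- inverse modulo `k` -/
lemma inv_mul {k q : ℕ} (hk : 1 ≤ k) (h : q.Coprime k) (a : ℕ) :
    (((a * inv k q : ℕ) : ℤ) : ZMod k) * (q : ZMod k) = a := by
  haveI : NeZero k := ⟨by omega⟩
  unfold inv
  push_cast
  rw [ZMod.natCast_zmod_val, mul_assoc, mul_comm ((q : ZMod k)⁻¹), ZMod.coe_mul_inv_eq_one q h,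
    mul_one]

/-- no wrap-around -/
lemma no_wrap {ι : Type*} {S : Finset ι} {a q : ι → ℕ} {k m R : ℕ} {θ1 : ℝ} (hk : 1 ≤ k)
    (hθ1 : 0 ≤ θ1) (hq : ∀ i ∈ S, 1 ≤ q i ∧ q i ≤ R ∧ (q i).Coprime k)
    (ha : ∀ i ∈ S, (a i : ℝ) ≤ θ1 * q i) (hsm : (R : ℝ) ^ (2 * m) * (m * θ1) < k)
    {f g : Fin m → ι} (hf : ∀ t, f t ∈ S) (hg : ∀ t, g t ∈ S)
    (hdiv : (k : ℤ) ∣ ∑ t, ((a (f t) * inv k (q (f t)) : ℕ) : ℤ) -
      ∑ t, ((a (g t) * inv k (q (g t)) : ℕ) : ℤ)) :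
    ∑ t, ((a (f t) : ℚ) / (q (f t) : ℚ)) = ∑ t, ((a (g t) : ℚ) / (q (g t) : ℚ)) := by
  classical
  set D : (Fin m → ι) → ℕ := fun f => ∏ t, q (f t) with hD
  set Nn : (Fin m → ι) → ℕ := fun f => ∑ t, a (f t) * ∏ s ∈ univ.erase t, q (f s) with hN
  have hqpos : ∀ f : Fin m → ι, (∀ t, f t ∈ S) → ∀ t, (0 : ℚ) < q (f t) := fun f hf t => by
    exact_mod_cast (hq _ (hf t)).1
  have h1 : ∀ f : Fin m → ι, (∀ t, f t ∈ S) →
      (D f : ℚ) * ∑ t, ((a (f t) : ℚ) / (q (f t) : ℚ)) = Nn f := by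
    intro f hf
    rw [hD, hN]
    push_cast
    rw [mul_sum]
    refine sum_congr rfl fun t _ => ?_
    rw [← mul_prod_erase univ (fun s => (q (f s) : ℚ)) (mem_univ t)]
    have := hqpos f hf t
    field_simp
  have h2 : ∀ f : Fin m → ι, (∀ t, f t ∈ S) →
      ((D f : ℤ) : ZMod k) * ((∑ t, ((a (f t) * inv k (q (f t)) : ℕ) : ℤ) : ℤ) : ZMod k) =
        ((Nn f : ℤ) : ZMod k) := by
    intro f hf
    rw [hD, hN, Int.cast_sum, mul_sum]
    push_cast
    refine sum_congr rfl fun t _ => ?_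
    rw [← mul_prod_erase univ (fun s => (q (f s) : ZMod k)) (mem_univ t)]
    have := inv_mul hk (hq _ (hf t)).2.2 (a (f t))
    push_cast at this
    linear_combination (∏ s ∈ univ.erase t, (q (f s) : ZMod k)) * this
  have hZ : (k : ℤ) ∣ (D g : ℤ) * Nn f - (D f : ℤ) * Nn g := by
    rw [← ZMod.intCast_zmod_eq_zero_iff_dvd _ k] at hdiv ⊢
    have e1 : (((D g : ℤ) * Nn f - (D f : ℤ) * Nn g : ℤ) : ZMod k) =
        ((D g : ℤ) : ZMod k) * ((Nn f : ℤ) : ZMod k) - ((D f : ℤ) : ZMod k) * ((Nn g : ℤ) : ZMod k) := by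
      push_cast
      ring
    rw [e1, ← h2 f hf, ← h2 g hg]
    rw [Int.cast_sub, sub_eq_zero] at hdiv
    rw [hdiv]
    ring
  have hDpos : ∀ f : Fin m → ι, (∀ t, f t ∈ S) → (0 : ℚ) < D f := fun f hf => by
    rw [hD]
    push_cast
    exact prod_pos fun t _ => hqpos f hf t
  have hDle : ∀ f : Fin m → ι, (∀ t, f t ∈ S) → (D f : ℝ) ≤ (R : ℝ) ^ m := fun f hf => by
    rw [hD]
    push_cast
    calc ∏ t, (q (f t) : ℝ) ≤ ∏ _t : Fin m, (R : ℝ) :=
          prod_le_prod (fun t _ => by positivity) fun t _ => by exact_mod_cast (hq _ (hf t)).2.1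
      _ = (R : ℝ) ^ m := by rw [prod_const, card_univ, Fintype.card_fin]
  have hsum : ∀ f : Fin m → ι, (∀ t, f t ∈ S) →
      (0 : ℝ) ≤ ((∑ t, ((a (f t) : ℚ) / (q (f t) : ℚ)) : ℚ) : ℝ) ∧
      ((∑ t, ((a (f t) : ℚ) / (q (f t) : ℚ)) : ℚ) : ℝ) ≤ m * θ1 := by
    intro f hf
    push_cast
    constructor
    · exact sum_nonneg fun t _ => by positivity
    · calc ∑ t, (a (f t) : ℝ) / (q (f t) : ℝ) ≤ ∑ _t : Fin m, θ1 := by
            refine sum_le_sum fun t _ => ?_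
            have h3 : (0 : ℝ) < q (f t) := by exact_mod_cast (hq _ (hf t)).1
            rw [div_le_iff₀ h3]
            exact ha _ (hf t)
        _ = m * θ1 := by rw [sum_const, card_univ, Fintype.card_fin, nsmul_eq_mul]
  set sf := ∑ t, ((a (f t) : ℚ) / (q (f t) : ℚ)) with hsf
  set sg := ∑ t, ((a (g t) : ℚ) / (q (g t) : ℚ)) with hsg
  have hZq : (((D g : ℤ) * Nn f - (D f : ℤ) * Nn g : ℤ) : ℚ) = D f * D g * (sf - sg) := by
    push_cast
    rw [← h1 f hf, ← h1 g hg]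
    ring
  have hZ0 : (D g : ℤ) * Nn f - (D f : ℤ) * Nn g = 0 := by
    have h5 : |(((D g : ℤ) * Nn f - (D f : ℤ) * Nn g : ℤ) : ℝ)| < k := by
      have h6 : (((D g : ℤ) * Nn f - (D f : ℤ) * Nn g : ℤ) : ℝ) =
          D f * D g * ((sf : ℝ) - (sg : ℝ)) := by exact_mod_cast hZq
      rw [h6, abs_mul, abs_of_nonneg (by positivity)]
      have h7 : |(sf : ℝ) - (sg : ℝ)| ≤ m * θ1 := by
        obtain ⟨a1, a2⟩ := hsum f hf
        obtain ⟨b1, b2⟩ := hsum g hg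
        rw [abs_le]
        constructor <;> linarith
      calc (D f : ℝ) * D g * |(sf : ℝ) - (sg : ℝ)| ≤ (R : ℝ) ^ m * (R : ℝ) ^ m * (m * θ1) := by
            have := hDle f hf
            have := hDle g hg
            gcongr
        _ = (R : ℝ) ^ (2 * m) * (m * θ1) := by rw [← pow_add]; ring_nf
        _ < k := hsm
    have h8 : |(D g : ℤ) * Nn f - (D f : ℤ) * Nn g| < k := by exact_mod_cast h5
    exact Int.eq_zero_of_abs_lt_dvd hZ h8
  rw [hZ0, Int.cast_zero] at hZq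
  have h9 : (D f : ℚ) * D g ≠ 0 := mul_ne_zero (hDpos f hf).ne' (hDpos g hg).ne'
  rcases mul_eq_zero.1 hZq.symm with h | h
  · exact absurd h h9
  · exact sub_eq_zero.1 h

/-- **moments modulo `k`** -/
theorem mod_moment {ι : Type*} (S : Finset ι) (C : ι → ℂ) (a q : ι → ℕ) (k m R : ℕ) (θ1 : ℝ)
    (hk : 1 ≤ k) (hθ1 : 0 ≤ θ1) (hq : ∀ i ∈ S, 1 ≤ q i ∧ q i ≤ R ∧ (q i).Coprime k)
    (ha : ∀ i ∈ S, (a i : ℝ) ≤ θ1 * q i) (hsm : (R : ℝ) ^ (2 * m) * (m * θ1) < k) :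
    ∑ A ∈ range k, ‖∑ i ∈ S, C i * ex ((A : ℝ) * ((a i * inv k (q i) : ℕ) : ℝ) / k)‖ ^ (2 * m) ≤
      k * ((∑ i ∈ S, sym ((a i : ℚ) / (q i : ℚ)) (2 * ‖C i‖)) ^ (2 * m)).coeff 0 := by
  classical
  set b : ι → ℕ := fun i => a i * inv k (q i) with hb
  set r : ι → ℚ := fun i => (a i : ℚ) / (q i : ℚ) with hr
  set F := Fintype.piFinset (fun _ : Fin m => S) with hF
  have hmem : ∀ f ∈ F, ∀ t, f t ∈ S := fun f hf t => by
    rw [hF, Fintype.mem_piFinset] at hf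
    exact hf t
  -- expansion
  have hexp : ∀ A : ℕ, ((‖∑ i ∈ S, C i * ex ((A : ℝ) * (b i : ℝ) / k)‖ ^ (2 * m) : ℝ) : ℂ) =
      ∑ f ∈ F, ∑ g ∈ F, (∏ t, C (f t)) * (starRingEnd ℂ) (∏ t, C (g t)) *
        ex ((A : ℝ) * ((∑ t, (b (f t) : ℤ) - ∑ t, (b (g t) : ℤ) : ℤ) : ℝ) / k) := by
    intro A
    set w := ∑ i ∈ S, C i * ex ((A : ℝ) * (b i : ℝ) / k) with hw
    have h1 : ((‖w‖ ^ (2 * m) : ℝ) : ℂ) = w ^ m * (starRingEnd ℂ) (w ^ m) := by
      rw [pow_mul, Complex.ofReal_pow, Complex.ofReal_pow, ← Complex.mul_conj', mul_pow, map_pow]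
    have h2 : w ^ m = ∑ f ∈ F, (∏ t, C (f t)) * ex ((A : ℝ) * ((∑ t, (b (f t) : ℤ) : ℤ) : ℝ) / k) := by
      rw [hw, sum_pow']
      refine sum_congr rfl fun f _ => ?_
      rw [prod_mul_distrib]
      congr 1
      have h3 : ∀ T : Finset (Fin m), ∏ t ∈ T, ex ((A : ℝ) * (b (f t) : ℝ) / k) =
          ex ((A : ℝ) * ((∑ t ∈ T, (b (f t) : ℤ) : ℤ) : ℝ) / k) := by
        intro T
        induction T using Finset.induction_on with
        | empty => simp [ex]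
        | insert t T ht ih =>
          rw [prod_insert ht, ih, sum_insert ht, ← ex_add']
          congr 1
          push_cast
          ring
      exact h3 univ
    rw [h1, h2, map_sum, sum_mul_sum]
    refine sum_congr rfl fun f _ => sum_congr rfl fun g _ => ?_
    rw [map_mul, ex_conj]
    have e : ex ((A : ℝ) * ((∑ t, (b (f t) : ℤ) - ∑ t, (b (g t) : ℤ) : ℤ) : ℝ) / k) =
        ex ((A : ℝ) * ((∑ t, (b (f t) : ℤ) : ℤ) : ℝ) / k) *
          ex (-((A : ℝ) * ((∑ t, (b (g t) : ℤ) : ℤ) : ℝ) / k)) := by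
      rw [← ex_add']
      congr 1
      push_cast
      ring
    rw [e]
    ring
  have hsum : ((∑ A ∈ range k, ‖∑ i ∈ S, C i * ex ((A : ℝ) * (b i : ℝ) / k)‖ ^ (2 * m) : ℝ) : ℂ) =
      ∑ f ∈ F, ∑ g ∈ F, (∏ t, C (f t)) * (starRingEnd ℂ) (∏ t, C (g t)) *
        ∑ A ∈ range k, ex ((A : ℝ) * ((∑ t, (b (f t) : ℤ) - ∑ t, (b (g t) : ℤ) : ℤ) : ℝ) / k) := by
    rw [Complex.ofReal_sum, sum_congr rfl fun A _ => hexp A, sum_comm]
    refine sum_congr rfl fun f _ => ?_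
    rw [sum_comm]
    refine sum_congr rfl fun g _ => ?_
    rw [mul_sum]
  have hnn : 0 ≤ ∑ A ∈ range k, ‖∑ i ∈ S, C i * ex ((A : ℝ) * (b i : ℝ) / k)‖ ^ (2 * m) :=
    sum_nonneg fun _ _ => by positivity
  have h4 : ∑ A ∈ range k, ‖∑ i ∈ S, C i * ex ((A : ℝ) * (b i : ℝ) / k)‖ ^ (2 * m) =
      ‖((∑ A ∈ range k, ‖∑ i ∈ S, C i * ex ((A : ℝ) * (b i : ℝ) / k)‖ ^ (2 * m) : ℝ) : ℂ)‖ := by
    rw [Complex.norm_real, Real.norm_of_nonneg hnn]
  rw [h4, hsum]
  refine le_trans ?_ (mul_le_mul_of_nonneg_left (coeff_prod_le S r (fun i => ‖C i‖)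
    (fun i _ => norm_nonneg _) m) (by positivity))
  rw [coeff_prod, mul_sum]
  refine (norm_sum_le _ _).trans (sum_le_sum fun f hf => ?_)
  rw [mul_sum]
  refine (norm_sum_le _ _).trans (sum_le_sum fun g hg => ?_)
  rw [norm_mul, norm_mul, RCLike.norm_conj, norm_prod, norm_prod]
  have h5 := orth hk (∑ t, (b (f t) : ℤ) - ∑ t, (b (g t) : ℤ))
  by_cases hd : (k : ℤ) ∣ ∑ t, (b (f t) : ℤ) - ∑ t, (b (g t) : ℤ)
  · rw [if_pos hd] at h5
    have h6 := no_wrap hk hθ1 hq ha hsm (hmem f hf) (hmem g hg) hd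
    rw [if_pos h6]
    calc (∏ t, ‖C (f t)‖) * (∏ t, ‖C (g t)‖) * _ ≤ (∏ t, ‖C (f t)‖) * (∏ t, ‖C (g t)‖) * k := by
          apply mul_le_mul_of_nonneg_left h5
          exact mul_nonneg (prod_nonneg fun _ _ => norm_nonneg _)
            (prod_nonneg fun _ _ => norm_nonneg _)
      _ = _ := by ring
  · rw [if_neg hd] at h5
    have h7 : ‖∑ A ∈ range k, ex ((A : ℝ) * ((∑ t, (b (f t) : ℤ) - ∑ t, (b (g t) : ℤ) : ℤ) : ℝ) / k)‖ = 0 :=
      le_antisymm h5 (norm_nonneg _)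
    rw [h7, mul_zero]
    apply mul_nonneg (by positivity)
    split_ifs
    · exact mul_nonneg (prod_nonneg fun _ _ => norm_nonneg _)
        (prod_nonneg fun _ _ => norm_nonneg _)
    · exact le_rfl

end TH819.PM
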