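import Pool.Agent.TH819.PM.Add
import Pool.Agent.H336R2.V.Raman
import Pool.Agent.H336R2.V.TotLog

/-! Moments over the reduced residue classes. -/

open Finset

namespace TH819.PM

open H343 H336V TH819.PL

open Classical in
lemma mom_abs {κ : Type*} (G : Finset κ) (c : κ → ℂ) (E : κ → ℤ) {k : ℕ} (hk : 1 ≤ k)
    (R : κ → κ → Prop) (hR : ∀ x ∈ G, ∀ y ∈ G, (k : ℤ) ∣ E x - E y → R x y) :
    ∑ A ∈ range k, ‖∑ x ∈ G, c x * ex ((A : ℝ) * (E x : ℝ) / k)‖ ^ 2 ≤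
      k * ∑ x ∈ G, ∑ y ∈ G, if R x y then ‖c x‖ * ‖c y‖ else 0 := by
  have hexp : ∀ A : ℕ, ((‖∑ x ∈ G, c x * ex ((A : ℝ) * (E x : ℝ) / k)‖ ^ 2 : ℝ) : ℂ) =
      ∑ x ∈ G, ∑ y ∈ G, c x * (starRingEnd ℂ) (c y) *
        ex ((A : ℝ) * ((E x - E y : ℤ) : ℝ) / k) := by
    intro A
    rw [Complex.ofReal_pow, ← Complex.mul_conj', map_sum, sum_mul_sum]
    refine sum_congr rfl fun f _ => sum_congr rfl fun g _ => ?_
    rw [map_mul, ex_conj]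
    have e : ex ((A : ℝ) * ((E f - E g : ℤ) : ℝ) / k) =
        ex ((A : ℝ) * (E f : ℝ) / k) * ex (-((A : ℝ) * (E g : ℝ) / k)) := by
      rw [← ex_add']
      congr 1
      push_cast
      ring
    rw [e]
    ring
  have hsum : ((∑ A ∈ range k, ‖∑ x ∈ G, c x * ex ((A : ℝ) * (E x : ℝ) / k)‖ ^ 2 : ℝ) : ℂ) =
      ∑ x ∈ G, ∑ y ∈ G, c x * (starRingEnd ℂ) (c y) *
        ∑ A ∈ range k, ex ((A : ℝ) * ((E x - E y : ℤ) : ℝ) / k) := by
    rw [Complex.ofReal_sum, sum_congr rfl fun A _ => hexp A, sum_comm]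
    refine sum_congr rfl fun f _ => ?_
    rw [sum_comm]
    refine sum_congr rfl fun g _ => ?_
    rw [mul_sum]
  have hnn : 0 ≤ ∑ A ∈ range k, ‖∑ x ∈ G, c x * ex ((A : ℝ) * (E x : ℝ) / k)‖ ^ 2 :=
    sum_nonneg fun _ _ => by positivity
  have h4 : ∑ A ∈ range k, ‖∑ x ∈ G, c x * ex ((A : ℝ) * (E x : ℝ) / k)‖ ^ 2 =
      ‖((∑ A ∈ range k, ‖∑ x ∈ G, c x * ex ((A : ℝ) * (E x : ℝ) / k)‖ ^ 2 : ℝ) : ℂ)‖ := by
    rw [Complex.norm_real, Real.norm_of_nonneg hnn]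
  rw [h4, hsum, mul_sum]
  refine (norm_sum_le _ _).trans (sum_le_sum fun x hx => ?_)
  rw [mul_sum]
  refine (norm_sum_le _ _).trans (sum_le_sum fun y hy => ?_)
  rw [norm_mul, norm_mul, RCLike.norm_conj]
  have h5 := orth hk (E x - E y)
  by_cases hd : (k : ℤ) ∣ E x - E y
  · rw [if_pos hd] at h5
    rw [if_pos (hR x hx y hy hd)]
    calc ‖c x‖ * ‖c y‖ * _ ≤ ‖c x‖ * ‖c y‖ * k :=
          mul_le_mul_of_nonneg_left h5 (by positivity)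
      _ = _ := by ring
  · rw [if_neg hd] at h5
    have h7 : ‖∑ A ∈ range k, ex ((A : ℝ) * ((E x - E y : ℤ) : ℝ) / k)‖ = 0 :=
      le_antisymm h5 (norm_nonneg _)
    rw [h7, mul_zero]
    apply mul_nonneg (by positivity)
    split_ifs <;> positivity

/-- **moments modulo `k` with an extra factor** -/
theorem mod_moment2 {κ ι : Type*} (J : Finset κ) (g : κ → ℝ) (e : κ → ℕ) (S : Finset ι)
    (C : ι → ℂ) (b : ι → ℕ) (r : ι → ℚ) (k m : ℕ) (hk : 1 ≤ k)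
    (hw : ∀ j ∈ J, ∀ j' ∈ J, ∀ f f' : Fin m → ι, (∀ t, f t ∈ S) → (∀ t, f' t ∈ S) →
      (k : ℤ) ∣ ((e j : ℤ) + ∑ t, (b (f t) : ℤ)) - ((e j' : ℤ) + ∑ t, (b (f' t) : ℤ)) →
      j = j' ∧ ∑ t, r (f t) = ∑ t, r (f' t)) :
    ∑ A ∈ range k, ‖∑ j ∈ J, (g j : ℂ) * ex ((A : ℝ) * (e j : ℝ) / k)‖ ^ 2 *
      ‖∑ i ∈ S, C i * ex ((A : ℝ) * (b i : ℝ) / k)‖ ^ (2 * m) ≤
      k * ((∑ j ∈ J, g j ^ 2) * ((∑ i ∈ S, sym (r i) (2 * ‖C i‖)) ^ (2 * m)).coeff 0) := by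
  classical
  set F := Fintype.piFinset (fun _ : Fin m => S) with hF
  have hmem : ∀ f ∈ F, ∀ t, f t ∈ S := fun f hf t => by
    rw [hF, Fintype.mem_piFinset] at hf
    exact hf t
  have hpow : ∀ A : ℕ, (∑ i ∈ S, C i * ex ((A : ℝ) * (b i : ℝ) / k)) ^ m =
      ∑ f ∈ F, (∏ t, C (f t)) * ex ((A : ℝ) * ((∑ t, (b (f t) : ℤ) : ℤ) : ℝ) / k) := by
    intro A
    rw [sum_pow']
    refine sum_congr rfl fun f _ => ?_
    rw [prod_mul_distrib]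
    congr 1
    have h3 : ∀ T : Finset (Fin m), ∏ t ∈ T, ex ((A : ℝ) * (b (f t) : ℝ) / k) =
        ex ((A : ℝ) * ((∑ t ∈ T, (b (f t) : ℤ) : ℤ) : ℝ) / k) := by
      intro T
      induction T using Finset.induction_on with
      | empty => simp [ex]
      | insert t T ht ih =>
        rw [prod_insert ht, ih, sum_insert ht, ← ex_add']
        congr 1
        push_cast
        ring
    exact h3 univ
  have hterm : ∀ A : ℕ, ‖∑ j ∈ J, (g j : ℂ) * ex ((A : ℝ) * (e j : ℝ) / k)‖ ^ 2 *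
      ‖∑ i ∈ S, C i * ex ((A : ℝ) * (b i : ℝ) / k)‖ ^ (2 * m) =
      ‖∑ x ∈ J ×ˢ F, ((g x.1 : ℂ) * ∏ t, C (x.2 t)) *
        ex ((A : ℝ) * (((e x.1 : ℤ) + ∑ t, (b (x.2 t) : ℤ) : ℤ) : ℝ) / k)‖ ^ 2 := by
    intro A
    rw [mul_comm 2 m, pow_mul, ← mul_pow, ← norm_pow, ← norm_mul, hpow, sum_mul_sum,
      ← sum_product']
    congr 2
    refine sum_congr rfl fun x _ => ?_
    have e1 : ex ((A : ℝ) * (((e x.1 : ℤ) + ∑ t, (b (x.2 t) : ℤ) : ℤ) : ℝ) / k) =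
        ex ((A : ℝ) * (e x.1 : ℝ) / k) * ex ((A : ℝ) * ((∑ t, (b (x.2 t) : ℤ) : ℤ) : ℝ) / k) := by
      rw [← ex_add']
      congr 1
      push_cast
      ring
    rw [e1]
    ring
  rw [sum_congr rfl fun A _ => hterm A]
  refine (mom_abs (J ×ˢ F) (fun x => (g x.1 : ℂ) * ∏ t, C (x.2 t))
    (fun x => (e x.1 : ℤ) + ∑ t, (b (x.2 t) : ℤ)) hk
    (fun x y => x.1 = y.1 ∧ ∑ t, r (x.2 t) = ∑ t, r (y.2 t)) ?_).trans ?_
  · intro x hx y hy hd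
    rw [mem_product] at hx hy
    exact hw x.1 hx.1 y.1 hy.1 x.2 y.2 (hmem _ hx.2) (hmem _ hy.2) hd
  · apply mul_le_mul_of_nonneg_left _ (by positivity)
    have h1 := coeff_prod_le S r (fun i => ‖C i‖) (fun i _ => norm_nonneg _) m
    rw [coeff_prod] at h1
    have h2 : ∑ x ∈ J ×ˢ F, ∑ y ∈ J ×ˢ F,
        (if x.1 = y.1 ∧ ∑ t, r (x.2 t) = ∑ t, r (y.2 t) then
          ‖(g x.1 : ℂ) * ∏ t, C (x.2 t)‖ * ‖(g y.1 : ℂ) * ∏ t, C (y.2 t)‖ else 0) =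
        (∑ j ∈ J, g j ^ 2) * ∑ f ∈ F, ∑ f' ∈ F,
          if ∑ t, r (f t) = ∑ t, r (f' t) then (∏ t, ‖C (f t)‖) * ∏ t, ‖C (f' t)‖ else 0 := by
      rw [sum_product, sum_mul]
      refine sum_congr rfl fun j hj => ?_
      rw [mul_sum]
      refine sum_congr rfl fun f _ => ?_
      rw [sum_product, sum_eq_single j]
      · rw [mul_sum]
        refine sum_congr rfl fun f' _ => ?_
        simp only [true_and]
        by_cases h3 : ∑ t, r (f t) = ∑ t, r (f' t)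
        · rw [if_pos h3, if_pos h3, norm_mul, norm_mul, norm_prod, norm_prod, Complex.norm_real,
            Real.norm_eq_abs]
          rw [← sq_abs (g j)]
          ring
        · rw [if_neg h3, if_neg h3, mul_zero]
      · intro j' _ hjj
        refine sum_eq_zero fun f' _ => ?_
        rw [if_neg (fun h => hjj h.1.symm)]
      · intro h
        exact absurd hj h
    refine le_trans (le_of_eq (Eq.trans ?_ h2)) (mul_le_mul_of_nonneg_left h1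
      (sum_nonneg fun _ _ => sq_nonneg _))
    refine sum_congr rfl fun x _ => sum_congr rfl fun y _ => ?_
    by_cases h : x.1 = y.1 ∧ ∑ t, r (x.2 t) = ∑ t, r (y.2 t)
    · rw [if_pos h, if_pos h]
    · rw [if_neg h, if_neg h]

end TH819.PM
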