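import Pool.Agent.TH819.PM.MomK
import Pool.Agent.TH819.PM.Add

/-! The moduli and the polynomial. -/

open Finset

namespace TH819.PM

open H343 H336V TH819.PL

/-- few prime divisors -/
lemma card_div (k : ℕ) (hk : 1 ≤ k) : (k.primeFactors.card : ℝ) * Real.log 2 ≤ Real.log k := by
  have h1 : 2 ^ k.primeFactors.card ≤ k := by
    calc 2 ^ k.primeFactors.card = ∏ _p ∈ k.primeFactors, 2 := by rw [prod_const]
      _ ≤ ∏ p ∈ k.primeFactors, p :=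
          prod_le_prod' fun p hp => (Nat.prime_of_mem_primeFactors hp).two_le
      _ ≤ k := Nat.le_of_dvd hk (Nat.prod_primeFactors_dvd k)
  have h2 : ((2 : ℝ) ^ k.primeFactors.card) ≤ k := by exact_mod_cast h1
  rw [← Real.log_pow]
  exact Real.log_le_log (by positivity) h2

/-- the primes not dividing `k` -/
noncomputable def Pk (k Q P2 : ℕ) : Finset ℕ :=
  ((Ioc Q P2).filter Nat.Prime).filter (fun p => ¬ p ∣ k)

lemma Pk_V {k Q P2 : ℕ} (hk : 1 ≤ k) (hQ : 1 ≤ Q) :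
    ∑ p ∈ (Ioc Q P2).filter Nat.Prime, 1 / ((p : ℝ) - 1) ≤
      (∑ p ∈ Pk k Q P2, 1 / ((p : ℝ) - 1)) + 2 * Real.log k / Q := by
  classical
  have hQ0 : (0 : ℝ) < Q := by exact_mod_cast hQ
  rw [← sum_filter_add_sum_filter_not ((Ioc Q P2).filter Nat.Prime) (fun p => p ∣ k), add_comm]
  apply add_le_add (le_of_eq rfl)
  have h1 : ∀ p ∈ ((Ioc Q P2).filter Nat.Prime).filter (fun p => p ∣ k),
      1 / ((p : ℝ) - 1) ≤ 1 / Q := by
    intro p hp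
    rw [mem_filter, mem_filter, mem_Ioc] at hp
    have h2 : (Q : ℝ) + 1 ≤ p := by exact_mod_cast hp.1.1.1
    apply one_div_le_one_div_of_le hQ0
    linarith
  refine (sum_le_sum h1).trans ?_
  rw [sum_const, nsmul_eq_mul]
  have h3 : (((((Ioc Q P2).filter Nat.Prime).filter (fun p => p ∣ k)).card : ℕ) : ℝ) ≤
      k.primeFactors.card := by
    have : ((Ioc Q P2).filter Nat.Prime).filter (fun p => p ∣ k) ⊆ k.primeFactors := by
      intro p hp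
      rw [mem_filter, mem_filter, mem_Ioc] at hp
      exact Nat.mem_primeFactors.2 ⟨hp.1.2, hp.2, by omega⟩
    exact_mod_cast card_le_card this
  have h4 := card_div k hk
  have h5 : (k.primeFactors.card : ℝ) ≤ 2 * Real.log k := by
    have := Real.log_two_gt_d9
    have h6 : (0 : ℝ) ≤ k.primeFactors.card := by positivity
    nlinarith
  rw [mul_one_div]
  gcongr
  exact h3.trans h5

/-- the moduli -/
noncomputable def WK (k M0 : ℕ) (P : Finset ℕ) : Finset ℕ :=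
  (P ×ˢ ModK k 0 M0).image (fun x => x.1 * x.2)

lemma sum_WK {E : Type*} [AddCommMonoid E] (k M0 : ℕ) (P : Finset ℕ)
    (hP : ∀ p ∈ P, p.Prime ∧ M0 < p) (f : ℕ → E) :
    ∑ q ∈ WK k M0 P, f q = ∑ p ∈ P, ∑ m ∈ ModK k 0 M0, f (p * m) := by
  rw [WK, sum_image, sum_product]
  intro x hx y hy hxy
  rw [mem_coe, mem_product] at hx hy
  obtain ⟨hx1, hx2'⟩ := hx
  obtain ⟨hy1, hy2'⟩ := hy
  obtain ⟨hx2, hx3, -⟩ := mem_ModK' hx2'
  obtain ⟨hy2, hy3, -⟩ := mem_ModK' hy2'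
  obtain ⟨px, qx⟩ := hP _ hx1
  obtain ⟨py, qy⟩ := hP _ hy1
  have h1 : x.1 ∣ y.1 * y.2 := ⟨x.2, hxy.symm⟩
  rcases px.dvd_mul.1 h1 with h | h
  · have h2 : x.1 = y.1 := (Nat.prime_dvd_prime_iff_eq px py).1 h
    have h3 : x.1 * x.2 = x.1 * y.2 := by
      have : x.1 * x.2 = y.1 * y.2 := hxy
      rw [this, h2]
    exact Prod.ext h2 (Nat.eq_of_mul_eq_mul_left px.pos h3)
  · have := Nat.le_of_dvd hy2 h
    omega

lemma WK_sub {k M0 Q R : ℕ} {P : Finset ℕ}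
    (hP : ∀ p ∈ P, p.Prime ∧ M0 < p ∧ Q < p ∧ p * M0 ≤ R ∧ ¬ p ∣ k) :
    WK k M0 P ⊆ ModK k Q R := by
  intro q hq
  rw [WK, mem_image] at hq
  obtain ⟨⟨p, m⟩, hpm, rfl⟩ := hq
  rw [mem_product] at hpm
  obtain ⟨hp, hm⟩ := hpm
  obtain ⟨hm1, hm2, hm3, hm4, -⟩ := mem_ModK' hm
  obtain ⟨h1, h2, h3, h4, h5⟩ := hP p hp
  simp only at hm1 hm2 hm3 hm4 ⊢
  rw [ModK, mem_filter, H343.Mod, mem_filter, mem_Ioc]
  refine ⟨⟨⟨?_, (Nat.mul_le_mul_left p hm2).trans h4⟩, ?_⟩, ?_⟩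
  · calc Q < p := h3
      _ ≤ p * m := Nat.le_mul_of_pos_right p hm1
  · rw [Nat.squarefree_mul ((Nat.Prime.coprime_iff_not_dvd h1).2 fun h => by
      have := Nat.le_of_dvd hm1 h
      omega)]
    exact ⟨h1.prime.squarefree, hm3⟩
  · exact Nat.Coprime.mul_left ((Nat.Prime.coprime_iff_not_dvd h1).2 h5) hm4

lemma LWK_eq {k M0 : ℕ} {P : Finset ℕ} (hP : ∀ p ∈ P, p.Prime ∧ M0 < p) :
    ∑ q ∈ WK k M0 P, (1 : ℝ) / Nat.totient q =
      (∑ p ∈ P, 1 / ((p : ℝ) - 1)) * LLK k 0 M0 := by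
  rw [sum_WK k M0 P hP, sum_mul]
  refine sum_congr rfl fun p hp => ?_
  unfold LLK
  rw [mul_sum]
  refine sum_congr rfl fun m hm => ?_
  obtain ⟨h1, h2, -⟩ := mem_ModK' hm
  rw [tot_mul (hP p hp).1 (hP p hp).2 h1 h2]
  rw [one_div_mul_one_div]

/-- all indices -/
noncomputable def SK (l : ℝ → ℝ) (Y : ℝ) (N M0 k : ℕ) (P : Finset ℕ) : Finset (ℕ × (ℕ × ℕ)) :=
  (P ×ˢ ((ModK k 0 M0) ×ˢ Icc 1 N)).filter (fun i => i.2.2.Coprime (i.1 * i.2.1) ∧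
    l (Real.log (i.2.2 / ((i.1 * i.2.1 : ℕ) * Y))) ≠ 0)

lemma mem_SK {l : ℝ → ℝ} {Y : ℝ} {N M0 k : ℕ} {P : Finset ℕ} {i : ℕ × (ℕ × ℕ)}
    (hi : i ∈ SK l Y N M0 k P) : i.1 ∈ P ∧ i.2 ∈ JP l Y N M0 k i.1 := by
  rw [SK, mem_filter, mem_product] at hi
  exact ⟨hi.1.1, by rw [JP, mem_filter]; exact ⟨hi.1.2, hi.2⟩⟩

lemma sum_SK {E : Type*} [AddCommMonoid E] (l : ℝ → ℝ) (Y : ℝ) (N M0 k : ℕ) (P : Finset ℕ)
    (f : ℕ × (ℕ × ℕ) → E) :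
    ∑ i ∈ SK l Y N M0 k P, f i = ∑ p ∈ P, ∑ j ∈ JP l Y N M0 k p, f (p, j) := by
  classical
  rw [SK, sum_filter, sum_product]
  refine sum_congr rfl fun p _ => ?_
  rw [JP, sum_filter]

/-- the test vector as a sum over all indices -/
lemma F_eq (lam : ℝ → ℝ) (Y : ℝ) (N M0 k : ℕ) (P : Finset ℕ) (hP : ∀ p ∈ P, p.Prime ∧ M0 < p)
    (e : ℕ → ℕ → ℂ) :
    ∑ q ∈ WK k M0 P, ∑ a ∈ (Icc 1 N).filter (fun a => a.Coprime q), co lam Y q a * e q a =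
      ∑ i ∈ SK lam Y N M0 k P, co lam Y (i.1 * i.2.1) i.2.2 * e (i.1 * i.2.1) i.2.2 := by
  classical
  rw [sum_WK k M0 P hP, sum_SK]
  refine sum_congr rfl fun p hp => ?_
  rw [JP, sum_filter, sum_product]
  refine sum_congr rfl fun m _ => ?_
  rw [sum_filter]
  refine sum_congr rfl fun a _ => ?_
  simp only
  by_cases h2 : a.Coprime (p * m)
  · rw [if_pos h2]
    by_cases h3 : lam (Real.log (a / ((p * m : ℕ) * Y))) = 0
    · rw [if_neg (fun h => h.2 h3)]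
      unfold co
      rw [h3]
      simp
    · rw [if_pos ⟨h2, h3⟩]
  · rw [if_neg h2, if_neg (fun h => h2 h.1)]

lemma co_norm {l : ℝ → ℝ} (hl0 : ∀ v, 0 ≤ l v) (Y : ℝ) {p : ℕ} {i : ℕ × ℕ}
    (hsq : Squarefree (p * i.1)) : ‖co l Y (p * i.1) i.2‖ = wt l Y p i := by
  unfold co wt
  rw [norm_mul, ex_norm, mul_one, Complex.norm_real, Real.norm_eq_abs, abs_mul,
    abs_of_nonneg (hl0 _), abs_div, 
    abs_of_nonneg (show (0 : ℝ) ≤ (Nat.totient (p * i.1) : ℝ) from Nat.cast_nonneg _)]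
  have h1 : |((ArithmeticFunction.moebius (p * i.1) : ℤ) : ℝ)| = 1 := by
    have := ArithmeticFunction.abs_moebius_eq_one_of_squarefree hsq
    exact_mod_cast this
  rw [h1]

lemma sym_two (r : ℚ) (c : ℝ) : sym r (2 * c) = (2 : ℝ) • sym r c := by
  ext α
  rw [AddMonoidAlgebra.coeff_smul_apply, sym_coeff, sym_coeff, smul_eq_mul]
  split_ifs <;> ring

lemma poly_eq {B : ℝ} {l : ℝ → ℝ} (hl : Test B l) (hl0 : ∀ v, 0 ≤ l v) {Y : ℝ} (hY : 0 < Y)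
    (N M0 k : ℕ) {P : Finset ℕ} (hP : ∀ p ∈ P, p.Prime ∧ M0 < p) :
    ∑ i ∈ SK l Y N M0 k P, sym ((i.2.2 : ℚ) / ((i.1 * i.2.1 : ℕ) : ℚ))
      (2 * ‖co l Y (i.1 * i.2.1) i.2.2‖) = (2 : ℝ) • ∑ p ∈ P, bK l Y N M0 k p := by
  rw [sum_SK, smul_sum]
  refine sum_congr rfl fun p hp => ?_
  unfold bK
  rw [smul_sum]
  refine sum_congr rfl fun j hj => ?_
  obtain ⟨h1, h2⟩ := hP p hp
  obtain ⟨a1, a2, a3, -⟩ := IP_mem hl hY h1.one_le (JP_sub _ _ _ _ _ _ hj)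
  have hsq : Squarefree (p * j.1) := by
    rw [Nat.squarefree_mul ((Nat.Prime.coprime_iff_not_dvd h1).2 fun h => by
      have := Nat.le_of_dvd a1 h
      omega)]
    exact ⟨h1.prime.squarefree, a3⟩
  rw [← sym_two]
  simp only
  rw [co_norm hl0 Y hsq]
  rfl

/-- the moment of the test vector -/
theorem F_moment {B : ℝ} {l : ℝ → ℝ} (hl : Test B l) (hl0 : ∀ v, 0 ≤ l v) {Y : ℝ} (hY : 0 < Y)
    {N M0 k m R : ℕ} {P : Finset ℕ} (hk : 1 ≤ k)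
    (hP : ∀ p ∈ P, p.Prime ∧ M0 < p ∧ p * M0 ≤ R ∧ ¬ p ∣ k)
    (hsm : (R : ℝ) ^ (2 * m) * (m * (Real.exp B * Y)) < k) :
    ∑ A ∈ range k, ‖∑ q ∈ WK k M0 P, ∑ a ∈ (Icc 1 N).filter (fun a => a.Coprime q),
      co l Y q a * ex ((A : ℝ) * ((a * inv k q : ℕ) : ℝ) / k)‖ ^ (2 * m) ≤
      k * (2 ^ (2 * m) * ((∑ p ∈ P, bK l Y N M0 k p) ^ (2 * m)).coeff 0) := by
  have hP' : ∀ p ∈ P, p.Prime ∧ M0 < p := fun p hp => ⟨(hP p hp).1, (hP p hp).2.1⟩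
  have h1 := mod_moment (SK l Y N M0 k P) (fun i => co l Y (i.1 * i.2.1) i.2.2)
    (fun i => i.2.2) (fun i => i.1 * i.2.1) k m R (Real.exp B * Y) hk (by positivity) ?_ ?_ hsm
  · rw [poly_eq hl hl0 hY N M0 k hP'] at h1
    have h2 : (((2 : ℝ) • ∑ p ∈ P, bK l Y N M0 k p) ^ (2 * m)).coeff 0 =
        2 ^ (2 * m) * ((∑ p ∈ P, bK l Y N M0 k p) ^ (2 * m)).coeff 0 := by
      rw [smul_pow, AddMonoidAlgebra.coeff_smul_apply, smul_eq_mul]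
    rw [h2] at h1
    refine le_trans (le_of_eq ?_) h1
    refine sum_congr rfl fun A _ => ?_
    rw [F_eq l Y N M0 k P hP' (fun q a => ex ((A : ℝ) * ((a * inv k q : ℕ) : ℝ) / k))]
  · intro i hi
    obtain ⟨h2, h3⟩ := mem_SK hi
    obtain ⟨b1, b2, b3, b4⟩ := hP _ h2
    obtain ⟨a1, a2, a3, -⟩ := IP_mem hl hY b1.one_le (JP_sub _ _ _ _ _ _ h3)
    refine ⟨Nat.one_le_iff_ne_zero.2 (by have := b1.pos; positivity),
      (Nat.mul_le_mul_left _ a2).trans b3, ?_⟩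
    exact Nat.Coprime.mul_left ((Nat.Prime.coprime_iff_not_dvd b1).2 b4) (JP_cop h3)
  · intro i hi
    obtain ⟨h2, h3⟩ := mem_SK hi
    obtain ⟨b1, b2, b3, b4⟩ := hP _ h2
    obtain ⟨a1, a2, a3, a4, a5, a6, a7⟩ := IP_mem hl hY b1.one_le (JP_sub _ _ _ _ _ _ h3)
    push_cast
    linarith

end TH819.PM
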