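import Pool.Agent.TH819.PM.Add2
import Pool.Agent.TH819.PM.Sel

/-! The majorant of the reduced residue classes. -/

open Finset Filter Topology

namespace TH819.PM

open H343 H336V TH819.PL

/-- no wrap-around, with extra fractions whose denominators divide `k` -/
lemma no_wrap2 {ι : Type*} {S : Finset ι} {a q : ι → ℕ} {k m R z : ℕ} {θ1 : ℝ} (hk : 1 ≤ k)
    (hq : ∀ i ∈ S, 1 ≤ q i ∧ q i ≤ R ∧ (q i).Coprime k)
    (ha : ∀ i ∈ S, (a i : ℝ) ≤ θ1 * q i)
    (hsm : (z : ℝ) ^ 2 * ((R : ℝ) ^ (2 * m) * (m * θ1)) < k) {d c d' c' : ℕ}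
    (hd : d ∣ k ∧ d ≤ z ∧ c < d ∧ c.Coprime d) (hd' : d' ∣ k ∧ d' ≤ z ∧ c' < d' ∧ c'.Coprime d')
    {f g : Fin m → ι} (hf : ∀ t, f t ∈ S) (hg : ∀ t, g t ∈ S)
    (hdiv : (k : ℤ) ∣ (((c * (k / d) : ℕ) : ℤ) + ∑ t, ((a (f t) * inv k (q (f t)) : ℕ) : ℤ)) -
      (((c' * (k / d') : ℕ) : ℤ) + ∑ t, ((a (g t) * inv k (q (g t)) : ℕ) : ℤ))) :
    (d = d' ∧ c = c') ∧
    ∑ t, ((a (f t) : ℚ) / (q (f t) : ℚ)) = ∑ t, ((a (g t) : ℚ) / (q (g t) : ℚ)) := by
  classical
  set D : (Fin m → ι) → ℕ := fun f => ∏ t, q (f t) with hD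
  set Nn : (Fin m → ι) → ℕ := fun f => ∑ t, a (f t) * ∏ s ∈ univ.erase t, q (f s) with hN
  have hqpos : ∀ f : Fin m → ι, (∀ t, f t ∈ S) → ∀ t, (0 : ℚ) < q (f t) := fun f hf t => by
    exact_mod_cast (hq _ (hf t)).1
  have h1 : ∀ f : Fin m → ι, (∀ t, f t ∈ S) →
      (D f : ℚ) * ∑ t, ((a (f t) : ℚ) / (q (f t) : ℚ)) = Nn f := by
    intro f hf
    rw [hD, hN]
    push_cast
    rw [mul_sum]
    refine sum_congr rfl fun t _ => ?_
    rw [← mul_prod_erase univ (fun s => (q (f s) : ℚ)) (mem_univ t)]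
    have := hqpos f hf t
    field_simp
  have h2 : ∀ f : Fin m → ι, (∀ t, f t ∈ S) →
      ((D f : ℤ) : ZMod k) * ((∑ t, ((a (f t) * inv k (q (f t)) : ℕ) : ℤ) : ℤ) : ZMod k) =
        ((Nn f : ℤ) : ZMod k) := by
    intro f hf
    rw [hD, hN, Int.cast_sum, mul_sum]
    push_cast
    refine sum_congr rfl fun t _ => ?_
    rw [← mul_prod_erase univ (fun s => (q (f s) : ZMod k)) (mem_univ t)]
    have := inv_mul hk (hq _ (hf t)).2.2 (a (f t))
    push_cast at this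
    linear_combination (∏ s ∈ univ.erase t, (q (f s) : ZMod k)) * this
  set E : ℤ := ((c * (k / d) : ℕ) : ℤ) - ((c' * (k / d') : ℕ) : ℤ) with hE
  have hdk : (k / d) * d = k := Nat.div_mul_cancel hd.1
  have hdk' : (k / d') * d' = k := Nat.div_mul_cancel hd'.1
  -- the first congruence
  have hZ1 : (k : ℤ) ∣ (D f : ℤ) * D g * E + ((D g : ℤ) * Nn f - (D f : ℤ) * Nn g) := by
    rw [← ZMod.intCast_zmod_eq_zero_iff_dvd _ k] at hdiv ⊢
    have e1 : (((D f : ℤ) * D g * E + ((D g : ℤ) * Nn f - (D f : ℤ) * Nn g) : ℤ) : ZMod k) =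
        ((D f : ℤ) : ZMod k) * ((D g : ℤ) : ZMod k) * (E : ZMod k) +
        (((D g : ℤ) : ZMod k) * ((Nn f : ℤ) : ZMod k) -
          ((D f : ℤ) : ZMod k) * ((Nn g : ℤ) : ZMod k)) := by
      push_cast
      ring
    rw [e1, ← h2 f hf, ← h2 g hg]
    rw [Int.cast_sub, Int.cast_add, Int.cast_add] at hdiv
    have e2 : (E : ZMod k) = (((c * (k / d) : ℕ) : ℤ) : ZMod k) -
        (((c' * (k / d') : ℕ) : ℤ) : ZMod k) := by
      rw [hE, Int.cast_sub]
    rw [e2]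
    linear_combination ((D f : ℤ) : ZMod k) * ((D g : ℤ) : ZMod k) * hdiv
  have hEd : (k : ℤ) ∣ (d : ℤ) * d' * E := by
    refine ⟨(c : ℤ) * d' - c' * d, ?_⟩
    rw [hE]
    have e3 : (k : ℤ) = ((k / d : ℕ) : ℤ) * d := by exact_mod_cast hdk.symm
    have e4 : (k : ℤ) = ((k / d' : ℕ) : ℤ) * d' := by exact_mod_cast hdk'.symm
    push_cast at e3 e4 ⊢
    linear_combination (-(c : ℤ) * d') * e3 + ((c' : ℤ) * d) * e4
  have hZ : (k : ℤ) ∣ (d : ℤ) * d' * ((D g : ℤ) * Nn f - (D f : ℤ) * Nn g) := by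
    have h3 := (hZ1.mul_left ((d : ℤ) * d'))
    have h4 := hEd.mul_left ((D f : ℤ) * D g)
    have h5 := dvd_sub h3 h4
    refine h5.trans (dvd_of_eq ?_)
    ring
  have hDpos : ∀ f : Fin m → ι, (∀ t, f t ∈ S) → (0 : ℚ) < D f := fun f hf => by
    rw [hD]
    push_cast
    exact prod_pos fun t _ => hqpos f hf t
  have hDle : ∀ f : Fin m → ι, (∀ t, f t ∈ S) → (D f : ℝ) ≤ (R : ℝ) ^ m := fun f hf => by
    rw [hD]
    push_cast
    calc ∏ t, (q (f t) : ℝ) ≤ ∏ _t : Fin m, (R : ℝ) :=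
          prod_le_prod (fun t _ => by positivity) fun t _ => by exact_mod_cast (hq _ (hf t)).2.1
      _ = (R : ℝ) ^ m := by rw [prod_const, card_univ, Fintype.card_fin]
  have hsum : ∀ f : Fin m → ι, (∀ t, f t ∈ S) →
      (0 : ℝ) ≤ ((∑ t, ((a (f t) : ℚ) / (q (f t) : ℚ)) : ℚ) : ℝ) ∧
      ((∑ t, ((a (f t) : ℚ) / (q (f t) : ℚ)) : ℚ) : ℝ) ≤ m * θ1 := by
    intro f hf
    push_cast
    constructor
    · exact sum_nonneg fun t _ => by positivity
    · calc ∑ t, (a (f t) : ℝ) / (q (f t) : ℝ) ≤ ∑ _t : Fin m, θ1 := by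
            refine sum_le_sum fun t _ => ?_
            have h3 : (0 : ℝ) < q (f t) := by exact_mod_cast (hq _ (hf t)).1
            rw [div_le_iff₀ h3]
            exact ha _ (hf t)
        _ = m * θ1 := by rw [sum_const, card_univ, Fintype.card_fin, nsmul_eq_mul]
  set sf := ∑ t, ((a (f t) : ℚ) / (q (f t) : ℚ)) with hsf
  set sg := ∑ t, ((a (g t) : ℚ) / (q (g t) : ℚ)) with hsg
  have hZq : (((D g : ℤ) * Nn f - (D f : ℤ) * Nn g : ℤ) : ℚ) = D f * D g * (sf - sg) := by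
    push_cast
    rw [← h1 f hf, ← h1 g hg]
    ring
  have hd0 : 0 < d := by omega
  have hd0' : 0 < d' := by omega
  have hZ0 : (D g : ℤ) * Nn f - (D f : ℤ) * Nn g = 0 := by
    have h5 : |(((d : ℤ) * d' * ((D g : ℤ) * Nn f - (D f : ℤ) * Nn g) : ℤ) : ℝ)| < k := by
      have h6 : (((D g : ℤ) * Nn f - (D f : ℤ) * Nn g : ℤ) : ℝ) =
          D f * D g * ((sf : ℝ) - (sg : ℝ)) := by exact_mod_cast hZq
      rw [Int.cast_mul, h6, Int.cast_mul, Int.cast_natCast, Int.cast_natCast, abs_mul,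
        abs_of_nonneg (show (0 : ℝ) ≤ (d : ℝ) * d' by positivity), abs_mul,
        abs_of_nonneg (show (0 : ℝ) ≤ (D f : ℝ) * D g by positivity)]
      have h7 : |(sf : ℝ) - (sg : ℝ)| ≤ m * θ1 := by
        obtain ⟨a1, a2⟩ := hsum f hf
        obtain ⟨b1, b2⟩ := hsum g hg
        rw [abs_le]
        constructor <;> linarith
      have h70 : 0 ≤ (m : ℝ) * θ1 := (hsum f hf).1.trans (hsum f hf).2
      have hdz : (d : ℝ) ≤ z := by exact_mod_cast hd.2.1
      have hdz' : (d' : ℝ) ≤ z := by exact_mod_cast hd'.2.1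
      calc (d : ℝ) * d' * ((D f : ℝ) * D g * |(sf : ℝ) - (sg : ℝ)|) ≤
          (z : ℝ) * z * ((R : ℝ) ^ m * (R : ℝ) ^ m * (m * θ1)) := by
            have := hDle f hf
            have := hDle g hg
            gcongr
        _ = (z : ℝ) ^ 2 * ((R : ℝ) ^ (2 * m) * (m * θ1)) := by
            rw [← pow_add]
            ring_nf
        _ < k := hsm
    have h8 : |(d : ℤ) * d' * ((D g : ℤ) * Nn f - (D f : ℤ) * Nn g)| < k := by exact_mod_cast h5
    have h9 := Int.eq_zero_of_abs_lt_dvd hZ h8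
    rcases mul_eq_zero.1 h9 with h | h
    · rcases mul_eq_zero.1 h with h | h <;> omega
    · exact h
  have hEk : (k : ℤ) ∣ E := by
    rw [hZ0, add_zero] at hZ1
    have hc1 : ∀ f : Fin m → ι, (∀ t, f t ∈ S) → IsCoprime (k : ℤ) (D f : ℤ) := fun f hf => by
      rw [Nat.isCoprime_iff_coprime]
      exact Nat.Coprime.prod_right fun t _ => ((hq _ (hf t)).2.2).symm
    exact (IsCoprime.mul_right (hc1 f hf) (hc1 g hg)).dvd_of_dvd_mul_left hZ1
  refine ⟨?_, ?_⟩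
  · have hkd : 1 ≤ k / d := Nat.div_pos (Nat.le_of_dvd hk hd.1) hd0
    have hkd' : 1 ≤ k / d' := Nat.div_pos (Nat.le_of_dvd hk hd'.1) hd0'
    have hlt : c * (k / d) < k := by
      calc c * (k / d) < d * (k / d) := Nat.mul_lt_mul_of_pos_right hd.2.2.1 hkd
        _ = k := by rw [mul_comm]; exact hdk
    have hlt' : c' * (k / d') < k := by
      calc c' * (k / d') < d' * (k / d') := Nat.mul_lt_mul_of_pos_right hd'.2.2.1 hkd'
        _ = k := by rw [mul_comm]; exact hdk'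
    have hE0 : E = 0 := by
      apply Int.eq_zero_of_abs_lt_dvd hEk
      rw [hE, abs_lt]
      constructor <;> omega
    have hEq : c * (k / d) = c' * (k / d') := by
      rw [hE] at hE0
      omega
    have hcross : c * d' = c' * d := by
      have h3 : k * (c * d') = k * (c' * d) := by
        calc k * (c * d') = ((k / d) * d) * (c * d') := by rw [hdk]
          _ = (c * (k / d)) * (d * d') := by ring
          _ = (c' * (k / d')) * (d * d') := by rw [hEq]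
          _ = ((k / d') * d') * (c' * d) := by ring
          _ = k * (c' * d) := by rw [hdk']
      exact Nat.eq_of_mul_eq_mul_left hk h3
    have e1 : d ∣ d' := by
      have : d ∣ c * d' := ⟨c', by rw [hcross]; ring⟩
      exact (hd.2.2.2.symm).dvd_of_dvd_mul_left this
    have e2 : d' ∣ d := by
      have : d' ∣ c' * d := ⟨c, by rw [← hcross]; ring⟩
      exact (hd'.2.2.2.symm).dvd_of_dvd_mul_left this
    have e3 : d = d' := Nat.dvd_antisymm e1 e2
    refine ⟨e3, ?_⟩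
    rw [← e3] at hcross
    exact Nat.eq_of_mul_eq_mul_right hd0 hcross
  · rw [hZ0, Int.cast_zero] at hZq
    have h9 : (D f : ℚ) * D g ≠ 0 := mul_ne_zero (hDpos f hf).ne' (hDpos g hg).ne'
    rcases mul_eq_zero.1 hZq.symm with h | h
    · exact absurd h h9
    · exact sub_eq_zero.1 h

/-- squarefree divisors of `k` up to `z` -/
noncomputable def Dz (k z : ℕ) : Finset ℕ :=
  (k.divisors.filter Squarefree).filter (fun d => d ≤ z)

/-- the mass -/
noncomputable def Sz (k z : ℕ) : ℝ := ∑ d ∈ Dz k z, (1 : ℝ) / Nat.totient d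

lemma mem_Dz {k z d : ℕ} (h : d ∈ Dz k z) : 1 ≤ d ∧ d ∣ k ∧ Squarefree d ∧ d ≤ z := by
  rw [Dz, mem_filter, mem_filter, Nat.mem_divisors] at h
  exact ⟨Nat.pos_of_dvd_of_pos h.1.1.1 (Nat.pos_of_ne_zero h.1.1.2), h.1.1.1, h.1.2, h.2⟩

lemma Sz_ge_one {k z : ℕ} (hk : 1 ≤ k) (hz : 1 ≤ z) : 1 ≤ Sz k z := by
  have h1 : (1 : ℕ) ∈ Dz k z := by
    rw [Dz, mem_filter, mem_filter, Nat.mem_divisors]
    exact ⟨⟨⟨one_dvd _, by omega⟩, squarefree_one⟩, hz⟩
  unfold Sz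
  calc (1 : ℝ) = 1 / (Nat.totient 1 : ℝ) := by simp
    _ ≤ _ := single_le_sum (f := fun q : ℕ => (1 : ℝ) / Nat.totient q)
        (fun i _ => by positivity) h1

/-- the fractions -/
noncomputable def Jz (k z : ℕ) : Finset (Σ _ : ℕ, ℕ) :=
  (Dz k z).sigma (fun d => (range d).filter (fun c => c.Coprime d))

/-- coefficients -/
noncomputable def gz (k z : ℕ) (j : Σ _ : ℕ, ℕ) : ℝ :=
  ((ArithmeticFunction.moebius j.1 : ℤ) : ℝ) / (Nat.totient j.1 * Sz k z)

/-- the majorant -/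
noncomputable def hz (k z A : ℕ) : ℂ :=
  ∑ j ∈ Jz k z, (gz k z j : ℂ) * ex ((A : ℝ) * ((j.2 * (k / j.1) : ℕ) : ℝ) / k)

lemma raman_coprime {d A : ℕ} (hd : 1 ≤ d) (h : A.Coprime d) :
    ∑ c ∈ (range d).filter (fun c => c.Coprime d), ex ((c : ℝ) * ((A : ℤ) : ℝ) / d) =
      ((ArithmeticFunction.moebius d : ℤ) : ℂ) := by
  rw [RamanAux.raman_eq d hd A, sum_eq_single d]
  · rw [Nat.div_self hd]
    simp
  · intro e he hed
    rw [Nat.mem_divisors] at he
    rw [if_neg, mul_zero]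
    intro h2
    have h3 : (d / e) ∣ A := by exact_mod_cast h2
    have h4 : (d / e) ∣ d := Nat.div_dvd_of_dvd he.1
    have h5 : d / e ∣ 1 := by
      rw [← h]
      exact Nat.dvd_gcd h3 h4
    have h6 : d / e = 1 := Nat.dvd_one.1 h5
    have h7 := Nat.div_mul_cancel he.1
    rw [h6, one_mul] at h7
    exact hed h7
  · intro h2
    exact absurd (Nat.mem_divisors.2 ⟨dvd_rfl, by omega⟩) h2

lemma hz_one {k z A : ℕ} (hk : 1 ≤ k) (hz1 : 1 ≤ z) (hA : A.Coprime k) : hz k z A = 1 := by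
  have hS := Sz_ge_one hk hz1
  have hk0 : (0 : ℝ) < k := by exact_mod_cast hk
  unfold hz Jz
  rw [sum_sigma]
  have h1 : ∀ d ∈ Dz k z, ∑ c ∈ (range d).filter (fun c => c.Coprime d),
      (gz k z ⟨d, c⟩ : ℂ) * ex ((A : ℝ) * ((c * (k / d) : ℕ) : ℝ) / k) =
      ((1 / (Nat.totient d : ℝ) * (1 / Sz k z) : ℝ) : ℂ) := by
    intro d hd
    obtain ⟨h2, h3, h4, -⟩ := mem_Dz hd
    have hAd : A.Coprime d := Nat.Coprime.coprime_dvd_right h3 hA
    have hd0 : (0 : ℝ) < d := by exact_mod_cast h2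
    unfold gz
    simp only
    rw [← mul_sum]
    have h5 : ∑ c ∈ (range d).filter (fun c => c.Coprime d),
        ex ((A : ℝ) * ((c * (k / d) : ℕ) : ℝ) / k) =
        ((ArithmeticFunction.moebius d : ℤ) : ℂ) := by
      rw [← raman_coprime h2 hAd]
      refine sum_congr rfl fun c _ => ?_
      congr 1
      rw [Nat.cast_mul, Nat.cast_div h3 hd0.ne']
      push_cast
      field_simp
    rw [h5]
    have h6 : (((ArithmeticFunction.moebius d : ℤ) : ℝ)) ^ 2 = 1 := by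
      have := ArithmeticFunction.moebius_sq_eq_one_of_squarefree h4
      exact_mod_cast this
    have hφ : (Nat.totient d : ℝ) ≠ 0 := by
      have : (0 : ℝ) < Nat.totient d := by exact_mod_cast Nat.totient_pos.2 h2
      exact this.ne'
    have h7 : ((ArithmeticFunction.moebius d : ℤ) : ℂ) =
        (((ArithmeticFunction.moebius d : ℤ) : ℝ) : ℂ) := by push_cast; rfl
    rw [h7, ← Complex.ofReal_mul]
    congr 1
    calc ((ArithmeticFunction.moebius d : ℤ) : ℝ) / (Nat.totient d * Sz k z) *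
        ((ArithmeticFunction.moebius d : ℤ) : ℝ) =
        ((ArithmeticFunction.moebius d : ℤ) : ℝ) ^ 2 / (Nat.totient d * Sz k z) := by ring
      _ = _ := by rw [h6]; ring
  rw [sum_congr rfl h1, ← Complex.ofReal_sum, ← sum_mul]
  have h8 : ∑ d ∈ Dz k z, (1 : ℝ) / Nat.totient d = Sz k z := rfl
  rw [h8, mul_one_div_cancel (by linarith)]
  simp

lemma gz_sq {k z : ℕ} (hk : 1 ≤ k) (hz1 : 1 ≤ z) :
    ∑ j ∈ Jz k z, gz k z j ^ 2 = 1 / Sz k z := by
  have hS := Sz_ge_one hk hz1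
  unfold Jz
  rw [sum_sigma]
  have h1 : ∀ d ∈ Dz k z, ∑ c ∈ (range d).filter (fun c => c.Coprime d), gz k z ⟨d, c⟩ ^ 2 =
      1 / (Nat.totient d : ℝ) * (1 / Sz k z ^ 2) := by
    intro d hd
    obtain ⟨h2, h3, h4, -⟩ := mem_Dz hd
    unfold gz
    simp only
    rw [sum_const, nsmul_eq_mul]
    have hc : ((range d).filter (fun c => c.Coprime d)).card = Nat.totient d := by
      rw [Nat.totient_eq_card_coprime]
      congr 1
      apply filter_congr
      intro A _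
      exact Nat.coprime_comm
    rw [hc, div_pow, mul_pow]
    have h6 : (((ArithmeticFunction.moebius d : ℤ) : ℝ)) ^ 2 = 1 := by
      have := ArithmeticFunction.moebius_sq_eq_one_of_squarefree h4
      exact_mod_cast this
    rw [h6]
    have hφ : (0 : ℝ) < Nat.totient d := by exact_mod_cast Nat.totient_pos.2 h2
    field_simp
  rw [sum_congr rfl h1, ← sum_mul]
  have h8 : ∑ d ∈ Dz k z, (1 : ℝ) / Nat.totient d = Sz k z := rfl
  rw [h8]
  field_simp

end TH819.PM
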