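import Pool.Agent.TH819.PM.Fin

/-! Large values over the residue classes. -/

open Finset Filter Topology

namespace TH819.PM

open H343 H336V TH819.PL

lemma psiA_nonneg (X : ℝ) (k A : ℕ) : 0 ≤ psiA X k A :=
  sum_nonneg fun _ _ => ArithmeticFunction.vonMangoldt_nonneg

lemma psiA_le {X : ℝ} {k A : ℕ} (hk : 1 ≤ k) (hkX : (k : ℝ) ≤ X) :
    psiA X k A ≤ 2 * (X / k) * Real.log X := by
  have hk0 : (0 : ℝ) < k := by exact_mod_cast hk
  have hk1 : (1 : ℝ) ≤ k := by exact_mod_cast hk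
  have hX1 : 1 ≤ X := hk1.trans hkX
  have hlog : 0 ≤ Real.log X := Real.log_nonneg hX1
  have h1 : psiA X k A ≤ ∑ n ∈ (Icc 1 ⌊X⌋₊).filter (fun n => n ≡ A [MOD k]), Real.log X := by
    refine sum_le_sum fun n hn => ?_
    rw [mem_filter, mem_Icc] at hn
    refine ArithmeticFunction.vonMangoldt_le_log.trans (Real.log_le_log ?_ ?_)
    · exact_mod_cast hn.1.1
    · exact (Nat.cast_le.2 hn.1.2).trans (Nat.floor_le (by linarith))
  refine h1.trans ?_
  rw [sum_const, nsmul_eq_mul]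
  apply mul_le_mul_of_nonneg_right _ hlog
  have h2 : ((Icc 1 ⌊X⌋₊).filter (fun n => n ≡ A [MOD k])).card ≤ ⌊X⌋₊ / k + 1 := by
    rw [← card_range (⌊X⌋₊ / k + 1)]
    apply card_le_card_of_injOn (fun n => n / k)
    · intro n hn
      rw [mem_coe, mem_filter, mem_Icc] at hn
      rw [mem_coe, mem_range]
      exact Nat.lt_succ_of_le (Nat.div_le_div_right (c := k) hn.1.2)
    · intro x hx y hy hxy
      rw [mem_coe, mem_filter] at hx hy
      have h3 : x % k = y % k := hx.2.trans hy.2.symm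
      have h4 : x / k = y / k := hxy
      rw [← Nat.div_add_mod x k, ← Nat.div_add_mod y k, h3, h4]
  have h3 : ((((Icc 1 ⌊X⌋₊).filter (fun n => n ≡ A [MOD k])).card : ℕ) : ℝ) ≤
      ((⌊X⌋₊ / k : ℕ) : ℝ) + 1 := by exact_mod_cast h2
  have h4 : ((⌊X⌋₊ / k : ℕ) : ℝ) ≤ X / k := by
    refine Nat.cast_div_le.trans ?_
    have := Nat.floor_le (show 0 ≤ X by linarith)
    gcongr
  have h5 : 1 ≤ X / k := by rw [le_div_iff₀ hk0]; linarith
  linarith

lemma Dv_le {X : ℝ} {k A : ℕ} (hk : 1 ≤ k) (hkX : (k : ℝ) ≤ X) (hl : 1 ≤ Real.log X) :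
    |Dv X k A| ≤ 2 * (X / Nat.totient k * Real.log X) := by
  have hk0 : (0 : ℝ) < k := by exact_mod_cast hk
  have hk1 : (1 : ℝ) ≤ k := by exact_mod_cast hk
  have hX0 : 0 < X := by linarith
  have hφ : (0 : ℝ) < Nat.totient k := by exact_mod_cast Nat.totient_pos.2 hk
  have hφk : (Nat.totient k : ℝ) ≤ k := by exact_mod_cast Nat.totient_le k
  have h1 := psiA_le (A := A) hk hkX
  have h0 := psiA_nonneg X k A
  have h2 : X / k ≤ X / Nat.totient k := by gcongr
  have h3 : 0 < X / Nat.totient k := by positivity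
  have h4 : X / k * Real.log X ≤ X / Nat.totient k * Real.log X := by gcongr
  have h5 : X / Nat.totient k * 1 ≤ X / Nat.totient k * Real.log X := by gcongr
  unfold Dv
  rw [abs_le]
  constructor <;> linarith

/-- many large values -/
lemma large_fin {p : ℝ} (hp : 1 ≤ p) {k : ℕ} (S : Finset ℕ) (hS : S.card ≤ k)
    (D : ℕ → ℝ) {T Dm : ℝ} (hT : 0 ≤ T) (hDm : 0 < Dm) (hD : ∀ A ∈ S, |D A| ≤ Dm)
    (h : k * T ^ p ≤ ∑ A ∈ S, |D A| ^ p) :
    k * (T / 2 / Dm) ^ p ≤ ((S.filter (fun A => T / 2 ≤ |D A|)).card : ℝ) := by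
  have hp0 : 0 < p := by linarith
  have h1 : ∀ A ∈ S, |D A| ^ p ≤ (T / 2) ^ p + if T / 2 ≤ |D A| then Dm ^ p else 0 := by
    intro A hA
    split_ifs with h2
    · have := Real.rpow_le_rpow (abs_nonneg _) (hD A hA) hp0.le
      have h3 : 0 ≤ (T / 2) ^ p := by positivity
      linarith
    · rw [add_zero]
      push Not at h2
      exact Real.rpow_le_rpow (abs_nonneg _) h2.le hp0.le
  have h2 := h.trans (sum_le_sum h1)
  rw [sum_add_distrib, sum_const, nsmul_eq_mul, ← sum_filter, sum_const, nsmul_eq_mul] at h2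
  have h3 : (S.card : ℝ) * (T / 2) ^ p ≤ k * (T / 2) ^ p := by
    have : (S.card : ℝ) ≤ k := by exact_mod_cast hS
    gcongr
  have h4 : (T / 2) ^ p ≤ T ^ p / 2 := by
    rw [Real.div_rpow hT (by norm_num)]
    apply div_le_div_of_nonneg_left (by positivity) (by norm_num)
    calc (2 : ℝ) = 2 ^ (1 : ℝ) := (Real.rpow_one 2).symm
      _ ≤ 2 ^ p := Real.rpow_le_rpow_of_exponent_le (by norm_num) hp
  have h5 : (k : ℝ) * (T / 2) ^ p ≤ k * (T ^ p / 2) := by gcongr
  have h6 : (k : ℝ) * (T / 2) ^ p ≤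
      ((S.filter (fun A => T / 2 ≤ |D A|)).card : ℝ) * Dm ^ p := by linarith
  rw [Real.div_rpow (by positivity) hDm.le, ← mul_div_assoc, div_le_iff₀ (by positivity)]
  exact h6

end TH819.PM
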