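import Pool.Agent.TH819.PM.Low
import Pool.Agent.TH819.PM.Large

/-! All moments, every modulus. -/

open Finset Filter Topology

namespace TH819.PM

open H343 H336V TH819.PL

theorem ap_all (m : ℕ) (hm : 2 ≤ m) (δ : ℝ) (hδ : 0 < δ) :
    ∃ c C0 X0 : ℝ, 0 < c ∧ 1 ≤ C0 ∧ ∀ X : ℝ, X0 ≤ X → ∀ K : ℕ, C0 * K ≤ X →
      X ≤ K * X ^ (1 / (2 * (m : ℝ)) - δ) → 1 ≤ K ∧ (K : ℝ) ≤ X ∧ 1 ≤ Real.log X ∧
      ∀ p : ℝ, 2 * (m : ℝ) / (2 * m - 1) ≤ p →
      K * (c * Real.sqrt (X / K * ((Nat.totient K : ℝ) / K * (1 + Real.log (X / K))))) ^ p ≤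
        ∑ A ∈ (range K).filter (fun A => A.Coprime K), |Dv X K A| ^ p := by
  have hm0 : (2 : ℝ) ≤ m := by exact_mod_cast hm
  set δ' : ℝ := min δ (1 / (4 * (m : ℝ))) with hδ'
  have hδ'0 : 0 < δ' := by positivity
  have hδ'1 : δ' ≤ δ := min_le_left _ _
  obtain ⟨c, C0, hc, hC0, hev⟩ := ap_lower m hm δ' hδ'0 (min_le_right _ _)
  obtain ⟨X0, hX0⟩ := eventually_atTop.1 (hev.and
    ((Real.tendsto_log_atTop.eventually_ge_atTop 1).and (eventually_ge_atTop (1 : ℝ))))
  refine ⟨c, C0, X0, hc, hC0, fun X hX K hKX hXK => ?_⟩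
  obtain ⟨h1, h2, h3⟩ := hX0 X hX
  have hX0' : 0 < X := by linarith
  have hK1 : 1 ≤ K := by
    rcases Nat.eq_zero_or_pos K with h | h
    · rw [h, Nat.cast_zero, zero_mul] at hXK
      linarith
    · exact h
  have hK0 : (0 : ℝ) < K := by exact_mod_cast hK1
  have hKleX : (K : ℝ) ≤ X := by
    calc (K : ℝ) = 1 * K := (one_mul _).symm
      _ ≤ C0 * K := by gcongr
      _ ≤ X := hKX
  refine ⟨hK1, hKleX, h2, fun p hp => ?_⟩
  have hp0 : 1 ≤ 2 * (m : ℝ) / (2 * m - 1) := by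
    rw [one_le_div (by linarith)]
    linarith
  have hp1 : 0 < p := by linarith
  have h4 := h1 K hKX (hXK.trans (by
    apply mul_le_mul_of_nonneg_left _ hK0.le
    exact Real.rpow_le_rpow_of_exponent_le h3 (by linarith)))
  have h5 := norm_mono_fin hp0 hp hK1 ((range K).filter (fun A => A.Coprime K))
    ((card_filter_le _ _).trans (card_range K).le) (Dv X K)
  have h6 := h4.trans h5
  set T := c * Real.sqrt (X / K * ((Nat.totient K : ℝ) / K * (1 + Real.log (X / K)))) with hT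
  have hT0 : 0 ≤ T := by positivity
  set I := ∑ A ∈ (range K).filter (fun A => A.Coprime K), |Dv X K A| ^ p with hI
  have hI0 : 0 ≤ I := sum_nonneg fun A _ => by positivity
  have h7 : T ^ p ≤ 1 / K * I := by
    calc T ^ p ≤ ((1 / K * I) ^ (1 / p)) ^ p := Real.rpow_le_rpow hT0 h6 hp1.le
      _ = 1 / K * I := by
          rw [← Real.rpow_mul (by positivity), one_div_mul_cancel hp1.ne', Real.rpow_one]
  calc (K : ℝ) * T ^ p ≤ K * (1 / K * I) := by gcongr
    _ = I := by field_simp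

theorem ap_large (m : ℕ) (hm : 2 ≤ m) (δ : ℝ) (hδ : 0 < δ) :
    ∃ c C0 X0 : ℝ, 0 < c ∧ 1 ≤ C0 ∧ ∀ X : ℝ, X0 ≤ X → ∀ K : ℕ, C0 * K ≤ X →
      X ≤ K * X ^ (1 / (2 * (m : ℝ)) - δ) →
      K * (c * Real.sqrt (X / K * ((Nat.totient K : ℝ) / K * (1 + Real.log (X / K)))) /
        (X / Nat.totient K * Real.log X)) ^ (2 * (m : ℝ) / (2 * m - 1)) ≤
        ((((range K).filter (fun A => A.Coprime K)).filter (fun A =>
          c * Real.sqrt (X / K * ((Nat.totient K : ℝ) / K * (1 + Real.log (X / K)))) ≤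
            |Dv X K A|)).card : ℝ) := by
  have hm0 : (2 : ℝ) ≤ m := by exact_mod_cast hm
  obtain ⟨c, C0, X0, hc, hC0, h⟩ := ap_all m hm δ hδ
  refine ⟨c / 4, C0, X0, by positivity, hC0, fun X hX K hKX hXK => ?_⟩
  obtain ⟨hK1, hKleX, hlog, h2⟩ := h X hX K hKX hXK
  have hp0 : 1 ≤ 2 * (m : ℝ) / (2 * m - 1) := by
    rw [one_le_div (by linarith)]
    linarith
  have hK0 : (0 : ℝ) < K := by exact_mod_cast hK1
  have hX0' : 0 < X := by linarith
  have hφ : (0 : ℝ) < Nat.totient K := by exact_mod_cast Nat.totient_pos.2 hK1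
  set SM := Real.sqrt (X / K * ((Nat.totient K : ℝ) / K * (1 + Real.log (X / K)))) with hSM
  have hSM0 : 0 ≤ SM := Real.sqrt_nonneg _
  have hlog0 : 0 < Real.log X := by linarith
  have h3 := large_fin hp0 ((range K).filter (fun A => A.Coprime K))
    ((card_filter_le _ _).trans (card_range K).le) (Dv X K) (T := c * SM)
    (Dm := 2 * (X / Nat.totient K * Real.log X)) (by positivity) (by positivity)
    (fun A _ => Dv_le hK1 hKleX hlog) (h2 _ le_rfl)
  have e1 : c * SM / 2 / (2 * (X / Nat.totient K * Real.log X)) =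
      c / 4 * SM / (X / Nat.totient K * Real.log X) := by
    field_simp
    ring
  rw [e1] at h3
  refine h3.trans ?_
  have h4 : ((range K).filter (fun A => A.Coprime K)).filter (fun A => c * SM / 2 ≤ |Dv X K A|) ⊆
      ((range K).filter (fun A => A.Coprime K)).filter (fun A => c / 4 * SM ≤ |Dv X K A|) := by
    intro A hA
    rw [mem_filter] at hA ⊢
    refine ⟨hA.1, ?_⟩
    have : c / 4 * SM ≤ c * SM / 2 := by
      have : 0 ≤ c * SM := by positivity
      linarith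
    exact this.trans hA.2
  exact_mod_cast card_le_card h4

end TH819.PM
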