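import Pool.Agent.TH819.PM.Large
import Pool.Agent.H336R2.V.TotLog

/-! The remaining moduli `X / C₀ < K ≤ X`. -/

open Finset Filter Topology

namespace TH819.PM

open H343 H336V TH819.PL

lemma few : ∀ᶠ X : ℝ in atTop,
    (((Icc 1 ⌊X⌋₊).filter (fun n => ArithmeticFunction.vonMangoldt n ≠ 0)).card : ℝ) ≤
      4 * (X / Real.log X) := by
  have h1 := (isLittleO_log_rpow_atTop (r := 1 / 8) (by norm_num)).bound
    (show (0 : ℝ) < 1 / 4 by norm_num)
  filter_upwards [h1, eventually_ge_atTop (16 : ℝ), Real.tendsto_log_atTop.eventually_ge_atTop 1]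
    with X h2 hX hlog
  have hX1 : 1 ≤ X := by linarith
  have hX0 : 0 < X := by linarith
  rw [Real.norm_of_nonneg (by linarith), Real.norm_of_nonneg (by positivity)] at h2
  set s := Real.sqrt X with hs
  have hs0 : 0 < s := Real.sqrt_pos.2 hX0
  have hss : s * s = X := Real.mul_self_sqrt hX0.le
  set L := Real.log X with hL
  have hsplit : (Icc 1 ⌊X⌋₊).filter (fun n => ArithmeticFunction.vonMangoldt n ≠ 0) ⊆
      (Ioc 0 ⌊X⌋₊).filter Nat.Prime ∪ ((Ioc 0 ⌊X⌋₊).filter (fun n => ¬ n.Prime)).filter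
        (fun n => ArithmeticFunction.vonMangoldt n ≠ 0) := by
    intro n hn
    simp only [mem_filter, mem_Icc, mem_union, mem_Ioc] at hn ⊢
    by_cases hp : n.Prime
    · exact Or.inl ⟨⟨by omega, hn.1.2⟩, hp⟩
    · exact Or.inr ⟨⟨⟨by omega, hn.1.2⟩, hp⟩, hn.2⟩
  have hc1 := (card_le_card hsplit).trans (card_union_le _ _)
  have hpi : ((((Ioc 0 ⌊X⌋₊).filter Nat.Prime).card : ℕ) : ℝ) ≤
      Real.log 4 * X / Real.log s + s := by
    have h3 := Chebyshev.pi_le_log4_mul_div (x := X) (by linarith)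
    have h4 : ((Ioc 0 ⌊X⌋₊).filter Nat.Prime).card ≤ Nat.primeCounting ⌊X⌋₊ := by
      rw [Nat.primeCounting, Nat.primeCounting', Nat.count_eq_card_filter_range]
      apply card_le_card
      intro n hn
      simp only [mem_filter, mem_Ioc, mem_range] at hn ⊢
      exact ⟨by omega, hn.2⟩
    exact le_trans (by exact_mod_cast h4) h3
  have hnp : (((((Ioc 0 ⌊X⌋₊).filter (fun n => ¬ n.Prime)).filter
        (fun n => ArithmeticFunction.vonMangoldt n ≠ 0)).card : ℕ) : ℝ) * Real.log 2 ≤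
      2 * s * L := by
    have h3 := Chebyshev.psi_sub_theta_le hX1
    rw [Chebyshev.psi_sub_theta_eq_sum_not_prime] at h3
    refine le_trans ?_ h3
    rw [← nsmul_eq_mul, ← sum_const]
    refine (sum_le_sum fun n hn => ?_).trans (sum_le_sum_of_subset_of_nonneg (filter_subset _ _)
      fun n _ _ => ArithmeticFunction.vonMangoldt_nonneg)
    rw [mem_filter] at hn
    have h5 : IsPrimePow n := by
      by_contra h6
      exact hn.2 (ArithmeticFunction.vonMangoldt_eq_zero_iff.2 h6)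
    rw [ArithmeticFunction.vonMangoldt_apply, if_pos h5]
    apply Real.log_le_log (by norm_num)
    exact_mod_cast (Nat.minFac_prime h5.ne_one).two_le
  have hlogs : Real.log s = L / 2 := by
    rw [hs, Real.log_sqrt hX0.le]
  rw [hlogs] at hpi
  have hlog4 : Real.log 4 = 2 * Real.log 2 := by
    rw [show (4 : ℝ) = 2 ^ 2 by norm_num, Real.log_pow]
    push_cast
    ring
  have hl2 := Real.log_two_lt_d9
  have hl2' := Real.log_two_gt_d9
  set c2 : ℝ := ((((((Ioc 0 ⌊X⌋₊).filter (fun n => ¬ n.Prime)).filter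
        (fun n => ArithmeticFunction.vonMangoldt n ≠ 0)).card : ℕ) : ℝ)) with hc2
  have hc20 : 0 ≤ c2 := by positivity
  have hc2le : c2 ≤ 4 * s * L := by
    have h5 : 0 < s * L := by positivity
    nlinarith
  -- `s L ^ 2` is small
  have hL2 : L ≤ 1 / 4 * X ^ (1 / 8 : ℝ) := h2
  have hXp : X ^ (1 / 8 : ℝ) * X ^ (1 / 8 : ℝ) = X ^ (1 / 4 : ℝ) := by
    rw [← Real.rpow_add hX0]
    norm_num
  have hXp4 : 2 ≤ X ^ (1 / 4 : ℝ) := by
    have h5 : (16 : ℝ) ^ (1 / 4 : ℝ) = 2 := by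
      rw [show (16 : ℝ) = 2 ^ (4 : ℝ) by norm_num, ← Real.rpow_mul (by norm_num)]
      norm_num
    rw [← h5]
    gcongr
  have hs4 : s = X ^ (1 / 4 : ℝ) * X ^ (1 / 4 : ℝ) := by
    rw [hs, Real.sqrt_eq_rpow, ← Real.rpow_add hX0]
    norm_num
  have hLL : L * L ≤ 1 / 16 * X ^ (1 / 4 : ℝ) := by
    have h6 : 0 < X ^ (1 / 8 : ℝ) := by positivity
    have h7 : 0 ≤ L := by linarith
    calc L * L ≤ (1 / 4 * X ^ (1 / 8 : ℝ)) * (1 / 4 * X ^ (1 / 8 : ℝ)) := by gcongr
      _ = 1 / 16 * (X ^ (1 / 8 : ℝ) * X ^ (1 / 8 : ℝ)) := by ring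
      _ = _ := by rw [hXp]
  set u := X ^ (1 / 4 : ℝ) with hu
  have hu0 : 0 < u := by positivity
  have hsu : u ≤ s := by rw [hs4]; nlinarith
  have hL0 : 0 < L := by linarith
  have hsL : s + 4 * s * L ≤ X / L := by
    rw [le_div_iff₀ hL0]
    have h6 : L ≤ L * L := by nlinarith
    calc (s + 4 * s * L) * L = s * (L + 4 * (L * L)) := by ring
      _ ≤ s * (5 * (L * L)) := by
          apply mul_le_mul_of_nonneg_left _ hs0.le
          linarith
      _ ≤ s * u := by
          apply mul_le_mul_of_nonneg_left _ hs0.le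
          linarith
      _ ≤ s * s := by gcongr
      _ = X := hss
  have hpi2 : Real.log 4 * X / (L / 2) ≤ 3 * (X / L) := by
    rw [hlog4]
    have h6 : 0 < X / L := by positivity
    calc 2 * Real.log 2 * X / (L / 2) = (4 * Real.log 2) * (X / L) := by field_simp; ring
      _ ≤ 3 * (X / L) := by
          apply mul_le_mul_of_nonneg_right _ h6.le
          linarith
  have hfin : ((((Icc 1 ⌊X⌋₊).filter (fun n => ArithmeticFunction.vonMangoldt n ≠ 0)).card : ℕ) : ℝ)
      ≤ (((Ioc 0 ⌊X⌋₊).filter Nat.Prime).card : ℝ) + c2 := by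
    rw [hc2]
    exact_mod_cast hc1
  linarith

lemma empty_classes (X : ℝ) {k : ℕ} :
    (Nat.totient k : ℝ) ≤
      ((((range k).filter (fun A => A.Coprime k)).filter (fun A => psiA X k A = 0)).card : ℝ) +
      (((Icc 1 ⌊X⌋₊).filter (fun n => ArithmeticFunction.vonMangoldt n ≠ 0)).card : ℝ) := by
  classical
  set S := (range k).filter (fun A => A.Coprime k) with hS
  set T := (Icc 1 ⌊X⌋₊).filter (fun n => ArithmeticFunction.vonMangoldt n ≠ 0) with hT
  have h1 : Nat.totient k = S.card := by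
    rw [Nat.totient_eq_card_coprime, hS]
    congr 1
    apply filter_congr
    intro A _
    exact Nat.coprime_comm
  have h2 : S.card = (S.filter (fun A => psiA X k A = 0)).card +
      (S.filter (fun A => ¬ psiA X k A = 0)).card :=
    (card_filter_add_card_filter_not (s := S) (fun A => psiA X k A = 0)).symm
  have h3 : (S.filter (fun A => ¬ psiA X k A = 0)).card ≤ T.card := by
    refine le_trans (card_le_card ?_) (card_image_le (s := T) (f := fun n => n % k))
    intro A hA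
    rw [mem_filter, hS, mem_filter, mem_range] at hA
    unfold psiA at hA
    obtain ⟨n, hn, hn2⟩ := exists_ne_zero_of_sum_ne_zero hA.2
    rw [mem_filter] at hn
    rw [mem_image]
    refine ⟨n, ?_, ?_⟩
    · rw [hT, mem_filter]
      exact ⟨hn.1, hn2⟩
    · have h5 : n % k = A % k := hn.2
      rw [h5, Nat.mod_eq_of_lt hA.1.1]
  have h4 : Nat.totient k ≤ (S.filter (fun A => psiA X k A = 0)).card + T.card := by omega
  exact_mod_cast h4

lemma ext (C0 : ℝ) (hC0 : 1 ≤ C0) : ∃ X1 : ℝ, ∀ X : ℝ, X1 ≤ X → ∀ K : ℕ, (K : ℝ) ≤ X →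
    X < C0 * K → 1 ≤ K ∧ 1 ≤ Real.log X ∧ (Nat.totient K : ℝ) / 2 ≤
      ((((range K).filter (fun A => A.Coprime K)).filter (fun A => psiA X K A = 0)).card : ℝ) ∧
      (K : ℝ) ≤ Nat.totient K * Real.log X := by
  obtain ⟨k0, hk0⟩ := totient_log (8 * C0)
  obtain ⟨X1, hX1⟩ := eventually_atTop.1 (few.and
    ((Real.tendsto_log_atTop.eventually_ge_atTop 1).and
      ((eventually_ge_atTop (C0 * max k0 1)))))
  refine ⟨X1, fun X hX K hKX hXK => ?_⟩
  obtain ⟨h1, h2, h3⟩ := hX1 X hX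
  have hC00 : 0 < C0 := by linarith
  have hKk : max k0 1 < K := by
    have : C0 * max k0 1 < C0 * K := lt_of_le_of_lt h3 hXK
    exact lt_of_mul_lt_mul_left this hC00.le
  have hK1r : (1 : ℝ) < K := lt_of_le_of_lt (le_max_right _ _) hKk
  have hK0 : (0 : ℝ) < K := by linarith
  have hK1 : 1 ≤ K := by exact_mod_cast hK1r.le
  have hX0 : 0 < X := by linarith
  have h4 := hk0 K ((le_max_left _ _).trans hKk.le)
  have hlogK : Real.log K ≤ Real.log X := Real.log_le_log hK0 hKX
  have hlogK0 : 0 ≤ Real.log K := Real.log_nonneg hK1r.le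
  have hlogX : 0 < Real.log X := by linarith
  have hφ : (0 : ℝ) < Nat.totient K := by exact_mod_cast Nat.totient_pos.2 hK1
  -- `8 C₀ K ≤ φ(K) log X`
  have h5 : 8 * C0 * K ≤ Nat.totient K * Real.log X := by
    rw [div_mul_eq_mul_div, le_div_iff₀ hK0] at h4
    refine h4.trans ?_
    gcongr
  have h6 := empty_classes X (k := K)
  refine ⟨hK1, h2, ?_, ?_⟩
  · have h7 : 8 * (X / Real.log X) ≤ Nat.totient K := by
      rw [← mul_div_assoc, div_le_iff₀ hlogX]
      linarith
    linarith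
  · have : (K : ℝ) ≤ 8 * C0 * K := by
      have : (1 : ℝ) ≤ 8 * C0 := by linarith
      nlinarith
    linarith

end TH819.PM
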