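import Pool.Agent.TH819.PM.Low2
import Pool.Agent.TH819.PM.Empty

/-! All moments, every modulus, over the reduced classes. -/

open Finset Filter Topology

namespace TH819.PM

open H343 H336V TH819.PL

/-- the reduced classes -/
lemma card_red (K : ℕ) : ((range K).filter (fun A => A.Coprime K)).card = Nat.totient K := by
  rw [Nat.totient_eq_card_coprime]
  congr 1
  apply filter_congr
  intro A _
  exact Nat.coprime_comm

theorem ap_all2 (m : ℕ) (hm : 2 ≤ m) (δ : ℝ) (hδ : 0 < δ) :
    ∃ c X0 : ℝ, 0 < c ∧ ∀ X : ℝ, X0 ≤ X → ∀ K : ℕ, (K : ℝ) ≤ X →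
      X ≤ K * X ^ (1 / (2 * (m : ℝ)) - δ) → 1 ≤ K ∧ 1 ≤ Real.log X ∧
      (∀ p : ℝ, 2 * (m : ℝ) / (2 * m - 1) ≤ p →
      Nat.totient K * (c * Real.sqrt (X / Nat.totient K * (1 + Real.log (X / K)))) ^ p ≤
        ∑ A ∈ (range K).filter (fun A => A.Coprime K), |Dv X K A| ^ p) := by
  have hm0 : (2 : ℝ) ≤ m := by exact_mod_cast hm
  set δ' : ℝ := min δ (1 / (4 * (m : ℝ))) with hδ'
  have hδ'0 : 0 < δ' := by positivity
  have hδ'1 : δ' ≤ δ := min_le_left _ _
  obtain ⟨c1, C0, hc1, hC0, hev⟩ := ap_lower2 m hm δ' hδ'0 (min_le_right _ _)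
  obtain ⟨X0, hX0⟩ := eventually_atTop.1 (hev.and
    ((Real.tendsto_log_atTop.eventually_ge_atTop 1).and (eventually_ge_atTop (1 : ℝ))))
  obtain ⟨X1, h1⟩ := ext C0 hC0
  have hlC0 : 0 ≤ Real.log C0 := Real.log_nonneg hC0
  set B0 : ℝ := Real.sqrt (1 + Real.log C0) with hB0
  have hB00 : 0 < B0 := Real.sqrt_pos.2 (by positivity)
  refine ⟨min c1 (1 / (2 * B0)), max X0 X1, by positivity, fun X hX K hKX hXK => ?_⟩
  obtain ⟨g1, g2, g3⟩ := hX0 X ((le_max_left _ _).trans hX)
  have hX0' : 0 < X := by linarith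
  have hK1 : 1 ≤ K := by
    rcases Nat.eq_zero_or_pos K with h | h
    · rw [h, Nat.cast_zero, zero_mul] at hXK
      linarith
    · exact h
  refine ⟨hK1, g2, fun p hp => ?_⟩
  have hp0 : 1 ≤ 2 * (m : ℝ) / (2 * m - 1) := by
    rw [one_le_div (by linarith)]
    linarith
  have hp1 : 1 ≤ p := hp0.trans hp
  have hp00 : 0 < p := by linarith
  have hK0 : (0 : ℝ) < K := by exact_mod_cast hK1
  have hφ1 : 1 ≤ Nat.totient K := Nat.totient_pos.2 hK1
  have hφ : (0 : ℝ) < Nat.totient K := by exact_mod_cast hφ1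
  have hφK : (Nat.totient K : ℝ) ≤ K := by exact_mod_cast Nat.totient_le K
  set SM := Real.sqrt (X / Nat.totient K * (1 + Real.log (X / K))) with hSM
  have hSM0 : 0 ≤ SM := Real.sqrt_nonneg _
  have h4 : 0 ≤ min c1 (1 / (2 * B0)) * SM := by positivity
  rcases le_or_gt (C0 * K) X with h2 | h2
  · have h5 := g1 K h2 (hXK.trans (by
      apply mul_le_mul_of_nonneg_left _ hK0.le
      exact Real.rpow_le_rpow_of_exponent_le g3 (by linarith)))
    have h6 := norm_mono_fin hp0 hp hφ1 ((range K).filter (fun A => A.Coprime K))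
      (card_red K).le (Dv X K)
    have h7 := h5.trans h6
    rw [← hSM] at h7
    set I := ∑ A ∈ (range K).filter (fun A => A.Coprime K), |Dv X K A| ^ p with hI
    have hI0 : 0 ≤ I := sum_nonneg fun A _ => by positivity
    have h8 : min c1 (1 / (2 * B0)) * SM ≤ c1 * SM := by
      gcongr
      exact min_le_left _ _
    have h9 : (min c1 (1 / (2 * B0)) * SM) ^ p ≤ 1 / Nat.totient K * I := by
      calc (min c1 (1 / (2 * B0)) * SM) ^ p ≤ ((1 / Nat.totient K * I) ^ (1 / p)) ^ p :=
            Real.rpow_le_rpow h4 (h8.trans h7) hp00.le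
        _ = 1 / Nat.totient K * I := by
            rw [← Real.rpow_mul (by positivity), one_div_mul_cancel hp00.ne', Real.rpow_one]
    calc (Nat.totient K : ℝ) * (min c1 (1 / (2 * B0)) * SM) ^ p ≤
        Nat.totient K * (1 / Nat.totient K * I) := by gcongr
      _ = I := by field_simp
  · obtain ⟨-, hlog, hS0, hKφ⟩ := h1 X ((le_max_right _ _).trans hX) K hKX h2
    have hXφ : 1 ≤ X / Nat.totient K := by
      rw [le_div_iff₀ hφ]
      linarith
    have hT : min c1 (1 / (2 * B0)) * SM ≤ X / Nat.totient K / 2 := by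
      have h3 : SM ≤ X / Nat.totient K * B0 := by
        rw [hSM, Real.sqrt_mul (by positivity)]
        have h5 : 0 < X / K := by positivity
        have h6 : Real.log (X / K) ≤ Real.log C0 := by
          apply Real.log_le_log h5
          rw [div_le_iff₀ hK0]
          exact h2.le
        have h10 : Real.sqrt (X / Nat.totient K) ≤ X / Nat.totient K := by
          rw [Real.sqrt_le_left (by linarith)]
          nlinarith
        have h11 : Real.sqrt (1 + Real.log (X / K)) ≤ B0 := by
          apply Real.sqrt_le_sqrt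
          linarith
        gcongr
      calc min c1 (1 / (2 * B0)) * SM ≤ (1 / (2 * B0)) * (X / Nat.totient K * B0) := by
            gcongr
            exact min_le_right _ _
        _ = X / Nat.totient K / 2 := by field_simp
    have h3 : (Nat.totient K : ℝ) / 2 * (X / Nat.totient K) ^ p ≤
        ∑ A ∈ (range K).filter (fun A => A.Coprime K), |Dv X K A| ^ p := by
      calc (Nat.totient K : ℝ) / 2 * (X / Nat.totient K) ^ p ≤
          ((((range K).filter (fun A => A.Coprime K)).filter
            (fun A => psiA X K A = 0)).card : ℝ) * (X / Nat.totient K) ^ p := by gcongr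
        _ = ∑ A ∈ ((range K).filter (fun A => A.Coprime K)).filter
            (fun A => psiA X K A = 0), |Dv X K A| ^ p := by
            rw [← nsmul_eq_mul, ← sum_const]
            refine sum_congr rfl fun A hA => ?_
            rw [mem_filter] at hA
            unfold Dv
            rw [hA.2, zero_sub, abs_neg, abs_of_nonneg (by positivity)]
        _ ≤ _ := sum_le_sum_of_subset_of_nonneg (filter_subset _ _) fun A _ _ => by positivity
    refine le_trans ?_ h3
    have h5 : (1 / 2 : ℝ) ^ p ≤ 1 / 2 := by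
      calc (1 / 2 : ℝ) ^ p ≤ (1 / 2 : ℝ) ^ (1 : ℝ) :=
            Real.rpow_le_rpow_of_exponent_ge (by norm_num) (by norm_num) hp1
        _ = _ := Real.rpow_one _
    calc (Nat.totient K : ℝ) * (min c1 (1 / (2 * B0)) * SM) ^ p ≤
        Nat.totient K * (X / Nat.totient K / 2) ^ p := by gcongr
      _ = Nat.totient K * ((1 / 2) ^ p * (X / Nat.totient K) ^ p) := by
          rw [← Real.mul_rpow (by norm_num) (by positivity)]
          congr 2
          ring
      _ ≤ Nat.totient K * (1 / 2 * (X / Nat.totient K) ^ p) := by gcongr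
      _ = _ := by ring

theorem ap_large2 (m : ℕ) (hm : 2 ≤ m) (δ : ℝ) (hδ : 0 < δ) :
    ∃ c X0 : ℝ, 0 < c ∧ ∀ X : ℝ, X0 ≤ X → ∀ K : ℕ, (K : ℝ) ≤ X →
      X ≤ K * X ^ (1 / (2 * (m : ℝ)) - δ) →
      Nat.totient K * (c * Real.sqrt (X / Nat.totient K * (1 + Real.log (X / K))) /
        (X / Nat.totient K * Real.log X)) ^ (2 * (m : ℝ) / (2 * m - 1)) ≤
        ((((range K).filter (fun A => A.Coprime K)).filter (fun A =>
          c * Real.sqrt (X / Nat.totient K * (1 + Real.log (X / K))) ≤
            |Dv X K A|)).card : ℝ) := by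
  have hm0 : (2 : ℝ) ≤ m := by exact_mod_cast hm
  obtain ⟨c, X0, hc, h⟩ := ap_all2 m hm δ hδ
  refine ⟨c / 4, X0, by positivity, fun X hX K hKX hXK => ?_⟩
  obtain ⟨hK1, hlog, h2⟩ := h X hX K hKX hXK
  have hp0 : 1 ≤ 2 * (m : ℝ) / (2 * m - 1) := by
    rw [one_le_div (by linarith)]
    linarith
  have hK0 : (0 : ℝ) < K := by exact_mod_cast hK1
  have hX0' : 0 < X := by linarith
  have hφ : (0 : ℝ) < Nat.totient K := by exact_mod_cast Nat.totient_pos.2 hK1
  set SM := Real.sqrt (X / Nat.totient K * (1 + Real.log (X / K))) with hSM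
  have hSM0 : 0 ≤ SM := Real.sqrt_nonneg _
  have hlog0 : 0 < Real.log X := by linarith
  have h3 := large_fin hp0 ((range K).filter (fun A => A.Coprime K))
    (card_red K).le (Dv X K) (T := c * SM)
    (Dm := 2 * (X / Nat.totient K * Real.log X)) (by positivity) (by positivity)
    (fun A _ => Dv_le hK1 hKX hlog) (h2 _ le_rfl)
  have e1 : c * SM / 2 / (2 * (X / Nat.totient K * Real.log X)) =
      c / 4 * SM / (X / Nat.totient K * Real.log X) := by
    field_simp
    ring
  rw [e1] at h3
  refine h3.trans ?_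
  have h4 : ((range K).filter (fun A => A.Coprime K)).filter (fun A => c * SM / 2 ≤ |Dv X K A|) ⊆
      ((range K).filter (fun A => A.Coprime K)).filter (fun A => c / 4 * SM ≤ |Dv X K A|) := by
    intro A hA
    rw [mem_filter] at hA ⊢
    refine ⟨hA.1, ?_⟩
    have : c / 4 * SM ≤ c * SM / 2 := by
      have : 0 ≤ c * SM := by positivity
      linarith
    exact this.trans hA.2
  exact_mod_cast card_le_card h4

end TH819.PM
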