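import Pool.Agent.TH819.PM.Low3
import Pool.Agent.TH819.PM.Empty

/-! All moments about an arbitrary centre, every modulus, over the reduced classes. -/

open Finset Filter Topology

namespace TH819.PM

open H343 H343.KF H336V TH819.PL

/-- the reduced classes -/
lemma card_red' (K : ℕ) : ((range K).filter (fun A => A.Coprime K)).card = Nat.totient K := by
  rw [Nat.totient_eq_card_coprime]
  congr 1
  apply filter_congr
  intro A _
  exact Nat.coprime_comm

/-- the prime sum over the terms coprime to `K` -/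
noncomputable def Mk (X : ℝ) (K : ℕ) : ℝ :=
  ∑ n ∈ (Icc 1 ⌊X⌋₊).filter (fun n => n.Coprime K), ArithmeticFunction.vonMangoldt n

lemma sum_psiA (X : ℝ) {k : ℕ} (hk : 1 ≤ k) :
    ∑ A ∈ (range k).filter (fun A => A.Coprime k), psiA X k A = Mk X k := by
  have hmap : ∀ n ∈ (Icc 1 ⌊X⌋₊).filter (fun n => n.Coprime k),
      n % k ∈ (range k).filter (fun A => A.Coprime k) := by
    intro n hn
    rw [mem_filter] at hn ⊢
    refine ⟨mem_range.2 (Nat.mod_lt _ hk), ?_⟩
    have := hn.2
    unfold Nat.Coprime at this ⊢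
    rw [← this]
    rw [Nat.gcd_comm n k, Nat.gcd_rec k n]
  unfold Mk
  rw [← sum_fiberwise_of_maps_to hmap]
  apply sum_congr rfl
  intro A hA
  rw [mem_filter, mem_range] at hA
  unfold psiA
  rw [filter_filter]
  have hset : (Icc 1 ⌊X⌋₊).filter (fun n => n ≡ A [MOD k]) =
      (Icc 1 ⌊X⌋₊).filter (fun n => n.Coprime k ∧ n % k = A) := by
    ext n
    simp only [mem_filter, and_congr_right_iff]
    intro _
    constructor
    · intro h
      have h1 : n % k = A := by
        have : n % k = A % k := h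
        rw [this, Nat.mod_eq_of_lt hA.1]
      refine ⟨?_, h1⟩
      have := hA.2
      rw [← h1] at this
      unfold Nat.Coprime at this ⊢
      rw [Nat.gcd_comm n k, Nat.gcd_rec k n]
      exact this
    · rintro ⟨_, h⟩
      show n % k = A % k
      rw [h, Nat.mod_eq_of_lt hA.1]
  rw [hset]

lemma Mk_nonneg (X : ℝ) (K : ℕ) : 0 ≤ Mk X K :=
  sum_nonneg fun _ _ => ArithmeticFunction.vonMangoldt_nonneg

lemma Mk_le {X : ℝ} (hX : 0 ≤ X) (K : ℕ) : Mk X K ≤ 6 * X := by
  have h1 : Mk X K ≤ Chebyshev.psi X := by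
    rw [Chebyshev.psi_eq_sum_Icc]
    refine sum_le_sum_of_subset_of_nonneg ?_ fun n _ _ => ArithmeticFunction.vonMangoldt_nonneg
    intro n hn
    rw [mem_filter, mem_Icc] at hn
    rw [mem_Icc]
    exact ⟨by omega, hn.1.2⟩
  have h2 := Chebyshev.psi_le_const_mul_self hX
  have h3 : Real.log 4 = 2 * Real.log 2 := by
    rw [show (4 : ℝ) = 2 ^ 2 by norm_num, Real.log_pow]
    push_cast
    ring
  have h4 := Real.log_two_lt_d9
  have h5 : (Real.log 4 + 4) * X ≤ 6 * X := by
    apply mul_le_mul_of_nonneg_right _ hX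
    linarith
  linarith

lemma Mk_ge : ∀ᶠ X : ℝ in atTop, ∀ K : ℕ, 1 ≤ K → (K : ℝ) ≤ X → X / 2 ≤ Mk X K := by
  obtain ⟨C, hC, hdiv⟩ := div_bound (1 / 4) (by norm_num)
  have h1 := (isLittleO_log_rpow_atTop (r := 1 / 4) (by norm_num)).bound
    (show (0 : ℝ) < 1 by norm_num)
  have h2 : ∀ᶠ X : ℝ in atTop, 20 * (C + 2) ≤ X ^ (1 / 2 : ℝ) :=
    (tendsto_rpow_atTop (by norm_num)).eventually_ge_atTop _
  filter_upwards [h1, h2, eventually_ge_atTop (16 : ℝ)] with X h3 h4 h5 K hK hKX
  have hX0 : 0 < X := by linarith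
  have hX1 : 1 ≤ X := by linarith
  have hlog : 0 ≤ Real.log X := Real.log_nonneg hX1
  rw [Real.norm_of_nonneg hlog, Real.norm_of_nonneg (by positivity), one_mul] at h3
  have hM : 1 ≤ ⌊X⌋₊ := Nat.le_floor (by exact_mod_cast hX1)
  have hK0 : (0 : ℝ) < K := by exact_mod_cast hK
  have hsp : Chebyshev.psi X ≤ Mk X K + K.divisors.card * Real.log X := by
    rw [Chebyshev.psi_eq_sum_Icc]
    have e1 : ∑ n ∈ Icc 0 ⌊X⌋₊, ArithmeticFunction.vonMangoldt n =
        ∑ n ∈ Icc 1 ⌊X⌋₊, ArithmeticFunction.vonMangoldt n := by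
      symm
      apply sum_subset
      · intro n hn
        rw [mem_Icc] at hn ⊢
        exact ⟨by omega, hn.2⟩
      · intro n hn hn2
        rw [mem_Icc] at hn hn2
        have : n = 0 := by omega
        rw [this]
        simp
    rw [e1, ← sum_filter_add_sum_filter_not (Icc 1 ⌊X⌋₊) (fun n => n.Coprime K)]
    have h6 := sum_not_coprime K ⌊X⌋₊ hK hM
    have h7 : Real.log (⌊X⌋₊ : ℕ) ≤ Real.log X :=
      Real.log_le_log (by exact_mod_cast hM) (Nat.floor_le (by linarith))
    have h8 : (K.divisors.card : ℝ) * Real.log (⌊X⌋₊ : ℕ) ≤ K.divisors.card * Real.log X := by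
      gcongr
    have h9 : Mk X K = ∑ n ∈ (Icc 1 ⌊X⌋₊).filter (fun n => n.Coprime K),
      ArithmeticFunction.vonMangoldt n := rfl
    linarith
  have hge := Chebyshev.psi_ge' hX0.le
  have hd : (K.divisors.card : ℝ) ≤ C * X ^ (1 / 4 : ℝ) := by
    refine (hdiv K hK).trans ?_
    gcongr
  have hs : X ^ (1 / 4 : ℝ) * X ^ (1 / 4 : ℝ) = X ^ (1 / 2 : ℝ) := by
    rw [← Real.rpow_add hX0]
    norm_num
  have hs2 : X ^ (1 / 2 : ℝ) * X ^ (1 / 2 : ℝ) = X := by
    rw [← Real.rpow_add hX0]
    norm_num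
  set u := X ^ (1 / 2 : ℝ) with hu
  have hu0 : 0 < u := by positivity
  have hX4 : 1 ≤ X ^ (1 / 4 : ℝ) := Real.one_le_rpow hX1 (by norm_num)
  have hlogu : Real.log X ≤ u := by
    rw [← hs]
    nlinarith
  have h10 : (K.divisors.card : ℝ) * Real.log X ≤ C * u := by
    calc (K.divisors.card : ℝ) * Real.log X ≤ (C * X ^ (1 / 4 : ℝ)) * X ^ (1 / 4 : ℝ) := by
          gcongr
      _ = C * u := by rw [← hs]; ring
  have h11 : Real.log (X + 2) ≤ 2 * u := by
    have : Real.log (X + 2) ≤ Real.log (X * X) := by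
      apply Real.log_le_log (by linarith)
      nlinarith
    rw [Real.log_mul hX0.ne' hX0.ne'] at this
    linarith
  have h12 : (C + 2) * u ≤ X / 20 := by
    have : 20 * ((C + 2) * u) ≤ X := by
      calc 20 * ((C + 2) * u) = (20 * (C + 2)) * u := by ring
        _ ≤ u * u := by gcongr
        _ = X := hs2
    linarith
  have hl2 := Real.log_two_gt_d9
  have hl2' := Real.log_two_lt_d9
  have h13 : (X - 1) * Real.log 2 ≥ 0.69 * (X - 1) := by
    have : 0 ≤ X - 1 := by linarith
    nlinarith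
  linarith

theorem ap_all3 (m : ℕ) (hm : 2 ≤ m) (δ : ℝ) (hδ : 0 < δ) :
    ∃ c X0 : ℝ, 0 < c ∧ ∀ X : ℝ, X0 ≤ X → ∀ K : ℕ, (K : ℝ) ≤ X →
      X ≤ K * X ^ (1 / (2 * (m : ℝ)) - δ) → 1 ≤ K ∧ 1 ≤ Real.log X ∧
      (∀ y p : ℝ, 2 * (m : ℝ) / (2 * m - 1) ≤ p →
      Nat.totient K * (c * Real.sqrt (X / Nat.totient K * (1 + Real.log (X / K)))) ^ p ≤
        ∑ A ∈ (range K).filter (fun A => A.Coprime K), |psiA X K A - y| ^ p) := by
  have hm0 : (2 : ℝ) ≤ m := by exact_mod_cast hm
  set δ' : ℝ := min δ (1 / (4 * (m : ℝ))) with hδ'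
  have hδ'0 : 0 < δ' := by positivity
  have hδ'1 : δ' ≤ δ := min_le_left _ _
  obtain ⟨c1, C0, hc1, hC0, hev⟩ := ap_lower3 m hm δ' hδ'0 (min_le_right _ _) 12 (by norm_num)
  obtain ⟨X0, hX0⟩ := eventually_atTop.1 (hev.and
    ((Real.tendsto_log_atTop.eventually_ge_atTop 1).and
      ((eventually_ge_atTop (1 : ℝ)).and Mk_ge)))
  obtain ⟨X1, h1⟩ := ext C0 hC0
  refine ⟨min c1 (1 / 8), max X0 X1, by positivity, fun X hX K hKX hXK => ?_⟩
  obtain ⟨g1, g2, g3, g4⟩ := hX0 X ((le_max_left _ _).trans hX)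
  have hX0' : 0 < X := by linarith
  have hK1 : 1 ≤ K := by
    rcases Nat.eq_zero_or_pos K with h | h
    · rw [h, Nat.cast_zero, zero_mul] at hXK
      linarith
    · exact h
  refine ⟨hK1, g2, fun y p hp => ?_⟩
  have hp0 : 1 ≤ 2 * (m : ℝ) / (2 * m - 1) := by
    rw [one_le_div (by linarith)]
    linarith
  have hp1 : 1 ≤ p := hp0.trans hp
  have hp00 : 0 < p := by linarith
  have hK0 : (0 : ℝ) < K := by exact_mod_cast hK1
  have hφ1 : 1 ≤ Nat.totient K := Nat.totient_pos.2 hK1
  have hφK : (Nat.totient K : ℝ) ≤ K := by exact_mod_cast Nat.totient_le K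
  set S := (range K).filter (fun A => A.Coprime K) with hS
  have hScard : S.card = Nat.totient K := card_red' K
  have hφ : (0 : ℝ) < Nat.totient K := by exact_mod_cast hφ1
  set φ : ℝ := (Nat.totient K : ℝ) with hφdef
  set SM := Real.sqrt (X / φ * (1 + Real.log (X / K))) with hSM
  have hSM0 : 0 ≤ SM := Real.sqrt_nonneg _
  set c := min c1 (1 / 8) with hc
  have hc0 : 0 < c := by positivity
  have hcSM : 0 ≤ c * SM := by positivity
  have hXφ : 1 ≤ X / φ := by
    rw [le_div_iff₀ hφ]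
    linarith
  -- `SM ≤ X / φ`
  have hSMle : SM ≤ X / φ := by
    rw [hSM, Real.sqrt_le_left (by linarith), sq]
    apply mul_le_mul_of_nonneg_left _ (by linarith)
    have h5 : 0 < X / K := by positivity
    have h6 := Real.log_le_sub_one_of_pos h5
    have h7 : X / K ≤ X / φ := by gcongr
    linarith
  have hcX : c * SM ≤ X / φ / 8 := by
    calc c * SM ≤ 1 / 8 * (X / φ) := by
          gcongr
          exact min_le_right _ _
      _ = _ := by ring
  -- from the mean
  have hmean : ∀ {t : ℝ}, c * SM ≤ t → t ≤ (1 / φ) * ∑ A ∈ S, |psiA X K A - y| →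
      φ * (c * SM) ^ p ≤ ∑ A ∈ S, |psiA X K A - y| ^ p := by
    intro t ht1 ht2
    have h6 := norm_mono_fin le_rfl hp1 hφ1 S hScard.le (fun A => psiA X K A - y)
    simp only [Real.rpow_one, div_one] at h6
    have h7 := (ht1.trans ht2).trans h6
    rw [← hφdef] at h7
    set I := ∑ A ∈ S, |psiA X K A - y| ^ p with hI
    have hI0 : 0 ≤ I := sum_nonneg fun A _ => by positivity
    have h9 : (c * SM) ^ p ≤ 1 / φ * I := by
      calc (c * SM) ^ p ≤ ((1 / φ * I) ^ (1 / p)) ^ p :=
            Real.rpow_le_rpow hcSM h7 hp00.le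
        _ = 1 / φ * I := by
            rw [← Real.rpow_mul (by positivity), one_div_mul_cancel hp00.ne', Real.rpow_one]
    calc φ * (c * SM) ^ p ≤ φ * (1 / φ * I) := by gcongr
      _ = I := by field_simp
  -- from the critical exponent
  have hcrit : ∀ y : ℝ, c1 * SM ≤ ((1 / φ) * ∑ A ∈ S,
      |psiA X K A - y| ^ (2 * (m : ℝ) / (2 * m - 1))) ^ (1 / (2 * (m : ℝ) / (2 * m - 1))) →
      φ * (c * SM) ^ p ≤ ∑ A ∈ S, |psiA X K A - y| ^ p := by
    intro y h5
    have h6 := norm_mono_fin hp0 hp hφ1 S hScard.le (fun A => psiA X K A - y)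
    rw [← hφdef] at h6
    have h7 := h5.trans h6
    set I := ∑ A ∈ S, |psiA X K A - y| ^ p with hI
    have hI0 : 0 ≤ I := sum_nonneg fun A _ => by positivity
    have h8 : c * SM ≤ c1 * SM := by
      gcongr
      exact min_le_left _ _
    have h9 : (c * SM) ^ p ≤ 1 / φ * I := by
      calc (c * SM) ^ p ≤ ((1 / φ * I) ^ (1 / p)) ^ p :=
            Real.rpow_le_rpow hcSM (h8.trans h7) hp00.le
        _ = 1 / φ * I := by
            rw [← Real.rpow_mul (by positivity), one_div_mul_cancel hp00.ne', Real.rpow_one]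
    calc φ * (c * SM) ^ p ≤ φ * (1 / φ * I) := by gcongr
      _ = I := by field_simp
  have hsumψ : ∑ A ∈ S, psiA X K A = Mk X K := sum_psiA X hK1
  have hsumy : ∑ A ∈ S, y = φ * y := by
    rw [sum_const, nsmul_eq_mul, hScard]
  have hlow1 : |Mk X K - φ * y| ≤ ∑ A ∈ S, |psiA X K A - y| := by
    rw [← hsumψ, ← hsumy, ← sum_sub_distrib]
    exact abs_sum_le_sum_abs _ _
  rcases le_or_gt (C0 * K) X with h2 | h2
  · rcases lt_or_ge y 0 with hy | hy
    · -- compare with centre `0`
      have h3 : φ * (c * SM) ^ p ≤ ∑ A ∈ S, |psiA X K A - 0| ^ p := by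
        apply hcrit 0
        exact g1 K h2 (hXK.trans (by
          apply mul_le_mul_of_nonneg_left _ hK0.le
          exact Real.rpow_le_rpow_of_exponent_le g3 (by linarith))) 0 le_rfl (by
            rw [zero_mul]
            positivity)
      refine h3.trans (sum_le_sum fun A _ => ?_)
      have h4 := psiA_nonneg X K A
      apply Real.rpow_le_rpow (abs_nonneg _) _ hp00.le
      rw [sub_zero, abs_of_nonneg h4, abs_of_nonneg (by linarith)]
      linarith
    · rcases le_or_gt (y * φ) (12 * X) with hy2 | hy2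
      · apply hcrit y
        exact g1 K h2 (hXK.trans (by
          apply mul_le_mul_of_nonneg_left _ hK0.le
          exact Real.rpow_le_rpow_of_exponent_le g3 (by linarith))) y hy hy2
      · refine hmean (t := X / φ) (by linarith) ?_
        have h3 := Mk_le hX0'.le K
        have h4 : X ≤ ∑ A ∈ S, |psiA X K A - y| := by
          refine le_trans ?_ hlow1
          rw [abs_sub_comm]
          refine le_trans ?_ (le_abs_self _)
          linarith
        calc X / φ = 1 / φ * X := by ring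
          _ ≤ _ := by gcongr
  · obtain ⟨-, hlog, hS0, hKφ⟩ := h1 X ((le_max_right _ _).trans hX) K hKX h2
    rw [← hS, ← hφdef] at hS0
    rcases le_or_gt (X / φ / 4) |y| with hy | hy
    · have h3 : φ / 2 * |y| ^ p ≤ ∑ A ∈ S, |psiA X K A - y| ^ p := by
        calc φ / 2 * |y| ^ p ≤ ((S.filter (fun A => psiA X K A = 0)).card : ℝ) * |y| ^ p := by
              gcongr
          _ = ∑ A ∈ S.filter (fun A => psiA X K A = 0), |psiA X K A - y| ^ p := by
              rw [← nsmul_eq_mul, ← sum_const]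
              refine sum_congr rfl fun A hA => ?_
              rw [mem_filter] at hA
              rw [hA.2, zero_sub, abs_neg]
          _ ≤ _ := sum_le_sum_of_subset_of_nonneg (filter_subset _ _) fun A _ _ => by positivity
      refine le_trans ?_ h3
      have h5 : (1 / 2 : ℝ) ^ p ≤ 1 / 2 := by
        calc (1 / 2 : ℝ) ^ p ≤ (1 / 2 : ℝ) ^ (1 : ℝ) :=
              Real.rpow_le_rpow_of_exponent_ge (by norm_num) (by norm_num) hp1
          _ = _ := Real.rpow_one _
      calc φ * (c * SM) ^ p ≤ φ * (1 / 2 * |y|) ^ p := by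
            have : c * SM ≤ 1 / 2 * |y| := by linarith
            gcongr
        _ = φ * ((1 / 2) ^ p * |y| ^ p) := by
            rw [Real.mul_rpow (by norm_num) (abs_nonneg y)]
        _ ≤ φ * (1 / 2 * |y| ^ p) := by gcongr
        _ = _ := by ring
    · refine hmean (t := X / φ / 4) (by linarith) ?_
      have h3 := g4 K hK1 hKX
      have h4 : X / 4 ≤ ∑ A ∈ S, |psiA X K A - y| := by
        refine le_trans ?_ hlow1
        refine le_trans ?_ (le_abs_self _)
        have h5 : φ * y ≤ X / 4 := by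
          calc φ * y ≤ φ * |y| := by
                gcongr
                exact le_abs_self y
            _ ≤ φ * (X / φ / 4) := by gcongr
            _ = X / 4 := by field_simp
        linarith
      calc X / φ / 4 = 1 / φ * (X / 4) := by ring
        _ ≤ _ := by gcongr

end TH819.PM
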