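import Pool.Agent.TH819.PM.All3

/-! Large errors of both signs, every modulus. -/

open Finset Filter Topology

namespace TH819.PM

open H343 H336V TH819.PL

/-- both signs from the first moment -/
lemma both_fin {S : Finset ℕ} {D : ℕ → ℝ} {φ U Dm : ℝ} (hφ : (S.card : ℝ) ≤ φ) (hDm : 0 < Dm)
    (hD : ∀ A ∈ S, |D A| ≤ Dm) (hsum : ∑ A ∈ S, D A = 0) (hU : 0 ≤ U)
    (h : φ * U ≤ ∑ A ∈ S, |D A|) :
    φ * (U / 4 / Dm) ≤ ((S.filter (fun A => U / 4 ≤ D A)).card : ℝ) ∧
    φ * (U / 4 / Dm) ≤ ((S.filter (fun A => D A ≤ -(U / 4))).card : ℝ) := by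
  have hφ0 : 0 ≤ φ := le_trans (by positivity) hφ
  -- general one-sided statement
  have key : ∀ E : ℕ → ℝ, (∀ A ∈ S, |E A| ≤ Dm) → ∑ A ∈ S, E A = 0 → φ * U ≤ ∑ A ∈ S, |E A| →
      φ * (U / 4 / Dm) ≤ ((S.filter (fun A => U / 4 ≤ E A)).card : ℝ) := by
    intro E hE hE0 hEU
    have h1 : ∀ A ∈ S, |E A| + E A ≤ 2 * (U / 4) + if U / 4 ≤ E A then 2 * Dm else 0 := by
      intro A hA
      have h2 := abs_le.1 (hE A hA)
      split_ifs with h3
      · have h4 : 0 ≤ E A := le_trans (by positivity) h3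
        rw [abs_of_nonneg h4]
        linarith
      · push Not at h3
        rw [add_zero]
        rcases le_or_gt 0 (E A) with h4 | h4
        · rw [abs_of_nonneg h4]
          linarith
        · rw [abs_of_neg h4]
          linarith
    have h2 := sum_le_sum h1
    rw [sum_add_distrib, hE0, add_zero, sum_add_distrib, sum_const, nsmul_eq_mul, ← sum_filter,
      sum_const, nsmul_eq_mul] at h2
    have h3 : (S.card : ℝ) * (2 * (U / 4)) ≤ φ * (2 * (U / 4)) := by gcongr
    have h4 : φ * (U / 4) ≤ ((S.filter (fun A => U / 4 ≤ E A)).card : ℝ) * Dm := by linarith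
    rw [← mul_div_assoc, div_le_iff₀ hDm]
    exact h4
  refine ⟨key D hD hsum h, ?_⟩
  have h5 := key (fun A => -D A) (fun A hA => by rw [abs_neg]; exact hD A hA)
    (by rw [sum_neg_distrib, hsum, neg_zero]) (by simpa only [abs_neg] using h)
  refine h5.trans ?_
  have h6 : S.filter (fun A => U / 4 ≤ -D A) ⊆ S.filter (fun A => D A ≤ -(U / 4)) := by
    intro A hA
    rw [mem_filter] at hA ⊢
    exact ⟨hA.1, by linarith [hA.2]⟩
  exact_mod_cast card_le_card h6

/-- first moment from a higher one -/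
lemma first_mom {S : Finset ℕ} {D : ℕ → ℝ} {φ T Dm p : ℝ} (hp : 1 < p) (hDm : 0 < Dm)
    (hD : ∀ A ∈ S, |D A| ≤ Dm) (hT : 0 ≤ T)
    (h : φ * T ^ p ≤ ∑ A ∈ S, |D A| ^ p) :
    φ * (T * (T / Dm) ^ (p - 1)) ≤ ∑ A ∈ S, |D A| := by
  have hDp : 0 < Dm ^ (p - 1) := by positivity
  have h1 : ∑ A ∈ S, |D A| ^ p ≤ (∑ A ∈ S, |D A|) * Dm ^ (p - 1) := by
    rw [sum_mul]
    refine sum_le_sum fun A hA => ?_
    rcases (abs_nonneg (D A)).eq_or_lt with h2 | h2
    · rw [← h2, Real.zero_rpow (by linarith), zero_mul]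
    · calc |D A| ^ p = |D A| ^ (1 + (p - 1)) := by congr 1; ring
        _ = |D A| * |D A| ^ (p - 1) := by rw [Real.rpow_add h2, Real.rpow_one]
        _ ≤ |D A| * Dm ^ (p - 1) := by
            have := Real.rpow_le_rpow (abs_nonneg _) (hD A hA) (show 0 ≤ p - 1 by linarith)
            gcongr
  have h2 : T ^ p = T * T ^ (p - 1) := by
    rcases hT.eq_or_lt with h3 | h3
    · rw [← h3, Real.zero_rpow (by linarith), zero_mul]
    · calc T ^ p = T ^ (1 + (p - 1)) := by congr 1; ring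
        _ = T * T ^ (p - 1) := by rw [Real.rpow_add h3, Real.rpow_one]
  rw [Real.div_rpow hT hDm.le]
  have h3 : φ * (T * T ^ (p - 1)) ≤ (∑ A ∈ S, |D A|) * Dm ^ (p - 1) := by
    rw [← h2]
    exact h.trans h1
  calc φ * (T * (T ^ (p - 1) / Dm ^ (p - 1))) = (φ * (T * T ^ (p - 1))) / Dm ^ (p - 1) := by ring
    _ ≤ ∑ A ∈ S, |D A| := by
        rw [div_le_iff₀ hDp]
        exact h3

theorem ap_both (m : ℕ) (hm : 2 ≤ m) (δ : ℝ) (hδ : 0 < δ) :
    ∃ c X0 : ℝ, 0 < c ∧ ∀ X : ℝ, X0 ≤ X → ∀ K : ℕ, (K : ℝ) ≤ X →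
      X ≤ K * X ^ (1 / (2 * (m : ℝ)) - δ) → ∀ T U : ℝ,
      T = Real.sqrt (X / Nat.totient K * (1 + Real.log (X / K))) →
      U = c * T * (T / (X / Nat.totient K * Real.log X)) ^ (1 / (2 * (m : ℝ) - 1)) →
      Nat.totient K * (U / (X / Nat.totient K * Real.log X)) ≤
        ((((range K).filter (fun A => A.Coprime K)).filter (fun A =>
          Mk X K / Nat.totient K + U ≤ psiA X K A)).card : ℝ) ∧
      Nat.totient K * (U / (X / Nat.totient K * Real.log X)) ≤
        ((((range K).filter (fun A => A.Coprime K)).filter (fun A =>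
          psiA X K A ≤ Mk X K / Nat.totient K - U)).card : ℝ) := by
  have hm0 : (2 : ℝ) ≤ m := by exact_mod_cast hm
  obtain ⟨c1, X0, hc1, h⟩ := ap_all3 m hm δ hδ
  set r : ℝ := 1 / (2 * (m : ℝ) - 1) with hr
  have hr0 : 0 < r := by
    have : 0 < 2 * (m : ℝ) - 1 := by linarith
    positivity
  refine ⟨c1 * (c1 / 6) ^ r / 24, X0, by positivity, fun X hX K hKX hXK T U hT hU => ?_⟩
  obtain ⟨hK1, hlog, h2⟩ := h X hX K hKX hXK
  have hK0 : (0 : ℝ) < K := by exact_mod_cast hK1
  have hX0' : 0 < X := by linarith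
  have hφ : (0 : ℝ) < Nat.totient K := by exact_mod_cast Nat.totient_pos.2 hK1
  have hφK : (Nat.totient K : ℝ) ≤ K := by exact_mod_cast Nat.totient_le K
  have hlog0 : 0 < Real.log X := by linarith
  have hT0 : 0 ≤ T := by rw [hT]; exact Real.sqrt_nonneg _
  set φ : ℝ := (Nat.totient K : ℝ) with hφdef
  set S := (range K).filter (fun A => A.Coprime K) with hS
  have hScard : S.card = Nat.totient K := card_red' K
  set y := Mk X K / φ with hy
  set D : ℕ → ℝ := fun A => psiA X K A - y with hDdef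
  set B : ℝ := X / φ * Real.log X with hB
  have hB0 : 0 < B := by positivity
  have hDm : 0 < 6 * B := by positivity
  have hy0 : 0 ≤ y := div_nonneg (Mk_nonneg X K) hφ.le
  have hyle : y ≤ 6 * B := by
    rw [hy, div_le_iff₀ hφ]
    calc Mk X K ≤ 6 * X := Mk_le hX0'.le K
      _ ≤ 6 * (X * Real.log X) := by nlinarith
      _ = 6 * B * φ := by rw [hB]; field_simp
  have hDb : ∀ A ∈ S, |D A| ≤ 6 * B := by
    intro A _
    have h3 := psiA_nonneg X K A
    have h4 : psiA X K A ≤ 6 * B := by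
      refine (psiA_le hK1 hKX).trans ?_
      have h5 : X / K * Real.log X ≤ B := by
        rw [hB]
        gcongr
      linarith
    rw [hDdef, abs_le]
    constructor <;> simp only <;> linarith
  have hsum : ∑ A ∈ S, D A = 0 := by
    rw [hDdef, sum_sub_distrib, sum_psiA X hK1, sum_const, nsmul_eq_mul, hScard, hy]
    field_simp
    ring
  have hp1 : 1 < 2 * (m : ℝ) / (2 * m - 1) := by
    rw [one_lt_div (by linarith)]
    linarith
  have hpr : 2 * (m : ℝ) / (2 * m - 1) - 1 = r := by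
    rw [hr]
    have : 2 * (m : ℝ) - 1 ≠ 0 := by linarith
    field_simp
    ring
  have hmo := h2 y _ le_rfl
  rw [← hT] at hmo
  have hc1T : 0 ≤ c1 * T := by positivity
  have h5 := first_mom hp1 hDm hDb hc1T hmo
  rw [hpr] at h5
  set U1 : ℝ := c1 * T * (c1 * T / (6 * B)) ^ r with hU1
  have hU10 : 0 ≤ U1 := by positivity
  have hU24 : U1 / 24 = U := by
    rw [hU1, hU]
    have e1 : c1 * T / (6 * B) = (c1 / 6) * (T / B) := by
      field_simp
    rw [e1, Real.mul_rpow (by positivity) (by positivity)]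
    ring
  have h6 := both_fin (by rw [hScard]) hDm hDb hsum hU10 h5
  have e2 : U1 / 4 / (6 * B) = U / B := by
    rw [← hU24]
    field_simp
    ring
  rw [e2] at h6
  have hUle : U ≤ U1 / 4 := by
    rw [← hU24]
    linarith
  constructor
  · refine h6.1.trans ?_
    have h7 : S.filter (fun A => U1 / 4 ≤ D A) ⊆ S.filter (fun A => y + U ≤ psiA X K A) := by
      intro A hA
      rw [mem_filter] at hA ⊢
      refine ⟨hA.1, ?_⟩
      have h8 : U1 / 4 ≤ psiA X K A - y := hA.2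
      linarith
    exact_mod_cast card_le_card h7
  · refine h6.2.trans ?_
    have h7 : S.filter (fun A => D A ≤ -(U1 / 4)) ⊆ S.filter (fun A => psiA X K A ≤ y - U) := by
      intro A hA
      rw [mem_filter] at hA ⊢
      refine ⟨hA.1, ?_⟩
      have h8 : psiA X K A - y ≤ -(U1 / 4) := hA.2
      linarith
    exact_mod_cast card_le_card h7

end TH819.PM
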