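import Mathlib

/-! Final algebra. -/

open Finset

namespace TH819.PM

/-- final algebra -/
lemma fin_alg {k : ℕ} (hk : 2 ≤ k) {X H C4 LW κ a1 I : ℝ} (hX : 0 < X) (hH : 0 < H)
    (hC4 : 0 < C4) (hLW : 0 < LW) (hκ : 0 < κ) (hI : 0 ≤ I)
    (h : a1 * H * X * LW ≤ I ^ (1 / (2 * (k : ℝ) / (2 * k - 1))) *
      (X * H ^ (2 * k) * (C4 * (LW * (κ / H)) ^ k)) ^ (1 / (2 * (k : ℝ)))) :
    a1 / (C4 ^ (1 / (2 * (k : ℝ))) * Real.sqrt κ) * Real.sqrt (H * LW) ≤
      ((1 / X) * I) ^ (1 / (2 * (k : ℝ) / (2 * k - 1))) := by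
  have hk0 : (2 : ℝ) ≤ k := by exact_mod_cast hk
  have h2k : (0 : ℝ) < 2 * k := by linarith
  set Z := LW * (κ / H) with hZ
  have hZ0 : 0 < Z := by positivity
  have hpinv : 1 / (2 * (k : ℝ) / (2 * k - 1)) = 1 - 1 / (2 * (k : ℝ)) := by
    have : (2 * (k : ℝ) - 1) ≠ 0 := by linarith
    field_simp
  have e1 : (X * H ^ (2 * k) * (C4 * Z ^ k)) ^ (1 / (2 * (k : ℝ))) =
      X ^ (1 / (2 * (k : ℝ))) * H * (C4 ^ (1 / (2 * (k : ℝ))) * Real.sqrt Z) := by
    rw [Real.mul_rpow (by positivity) (by positivity), Real.mul_rpow (by positivity)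
      (by positivity), Real.mul_rpow (by positivity) (by positivity)]
    have h1 : (H ^ (2 * k)) ^ (1 / (2 * (k : ℝ))) = H := by
      rw [← Real.rpow_natCast, ← Real.rpow_mul hH.le]
      have : ((2 * k : ℕ) : ℝ) * (1 / (2 * (k : ℝ))) = 1 := by
        push_cast
        field_simp
      rw [this, Real.rpow_one]
    have h2 : (Z ^ k) ^ (1 / (2 * (k : ℝ))) = Real.sqrt Z := by
      rw [← Real.rpow_natCast, ← Real.rpow_mul hZ0.le, Real.sqrt_eq_rpow]
      congr 1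
      field_simp
    rw [h1, h2]
  have e2 : ((1 / X) * I) ^ (1 / (2 * (k : ℝ) / (2 * k - 1))) =
      X ^ (1 / (2 * (k : ℝ))) / X * I ^ (1 / (2 * (k : ℝ) / (2 * k - 1))) := by
    rw [Real.mul_rpow (by positivity) hI, hpinv, one_div X, Real.inv_rpow hX.le,
      Real.rpow_sub hX, Real.rpow_one]
    congr 1
    rw [inv_div]
  rw [e1] at h
  rw [e2]
  set CC := C4 ^ (1 / (2 * (k : ℝ))) with hCC
  have hCC0 : 0 < CC := by positivity
  set XX := X ^ (1 / (2 * (k : ℝ))) with hXX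
  have hXX0 : 0 < XX := by positivity
  set J := I ^ (1 / (2 * (k : ℝ) / (2 * k - 1))) with hJ
  have hsZ : 0 < Real.sqrt Z := Real.sqrt_pos.2 hZ0
  have hsκ : 0 < Real.sqrt κ := Real.sqrt_pos.2 hκ
  have e3 : Real.sqrt (H * LW) * Real.sqrt Z = LW * Real.sqrt κ := by
    rw [← Real.sqrt_mul (by positivity), hZ]
    have : H * LW * (LW * (κ / H)) = LW ^ 2 * κ := by field_simp
    rw [this, Real.sqrt_mul (by positivity), Real.sqrt_sq hLW.le]
  have e4 : a1 / (CC * Real.sqrt κ) * Real.sqrt (H * LW) = (a1 * H * X * LW) /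
      (X * H * CC * Real.sqrt Z) := by
    rw [div_mul_eq_mul_div, div_eq_div_iff (by positivity) (by positivity)]
    calc a1 * Real.sqrt (H * LW) * (X * H * CC * Real.sqrt Z) =
        a1 * X * H * CC * (Real.sqrt (H * LW) * Real.sqrt Z) := by ring
      _ = a1 * X * H * CC * (LW * Real.sqrt κ) := by rw [e3]
      _ = _ := by ring
  rw [e4, div_le_iff₀ (by positivity)]
  refine h.trans (le_of_eq ?_)
  field_simp

end TH819.PM
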