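import Pool.Agent.H343R2.Key

/-! A test function. -/

open MeasureTheory

namespace TH819.PM

open H343

theorem test_pm : ∃ (B : ℝ) (lam : ℝ → ℝ), 1 ≤ B ∧ Test B lam ∧ (∀ v, 0 ≤ lam v) ∧
    (∀ v, lam v ≤ 1) ∧ 0 < ∫ v, lam v * Real.sinc (Real.pi * Real.exp v) * Real.exp v := by
  have hpi := Real.pi_pos
  let bump : ContDiffBump (-1 : ℝ) := ⟨1 / 4, 1 / 2, by norm_num, by norm_num⟩
  have hbOut : bump.rOut = 1 / 2 := rfl
  have hzero : ∀ v : ℝ, 1 / 2 ≤ |v + 1| → bump v = 0 := fun v hv => by
    apply bump.zero_of_le_dist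
    rw [hbOut, Real.dist_eq, sub_neg_eq_add]
    exact hv
  have hT : Test 2 (fun v => bump v) := by
    refine ⟨bump.contDiff, fun v hv => hzero v ?_⟩
    rcases le_abs.1 hv with h | h
    · exact le_abs.2 (Or.inl (by linarith))
    · exact le_abs.2 (Or.inr (by linarith))
  refine ⟨2, fun v => bump v, by norm_num, hT, fun v => bump.nonneg, fun v => bump.le_one, ?_⟩
  have hc : Continuous (fun v : ℝ => bump v * Real.sinc (Real.pi * Real.exp v) * Real.exp v) :=
    (bump.continuous.mul (Real.continuous_sinc.comp (by fun_prop))).mul Real.continuous_exp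
  have hs : HasCompactSupport (fun v : ℝ => bump v * Real.sinc (Real.pi * Real.exp v) *
      Real.exp v) := by
    have : (fun v : ℝ => bump v * Real.sinc (Real.pi * Real.exp v) * Real.exp v) =
        fun v => bump v * (Real.sinc (Real.pi * Real.exp v) * Real.exp v) := by
      ext v; ring
    rw [this]
    exact bump.hasCompactSupport.mul_right
  have hsinc : ∀ v : ℝ, v < 0 → 0 < Real.sinc (Real.pi * Real.exp v) := by
    intro v hv
    have h0 : 0 < Real.pi * Real.exp v := by positivity
    rw [Real.sinc_of_ne_zero h0.ne']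
    apply div_pos _ h0
    apply Real.sin_pos_of_pos_of_lt_pi h0
    have : Real.exp v < 1 := by
      rw [← Real.exp_zero]
      exact Real.exp_lt_exp.2 hv
    nlinarith
  have hnn : 0 ≤ (fun v : ℝ => bump v * Real.sinc (Real.pi * Real.exp v) * Real.exp v) := by
    intro v
    simp only [Pi.zero_apply]
    rcases lt_or_ge v 0 with h | h
    · have := hsinc v h
      have := bump.nonneg (x := v)
      positivity
    · have : bump v = 0 := hzero v (le_abs.2 (Or.inl (by linarith)))
      rw [this]
      simp
  refine hc.integral_pos_of_hasCompactSupport_nonneg_nonzero hs hnn (x := (-1 : ℝ)) ?_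
  have h1 : bump (-1 : ℝ) = 1 := by
    apply bump.one_of_mem_closedBall
    exact Metric.mem_closedBall_self bump.rIn_pos.le
  have h2 := hsinc (-1) (by norm_num)
  show bump (-1 : ℝ) * Real.sinc (Real.pi * Real.exp (-1)) * Real.exp (-1) ≠ 0
  rw [h1]
  have := Real.exp_pos (-1)
  positivity

end TH819.PM
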