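import Pool.Agent.TH819.PM.Sel
import Pool.Agent.TH819.PM.PairS
import Pool.Agent.TH819.PM.TestF
import Pool.Agent.TH819.PL.Par
import Pool.Agent.TH819.PM.FinAlg

/-! The lower bound for the moments over the residue classes: assembly. -/

open Finset Filter Topology

namespace TH819.PM

open H343 H343.KF H336V TH819.PL

lemma ex_nat' (n : ℕ) : ex (n : ℝ) = 1 := by
  have h := ex_int n
  rw [Int.cast_natCast] at h
  exact h

lemma ex_mod (k n b : ℕ) (hk : 1 ≤ k) :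
    ex ((n : ℝ) * (b : ℝ) / k) = ex (((n % k : ℕ) : ℝ) * (b : ℝ) / k) := by
  have hk0 : (k : ℝ) ≠ 0 := by
    have : (0 : ℝ) < k := by exact_mod_cast hk
    exact this.ne'
  have h := Nat.div_add_mod n k
  have h1 : (n : ℝ) * (b : ℝ) / k = ((n / k * b : ℕ) : ℝ) + ((n % k : ℕ) : ℝ) * (b : ℝ) / k := by
    have h2 : (n : ℝ) = (k : ℝ) * ((n / k : ℕ) : ℝ) + ((n % k : ℕ) : ℝ) := by exact_mod_cast h.symm
    rw [h2]
    push_cast
    field_simp
  rw [h1, ex_add', ex_nat', one_mul]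

lemma FW_mod (lam : ℝ → ℝ) (Y : ℝ) (k : ℕ) (W : Finset ℕ) (N n : ℕ) (hk : 1 ≤ k) :
    FW lam Y k W N n = FW lam Y k W N (n % k) := by
  unfold FW
  apply sum_congr rfl
  intro q _
  apply sum_congr rfl
  intro a _
  rw [ex_mod k n _ hk]

lemma pair_eqW (lam : ℝ → ℝ) (X Y : ℝ) (k : ℕ) (W : Finset ℕ) (N : ℕ) (hk : 1 ≤ k) :
    ∑ A ∈ (range k).filter (fun A => A.Coprime k), (psiA X k A : ℂ) * FW lam Y k W N A =
      ∑ n ∈ (Icc 1 ⌊X⌋₊).filter (fun n => n.Coprime k),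
        (ArithmeticFunction.vonMangoldt n : ℂ) * FW lam Y k W N n := by
  have hmap : ∀ n ∈ (Icc 1 ⌊X⌋₊).filter (fun n => n.Coprime k),
      n % k ∈ (range k).filter (fun A => A.Coprime k) := by
    intro n hn
    rw [mem_filter] at hn ⊢
    refine ⟨mem_range.2 (Nat.mod_lt _ hk), ?_⟩
    have := hn.2
    unfold Nat.Coprime at this ⊢
    rw [← this]
    rw [Nat.gcd_comm n k, Nat.gcd_rec k n]
  rw [← sum_fiberwise_of_maps_to hmap]
  apply sum_congr rfl
  intro A hA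
  rw [mem_filter, mem_range] at hA
  unfold psiA
  push_cast
  rw [sum_mul, filter_filter]
  have hset : (Icc 1 ⌊X⌋₊).filter (fun n => n ≡ A [MOD k]) =
      (Icc 1 ⌊X⌋₊).filter (fun n => n.Coprime k ∧ n % k = A) := by
    ext n
    simp only [mem_filter, and_congr_right_iff]
    intro _
    constructor
    · intro h
      have h1 : n % k = A := by
        have : n % k = A % k := h
        rw [this, Nat.mod_eq_of_lt hA.1]
      refine ⟨?_, h1⟩
      have := hA.2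
      rw [← h1] at this
      unfold Nat.Coprime at this ⊢
      rw [Nat.gcd_comm n k, Nat.gcd_rec k n]
      exact this
    · rintro ⟨_, h⟩
      show n % k = A % k
      rw [h, Nat.mod_eq_of_lt hA.1]
  rw [hset]
  apply sum_congr rfl
  intro n hn
  rw [mem_filter] at hn
  rw [FW_mod lam Y k W N n hk, hn.2.2]

/-- the deviation -/
noncomputable def Dv (X : ℝ) (k A : ℕ) : ℝ := psiA X k A - X / Nat.totient k

lemma dev_abs {S : Finset ℕ} {F : ℕ → ℂ} {ψ D : ℕ → ℝ} {x a b : ℝ} {Z : ℂ} (hx : 0 ≤ x)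
    (hD : ∀ A, D A = ψ A - x) (hZ : ∑ A ∈ S, (ψ A : ℂ) * F A = Z) (h1 : a ≤ Z.re)
    (h2 : ‖∑ A ∈ S, F A‖ ≤ b) : a - x * b ≤ ∑ A ∈ S, |D A| * ‖F A‖ := by
  have h3 : ∑ A ∈ S, (D A : ℂ) * F A = Z - (x : ℂ) * ∑ A ∈ S, F A := by
    rw [← hZ, mul_sum, ← sum_sub_distrib]
    refine sum_congr rfl fun A _ => ?_
    rw [hD]
    push_cast
    ring
  have h4 : ‖∑ A ∈ S, (D A : ℂ) * F A‖ ≤ ∑ A ∈ S, |D A| * ‖F A‖ := by
    refine (norm_sum_le _ _).trans (le_of_eq ?_)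
    refine sum_congr rfl fun A _ => ?_
    rw [norm_mul, Complex.norm_real, Real.norm_eq_abs]
  refine le_trans ?_ ((Complex.re_le_norm _).trans h4)
  rw [h3, Complex.sub_re, Complex.re_ofReal_mul]
  have h5 : (∑ A ∈ S, F A).re ≤ b := (Complex.re_le_norm _).trans h2
  have h6 : x * (∑ A ∈ S, F A).re ≤ x * b := mul_le_mul_of_nonneg_left h5 hx
  linarith

/-- scalar product with the deviations -/
lemma dev_pair (lam : ℝ → ℝ) (X Y : ℝ) (k : ℕ) (W : Finset ℕ) (N : ℕ) (hk : 1 ≤ k) (hX : 0 < X)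
    {a b : ℝ}
    (h1 : a ≤ (∑ n ∈ (Icc 1 ⌊X⌋₊).filter (fun n => n.Coprime k),
        (ArithmeticFunction.vonMangoldt n : ℂ) * FW lam Y k W N n).re)
    (h2 : ‖∑ n ∈ (range k).filter (fun n => n.Coprime k), FW lam Y k W N n‖ ≤ b) :
    a - X / Nat.totient k * b ≤
      ∑ A ∈ (range k).filter (fun A => A.Coprime k), |Dv X k A| * ‖FW lam Y k W N A‖ :=
  dev_abs (S := (range k).filter (fun A => A.Coprime k)) (F := fun A => FW lam Y k W N A)
    (ψ := fun A => psiA X k A) (D := fun A => Dv X k A) (by positivity) (fun _ => rfl)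
    (pair_eqW lam X Y k W N hk) h1 h2

/-- Hölder with the scaled test vector -/
lemma holder_fin {m : ℕ} (hm : 2 ≤ m) (S : Finset ℕ) (D G : ℕ → ℝ) (hG : ∀ A, 0 ≤ G A) :
    ∑ A ∈ S, |D A| * G A ≤
      (∑ A ∈ S, |D A| ^ (2 * (m : ℝ) / (2 * m - 1))) ^ (1 / (2 * (m : ℝ) / (2 * m - 1))) *
        (∑ A ∈ S, G A ^ (2 * m)) ^ (1 / (2 * (m : ℝ))) := by
  have hm0 : (2 : ℝ) ≤ m := by exact_mod_cast hm
  have hpq : (2 * (m : ℝ) / (2 * m - 1)).HolderConjugate (2 * (m : ℝ)) := by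
    rw [Real.holderConjugate_iff]
    refine ⟨?_, ?_⟩
    · rw [one_lt_div (by linarith)]
      linarith
    · have : (2 * (m : ℝ) - 1) ≠ 0 := by linarith
      field_simp
      ring
  have h1 := Real.inner_le_Lp_mul_Lq S (fun A => |D A|) G hpq
  simp only [abs_abs] at h1
  refine h1.trans (le_of_eq ?_)
  congr 2
  refine sum_congr rfl fun A _ => ?_
  rw [abs_of_nonneg (hG A), ← Real.rpow_natCast]
  push_cast
  rfl

/-- monotonicity of the normalized norms -/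
lemma norm_mono_fin {p p' : ℝ} (hp : 1 ≤ p) (hpp : p ≤ p') {k : ℕ} (hk : 1 ≤ k) (S : Finset ℕ)
    (hS : S.card ≤ k) (D : ℕ → ℝ) :
    ((1 / (k : ℝ)) * ∑ A ∈ S, |D A| ^ p) ^ (1 / p) ≤
      ((1 / (k : ℝ)) * ∑ A ∈ S, |D A| ^ p') ^ (1 / p') := by
  have hX0 : (0 : ℝ) < k := by exact_mod_cast hk
  have hp0 : 0 < p := by linarith
  have hp'0 : 0 < p' := by linarith
  rcases hpp.eq_or_lt with h | h
  · rw [h]
  have hr : 1 < p' / p := by rw [one_lt_div hp0]; exact h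
  have hpq : (p' / p).HolderConjugate ((p' / p).conjExponent) := Real.HolderConjugate.conjExponent hr
  have h1 := Real.inner_le_Lp_mul_Lq S (fun A => |D A| ^ p) (fun _ => (1 : ℝ)) hpq
  simp only [mul_one, abs_one, Real.one_rpow, sum_const, nsmul_eq_mul] at h1
  have h2 : ∀ y, |(|D y| ^ p)| ^ (p' / p) = |D y| ^ p' := by
    intro y
    rw [abs_of_nonneg (by positivity), ← Real.rpow_mul (abs_nonneg _)]
    congr 1
    field_simp
  simp only [h2] at h1
  set I := ∑ A ∈ S, |D A| ^ p with hI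
  set I' := ∑ A ∈ S, |D A| ^ p' with hI'
  have hI0 : 0 ≤ I := sum_nonneg fun y _ => by positivity
  have hI'0 : 0 ≤ I' := sum_nonneg fun y _ => by positivity
  have e1 : 1 / (p' / p) = p / p' := by field_simp
  have e2 : 1 / (p' / p).conjExponent = 1 - p / p' := by
    have := hpq.inv_add_inv_eq_one
    rw [← one_div, ← one_div, e1] at this
    linarith
  rw [e1, e2] at h1
  have h3 : (1 / (k : ℝ)) * I ≤ ((1 / (k : ℝ)) * I') ^ (p / p') := by
    have h4 : (S.card : ℝ) ^ (1 - p / p') ≤ (k : ℝ) ^ (1 - p / p') := by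
      apply Real.rpow_le_rpow (by positivity) (by exact_mod_cast hS)
      have : p / p' ≤ 1 := by rw [div_le_one hp'0]; exact hpp
      linarith
    have h5 : I ≤ I' ^ (p / p') * (k : ℝ) ^ (1 - p / p') := h1.trans (by gcongr)
    rw [Real.mul_rpow (by positivity) hI'0]
    have h6 : (1 / (k : ℝ)) ^ (p / p') = (1 / (k : ℝ)) * (k : ℝ) ^ (1 - p / p') := by
      rw [one_div, Real.inv_rpow hX0.le, Real.rpow_sub hX0, Real.rpow_one]
      field_simp
    rw [h6]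
    calc 1 / (k : ℝ) * I ≤ 1 / (k : ℝ) * (I' ^ (p / p') * (k : ℝ) ^ (1 - p / p')) := by gcongr
      _ = _ := by ring
  calc ((1 / (k : ℝ)) * I) ^ (1 / p) ≤ (((1 / (k : ℝ)) * I') ^ (p / p')) ^ (1 / p) := by
        apply Real.rpow_le_rpow (by positivity) h3 (by positivity)
    _ = ((1 / (k : ℝ)) * I') ^ (1 / p') := by
        rw [← Real.rpow_mul (by positivity)]
        congr 1
        field_simp

/-- the log mass of the small parts coprime to `k` -/
lemma LLK_low {τ H : ℝ} (hτ : 0 < τ) (hτ1 : τ ≤ 1) (hH : 1 ≤ H) {k : ℕ} (hk : 1 ≤ k) :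
    (Nat.totient k : ℝ) / k * (τ / 4 * (1 + Real.log H)) ≤ LLK k 0 ⌊H ^ τ⌋₊ := by
  have hH0 : 0 < H := by linarith
  have h1 : 1 ≤ H ^ τ := Real.one_le_rpow hH hτ.le
  have hM : 1 ≤ ⌊H ^ τ⌋₊ := Nat.le_floor (by exact_mod_cast h1)
  have hL1 := LLK_ge_one (k := k) hM
  have hlogH : 0 ≤ Real.log H := Real.log_nonneg hH
  have hk0 : (0 : ℝ) < k := by exact_mod_cast hk
  have hφ : (0 : ℝ) < Nat.totient k := by exact_mod_cast Nat.totient_pos.2 hk
  have hφk : (Nat.totient k : ℝ) ≤ k := by exact_mod_cast Nat.totient_le k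
  have hr1 : (Nat.totient k : ℝ) / k ≤ 1 := by rw [div_le_one hk0]; exact hφk
  have hr0 : 0 < (Nat.totient k : ℝ) / k := by positivity
  rcases le_or_gt (τ * Real.log H) 2 with h | h
  · have h5 : τ / 4 * (1 + Real.log H) ≤ 1 := by nlinarith
    calc (Nat.totient k : ℝ) / k * (τ / 4 * (1 + Real.log H)) ≤ 1 * 1 := by gcongr
      _ ≤ _ := by linarith
  · have h2 := LLKLower.lower k ⌊H ^ τ⌋₊ hk hM
    have h3 : H ^ τ / 2 ≤ (⌊H ^ τ⌋₊ : ℕ) := by
      have := Nat.lt_floor_add_one (H ^ τ)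
      have h4 : (1 : ℝ) ≤ (⌊H ^ τ⌋₊ : ℕ) := by exact_mod_cast hM
      linarith
    have h4 : Real.log (H ^ τ / 2) ≤ Real.log (⌊H ^ τ⌋₊ : ℕ) :=
      Real.log_le_log (by positivity) h3
    rw [Real.log_div (by positivity) (by norm_num), Real.log_rpow hH0] at h4
    have := Real.log_two_lt_d9
    have h5 : τ / 4 * (1 + Real.log H) ≤ (k : ℝ) / Nat.totient k * LLK k 0 ⌊H ^ τ⌋₊ := by
      nlinarith
    calc (Nat.totient k : ℝ) / k * (τ / 4 * (1 + Real.log H)) ≤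
        (Nat.totient k : ℝ) / k * ((k : ℝ) / Nat.totient k * LLK k 0 ⌊H ^ τ⌋₊) := by gcongr
      _ = LLK k 0 ⌊H ^ τ⌋₊ := by field_simp

end TH819.PM
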