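import Pool.Agent.TH819.PM.Add3

/-! The moment of the test vector over the reduced classes. -/

open Finset Filter Topology

namespace TH819.PM

open H343 H336V TH819.PL

/-- the majorant has small mean -/
theorem Sz_low (δ : ℝ) (hδ : 0 < δ) : ∃ k1 : ℝ, ∀ k : ℕ, 1 ≤ k → k1 ≤ k →
    (k : ℝ) / Nat.totient k ≤ 2 * Sz k ⌊(k : ℝ) ^ δ⌋₊ := by
  obtain ⟨C2, hC2, h2⟩ := div_bound (δ / 4) (by positivity)
  obtain ⟨c3, hc3, h3⟩ := phi_bound (1 / 2) (by norm_num)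
  refine ⟨(2 * C2 / c3) ^ (4 / δ), fun k hk hk1' => ?_⟩
  have hk0 : (0 : ℝ) < k := by exact_mod_cast hk
  have hk1 : (1 : ℝ) ≤ k := by exact_mod_cast hk
  have hkbig : 2 * C2 / c3 ≤ (k : ℝ) ^ (δ / 4) := by
    calc 2 * C2 / c3 = ((2 * C2 / c3) ^ (4 / δ)) ^ (δ / 4) := by
          rw [← Real.rpow_mul (by positivity)]
          have : 4 / δ * (δ / 4) = 1 := by field_simp
          rw [this, Real.rpow_one]
      _ ≤ (k : ℝ) ^ (δ / 4) := by gcongr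
  rw [TotLog.div_totient k hk]
  set z : ℕ := ⌊(k : ℝ) ^ δ⌋₊ with hz
  have hkδ : 1 ≤ (k : ℝ) ^ δ := Real.one_le_rpow hk1 hδ.le
  have hz1 : 1 ≤ z := by
    rw [hz]; exact Nat.le_floor (by exact_mod_cast hkδ)
  have hzlt : (k : ℝ) ^ δ < z + 1 := Nat.lt_floor_add_one _
  rw [← sum_filter_add_sum_filter_not (k.divisors.filter Squarefree) (fun d => d ≤ z)]
  have e1 : ∑ d ∈ (k.divisors.filter Squarefree).filter (fun d => d ≤ z),
      (1 : ℝ) / Nat.totient d = Sz k z := rfl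
  have e2 : ∑ d ∈ (k.divisors.filter Squarefree).filter (fun d => ¬ d ≤ z),
      (1 : ℝ) / Nat.totient d ≤ 1 / 2 := by
    have hterm : ∀ d ∈ (k.divisors.filter Squarefree).filter (fun d => ¬ d ≤ z),
        (1 : ℝ) / Nat.totient d ≤ 1 / (c3 * (k : ℝ) ^ (δ / 2)) := by
      intro d hd
      simp only [mem_filter, Nat.mem_divisors, not_le] at hd
      have hdz : (k : ℝ) ^ δ ≤ d := by
        refine hzlt.le.trans ?_
        exact_mod_cast hd.2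
      have hd1 : 1 ≤ d := by omega
      have h4 := h3 d hd1
      apply one_div_le_one_div_of_le (by positivity)
      refine le_trans ?_ h4
      have h5 : (k : ℝ) ^ (δ / 2) ≤ (d : ℝ) ^ (1 - 1 / 2 : ℝ) := by
        calc (k : ℝ) ^ (δ / 2) = ((k : ℝ) ^ δ) ^ (1 - 1 / 2 : ℝ) := by
              rw [← Real.rpow_mul hk0.le]; congr 1; ring
          _ ≤ (d : ℝ) ^ (1 - 1 / 2 : ℝ) := by
              apply Real.rpow_le_rpow (by positivity) hdz (by norm_num)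
      gcongr
    refine (sum_le_sum hterm).trans ?_
    rw [sum_const, nsmul_eq_mul]
    have hcard : ((((k.divisors.filter Squarefree).filter (fun d => ¬ d ≤ z)).card : ℕ) : ℝ) ≤
        C2 * (k : ℝ) ^ (δ / 4) := by
      refine le_trans ?_ (h2 k hk)
      exact_mod_cast (card_filter_le _ _).trans (card_filter_le _ _)
    have hkd4 : 0 < (k : ℝ) ^ (δ / 4) := by positivity
    have hsq : (k : ℝ) ^ (δ / 2) = (k : ℝ) ^ (δ / 4) * (k : ℝ) ^ (δ / 4) := by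
      rw [← Real.rpow_add hk0]
      congr 1
      ring
    calc _ ≤ C2 * (k : ℝ) ^ (δ / 4) * (1 / (c3 * (k : ℝ) ^ (δ / 2))) := by gcongr
      _ = (C2 / c3) / (k : ℝ) ^ (δ / 4) := by
        rw [hsq]
        field_simp
      _ ≤ 1 / 2 := by
        rw [div_le_div_iff₀ hkd4 (by norm_num)]
        calc C2 / c3 * 2 = 2 * C2 / c3 := by ring
          _ ≤ (k : ℝ) ^ (δ / 4) := hkbig
          _ = 1 * (k : ℝ) ^ (δ / 4) := (one_mul _).symm
  have e3 := Sz_ge_one hk hz1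
  rw [e1]
  linarith

/-- the moment of the test vector over the reduced classes -/
theorem F_moment2 {B : ℝ} {l : ℝ → ℝ} (hl : Test B l) (hl0 : ∀ v, 0 ≤ l v) {Y : ℝ} (hY : 0 < Y)
    {N M0 k m R z : ℕ} {P : Finset ℕ} (hk : 1 ≤ k) (hz1 : 1 ≤ z)
    (hP : ∀ p ∈ P, p.Prime ∧ M0 < p ∧ p * M0 ≤ R ∧ ¬ p ∣ k)
    (hsm : (z : ℝ) ^ 2 * ((R : ℝ) ^ (2 * m) * (m * (Real.exp B * Y))) < k) :
    ∑ A ∈ (range k).filter (fun A => A.Coprime k),
      ‖∑ q ∈ WK k M0 P, ∑ a ∈ (Icc 1 N).filter (fun a => a.Coprime q),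
      co l Y q a * ex ((A : ℝ) * ((a * inv k q : ℕ) : ℝ) / k)‖ ^ (2 * m) ≤
      k * (1 / Sz k z * (2 ^ (2 * m) * ((∑ p ∈ P, bK l Y N M0 k p) ^ (2 * m)).coeff 0)) := by
  have hP' : ∀ p ∈ P, p.Prime ∧ M0 < p := fun p hp => ⟨(hP p hp).1, (hP p hp).2.1⟩
  set FA : ℕ → ℂ := fun A => ∑ i ∈ SK l Y N M0 k P, co l Y (i.1 * i.2.1) i.2.2 *
    ex ((A : ℝ) * ((i.2.2 * inv k (i.1 * i.2.1) : ℕ) : ℝ) / k) with hFA
  have hFe : ∀ A : ℕ, ∑ q ∈ WK k M0 P, ∑ a ∈ (Icc 1 N).filter (fun a => a.Coprime q),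
      co l Y q a * ex ((A : ℝ) * ((a * inv k q : ℕ) : ℝ) / k) = FA A := fun A =>
    F_eq l Y N M0 k P hP' (fun q a => ex ((A : ℝ) * ((a * inv k q : ℕ) : ℝ) / k))
  rw [sum_congr rfl fun A _ => by rw [hFe A]]
  have hq : ∀ i ∈ SK l Y N M0 k P, 1 ≤ i.1 * i.2.1 ∧ i.1 * i.2.1 ≤ R ∧
      (i.1 * i.2.1).Coprime k := by
    intro i hi
    obtain ⟨h2, h3⟩ := mem_SK hi
    obtain ⟨b1, b2, b3, b4⟩ := hP _ h2
    obtain ⟨a1, a2, a3, -⟩ := IP_mem hl hY b1.one_le (JP_sub _ _ _ _ _ _ h3)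
    refine ⟨Nat.one_le_iff_ne_zero.2 (by have := b1.pos; positivity),
      (Nat.mul_le_mul_left _ a2).trans b3, ?_⟩
    exact Nat.Coprime.mul_left ((Nat.Prime.coprime_iff_not_dvd b1).2 b4) (JP_cop h3)
  have ha : ∀ i ∈ SK l Y N M0 k P, (i.2.2 : ℝ) ≤ Real.exp B * Y * (i.1 * i.2.1 : ℕ) := by
    intro i hi
    obtain ⟨h2, h3⟩ := mem_SK hi
    obtain ⟨b1, b2, b3, b4⟩ := hP _ h2
    obtain ⟨a1, a2, a3, a4, a5, a6, a7⟩ := IP_mem hl hY b1.one_le (JP_sub _ _ _ _ _ _ h3)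
    push_cast
    linarith
  have h1 := mod_moment2 (Jz k z) (gz k z) (fun j => j.2 * (k / j.1)) (SK l Y N M0 k P)
    (fun i => co l Y (i.1 * i.2.1) i.2.2) (fun i => i.2.2 * inv k (i.1 * i.2.1))
    (fun i => (i.2.2 : ℚ) / ((i.1 * i.2.1 : ℕ) : ℚ)) k m hk (by
      intro j hj j' hj' f f' hf hf' hd
      rw [Jz, mem_sigma, mem_filter, mem_range] at hj hj'
      obtain ⟨hj1, hj2, hj3⟩ := hj
      obtain ⟨hj1', hj2', hj3'⟩ := hj'
      have m1 := mem_Dz hj1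
      have m2 := mem_Dz hj1'
      obtain ⟨⟨e1, e2⟩, e3⟩ := no_wrap2 (a := fun i : ℕ × (ℕ × ℕ) => i.2.2)
        (q := fun i => i.1 * i.2.1) hk hq ha hsm
        ⟨m1.2.1, m1.2.2.2, hj2, hj3⟩ ⟨m2.2.1, m2.2.2.2, hj2', hj3'⟩ hf hf' hd
      refine ⟨?_, e3⟩
      obtain ⟨d, c⟩ := j
      obtain ⟨d', c'⟩ := j'
      simp only at e1 e2
      rw [e1, e2])
  rw [poly_eq hl hl0 hY N M0 k hP', gz_sq hk hz1] at h1
  have h2 : (((2 : ℝ) • ∑ p ∈ P, bK l Y N M0 k p) ^ (2 * m)).coeff 0 =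
      2 ^ (2 * m) * ((∑ p ∈ P, bK l Y N M0 k p) ^ (2 * m)).coeff 0 := by
    rw [smul_pow, AddMonoidAlgebra.coeff_smul_apply, smul_eq_mul]
  rw [h2] at h1
  refine le_trans ?_ h1
  calc ∑ A ∈ (range k).filter (fun A => A.Coprime k), ‖FA A‖ ^ (2 * m) =
      ∑ A ∈ (range k).filter (fun A => A.Coprime k), ‖hz k z A‖ ^ 2 * ‖FA A‖ ^ (2 * m) := by
        refine sum_congr rfl fun A hA => ?_
        rw [mem_filter] at hA
        rw [hz_one hk hz1 hA.2, norm_one, one_pow, one_mul]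
    _ ≤ ∑ A ∈ range k, ‖hz k z A‖ ^ 2 * ‖FA A‖ ^ (2 * m) :=
        sum_le_sum_of_subset_of_nonneg (filter_subset _ _) fun A _ _ => by positivity

end TH819.PM
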