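import Pool.Agent.TH819.PM.Fin
import Pool.Agent.TH819.PM.Sel2

/-! The lower bound at the critical exponent, reduced classes. -/

open Finset Filter Topology

namespace TH819.PM

open H343 H343.KF H336V TH819.PL

theorem ap_lower3 (m : ℕ) (hm : 2 ≤ m) (δ : ℝ) (hδ : 0 < δ) (hδ1 : δ ≤ 1 / (4 * (m : ℝ))) (Cx : ℝ)
    (hCx : 1 ≤ Cx) :
    ∃ c C0 : ℝ, 0 < c ∧ 1 ≤ C0 ∧ ∀ᶠ X : ℝ in atTop, ∀ K : ℕ, C0 * K ≤ X →
      X ≤ K * X ^ (1 / (2 * (m : ℝ)) - δ) → ∀ y : ℝ, 0 ≤ y → y * Nat.totient K ≤ Cx * X →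
      c * Real.sqrt (X / Nat.totient K * (1 + Real.log (X / K))) ≤
        ((1 / (Nat.totient K : ℝ)) * ∑ A ∈ (range K).filter (fun A => A.Coprime K),
          |psiA X K A - y| ^ (2 * (m : ℝ) / (2 * m - 1))) ^ (1 / (2 * (m : ℝ) / (2 * m - 1))) := by
  classical
  have hm0 : (2 : ℝ) ≤ m := by exact_mod_cast hm
  have hmd : δ ≤ 1 / 8 := hδ1.trans (by
    apply one_div_le_one_div_of_le (by norm_num)
    linarith)
  obtain ⟨B, lam, hB1, hlam, hl0, hl1, hI⟩ := test_pm
  have hB : 0 < B := by linarith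
  set I1 := ∫ v, lam v * Real.sinc (Real.pi * Real.exp v) * Real.exp v with hI1def
  set κ : ℝ := Real.exp (-B) / (4 * m) with hκdef
  have hκ : 0 < κ := by positivity
  have hBκ : Real.exp B * κ = 1 / (4 * m) := by
    rw [hκdef, Real.exp_neg]
    have := Real.exp_pos B
    field_simp
  have hκ1 : κ ≤ 1 := by
    have h1 : 1 ≤ Real.exp B := Real.one_le_exp hB.le
    have h2 : κ ≤ Real.exp B * κ := le_mul_of_one_le_left hκ.le h1
    have h3 : 1 / (4 * (m : ℝ)) ≤ 1 := by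
      rw [div_le_one (by positivity)]
      linarith
    linarith
  set v0 : ℝ := δ / 16 with hv0def
  have hv0 : 0 < v0 := by positivity
  have hv1 : v0 ≤ 1 := by rw [hv0def]; linarith
  obtain ⟨K1, hK1, hmom⟩ := momK hlam hl0 hl1 v0 hv0 hv1
  have hCx0 : 0 < Cx := by linarith
  set η : ℝ := I1 * v0 / (6 * Cx) with hηdef
  have hη : 0 < η := by positivity
  obtain ⟨X1, hpair⟩ := pairing_sub hB1 hlam (δ / 32) η (by positivity) (by linarith) hη
  obtain ⟨X2, hmean⟩ := mean_sub hB1 hlam (δ / 32) η (by positivity) (by linarith) hη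
  have hpar := params m hm δ κ B 1 hδ hδ1 hκ hB (by
    rw [hBκ]
    apply le_of_eq
    field_simp
    ring)
  set C4 : ℝ := 2 * (2 ^ (2 * m) * (2 ^ ((2 * m) ^ 2) * K1 ^ (2 * m))) with hC4def
  obtain ⟨k1, hSz⟩ := Sz_low (m * δ / 8) (by positivity)
  have hC4 : 0 < C4 := by positivity
  have hlκ : 0 ≤ Real.log (1 / κ) := Real.log_nonneg (by rw [le_div_iff₀ hκ]; linarith)
  set cc : ℝ := v0 * (δ / 64 / 4) / (1 + Real.log (1 / κ)) with hccdef
  have hcc : 0 < cc := by positivity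
  refine ⟨(I1 / 2) / (C4 ^ (1 / (2 * (m : ℝ))) * Real.sqrt 1) * Real.sqrt cc, 1 / κ,
    by positivity, by rw [le_div_iff₀ hκ]; linarith, ?_⟩
  have ev1 : ∀ᶠ X : ℝ in atTop, 2 * Real.log X ≤ v0 * X ^ (3 * δ / 32) := by
    have h1 := (isLittleO_log_rpow_atTop (r := 3 * δ / 32) (by positivity)).bound
      (show 0 < v0 / 2 by positivity)
    filter_upwards [h1, eventually_ge_atTop (1 : ℝ)] with X h2 h3
    rw [Real.norm_of_nonneg (Real.log_nonneg h3), Real.norm_of_nonneg (by positivity)] at h2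
    linarith
  have ev2 : ∀ᶠ X : ℝ in atTop, m * Real.exp B < X ^ (m * δ / 4) :=
    (tendsto_rpow_atTop (by positivity)).eventually_gt_atTop _
  have ev3 : ∀ᶠ X : ℝ in atTop, k1 ≤ X ^ (3 / 4 : ℝ) :=
    (tendsto_rpow_atTop (by norm_num)).eventually_ge_atTop _
  filter_upwards [hpar, ev1, ev2, eventually_ge_atTop X1, eventually_ge_atTop X2,
    eventually_ge_atTop (1 : ℝ), ev3] with X p1 e1 e2 e3 e4 e5 e6 K hKX hXK y hy0 hyφ
  have hX0 : 0 < X := by linarith
  have hK0' : 1 ≤ K := by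
    rcases Nat.eq_zero_or_pos K with h | h
    · rw [h, Nat.cast_zero, zero_mul] at hXK
      linarith
    · exact h
  have hK0 : (0 : ℝ) < K := by exact_mod_cast hK0'
  have hK1r : (1 : ℝ) ≤ K := by exact_mod_cast hK0'
  set H := X / K with hHdef
  have hH0 : 0 < H := by positivity
  set H' := κ * H with hH'
  have hH'1 : 1 ≤ H' := by
    rw [hH', hHdef, ← mul_div_assoc, le_div_iff₀ hK0, one_mul]
    rw [div_mul_eq_mul_div, one_mul, div_le_iff₀ hκ] at hKX
    linarith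
  have hH'0 : 0 < H' := by linarith
  have hH'H : H' ≤ H := mul_le_of_le_one_left hH0.le hκ1
  have hHX : H ≤ X ^ (1 / (2 * (m : ℝ)) - δ) := by
    rw [hHdef, div_le_iff₀ hK0]
    linarith
  have hH1 : 1 ≤ H := hH'1.trans hH'H
  obtain ⟨hRange, -, hT34, Q, P2, N, M, hCuts, -, hR1, hRX, hPall, hsm, hM8, hV⟩ :=
    p1 H' hH'1 (hH'H.trans hHX)
  have hY : κ / H' = K / X := by
    rw [hH', hHdef]
    field_simp
  rw [hY] at hRange hT34 hCuts hPall hsm hM8
  set M0 := ⌊H' ^ (δ / 64)⌋₊ with hM0def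
  have hXY : X * (K / X) = K := by field_simp
  have hYH : (K : ℝ) / X = 1 / H := by rw [hHdef]; field_simp
  have hY0 : (0 : ℝ) < K / X := by positivity
  have hY1 : (K : ℝ) / X ≤ 1 := by
    rw [hYH, div_le_one hH0]
    exact hH1
  have hKX' : (K : ℝ) ≤ X := by
    rw [div_le_one hX0] at hY1
    exact hY1
  have hT34' : X ^ (3 / 4 : ℝ) ≤ K := by rw [hXY] at hT34; exact hT34
  have hRV : RangeV (δ / 32) X (K / X) := by
    refine ⟨hX0, hY0, hY1, by rw [hXY]; exact hK1r, ?_⟩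
    rw [hXY]
    calc X = X ^ (1 : ℝ) := (Real.rpow_one X).symm
      _ ≤ X ^ (3 / 4 * (3 / 2 - δ / 32) : ℝ) :=
          Real.rpow_le_rpow_of_exponent_le e5 (by linarith)
      _ = (X ^ (3 / 4 : ℝ)) ^ (3 / 2 - δ / 32 : ℝ) := by rw [Real.rpow_mul hX0.le]
      _ ≤ (K : ℝ) ^ (3 / 2 - δ / 32 : ℝ) :=
          Real.rpow_le_rpow (by positivity) hT34' (by linarith)
  have hCV : CutsV (δ / 32) B X (K / X) Q (P2 * M0) N :=
    ⟨hCuts.hQ1, hCuts.hQ2, hCuts.hR, hCuts.hN⟩
  have hM01 : 1 ≤ M0 := Nat.le_floor (by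
    have : 1 ≤ H' ^ (δ / 64) := Real.one_le_rpow hH'1 (by positivity)
    exact_mod_cast this)
  have hQX : X ^ (3 * δ / 32) ≤ Q := by
    have h1 := hCuts.hQ1
    rw [hXY] at h1
    calc X ^ (3 * δ / 32) = (X ^ (3 / 4 : ℝ)) ^ (4 * (δ / 32)) := by
          rw [← Real.rpow_mul hX0.le]
          congr 1
          ring
      _ ≤ (K : ℝ) ^ (4 * (δ / 32)) := Real.rpow_le_rpow (by positivity) hT34' (by positivity)
      _ ≤ Q := h1
  have hQ1r : (1 : ℝ) ≤ Q := (Real.one_le_rpow e5 (by positivity)).trans hQX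
  have hQ1 : 1 ≤ Q := by exact_mod_cast hQ1r
  -- the primes
  set P := Pk K Q P2 with hPdef
  have hPm : ∀ p ∈ P, p ∈ (Ioc Q P2).filter Nat.Prime ∧ ¬ p ∣ K := fun p hp => by
    rw [hPdef, Pk, mem_filter] at hp
    exact hp
  have hP' : ∀ p ∈ P, p.Prime ∧ M0 < p := fun p hp =>
    ⟨(hPall p (hPm p hp).1).1, (hPall p (hPm p hp).1).2.1⟩
  have hPQ : ∀ p ∈ P, Q < p ∧ p ≤ P2 := fun p hp => by
    have := (hPm p hp).1
    rw [mem_filter, mem_Ioc] at this
    exact this.1
  set V := ∑ p ∈ P, 1 / ((p : ℝ) - 1) with hVdef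
  have hVv : v0 ≤ V := by
    have h1 := Pk_V (k := K) (Q := Q) (P2 := P2) hK0' hQ1
    have h2 : 2 * Real.log K / Q ≤ v0 := by
      rw [div_le_iff₀ (by linarith)]
      have h3 : Real.log K ≤ Real.log X := Real.log_le_log hK0 hKX'
      have h4 : v0 * X ^ (3 * δ / 32) ≤ v0 * Q := by gcongr
      linarith
    have h3 : v0 = δ / 8 - v0 := by rw [hv0def]; ring
    rw [← hPdef, ← hVdef] at h1
    linarith
  have hV0 : 0 < V := by linarith
  set L1 := LLK K 0 M0 with hL1def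
  have hL1 : 1 ≤ L1 := LLK_ge_one hM01
  set LW := V * L1 with hLWdef
  have hLWv : v0 ≤ LW := hVv.trans (le_mul_of_one_le_right hV0.le hL1)
  have hLW0 : 0 < LW := by linarith
  set W := WK K M0 P with hWdef
  have hW : W ⊆ ModK K Q (P2 * M0) := WK_sub fun p hp =>
    ⟨(hP' p hp).1, (hP' p hp).2, (hPQ p hp).1, Nat.mul_le_mul_right M0 (hPQ p hp).2, (hPm p hp).2⟩
  -- the pairing
  have hp1 := hpair X K e3 hRV Q (P2 * M0) N hCV W hW
  have hp2 := hmean X K e4 hRV Q (P2 * M0) N hCV W hW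
  rw [hWdef, LWK_eq hP', ← hVdef, ← hL1def, ← hLWdef, ← hWdef] at hp1
  have hdp := dev_abs (S := (range K).filter (fun A => A.Coprime K))
    (F := fun A => FW lam (K / X) K W N A) (ψ := fun A => psiA X K A)
    (D := fun A => psiA X K A - y) hy0 (fun _ => rfl)
    (pair_eqW lam X (K / X) K W N hK0') hp1 hp2
  have hφ : (0 : ℝ) < Nat.totient K := by exact_mod_cast Nat.totient_pos.2 hK0'
  have hd2 : y * (η * Nat.totient K * (K / X)) ≤ Cx * η * K := by
    calc y * (η * Nat.totient K * (K / X)) = (y * Nat.totient K) * (η * (K / X)) := by ring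
      _ ≤ (Cx * X) * (η * (K / X)) := by gcongr
      _ = Cx * η * K := by field_simp
  replace hdp := (sub_le_sub_left hd2 _).trans hdp
  set φ : ℝ := (Nat.totient K : ℝ) with hφdef
  set Hf : ℝ := X / φ with hHf
  have hHf0 : 0 < Hf := by positivity
  set LF : ℝ := LW * K / φ with hLF
  have hLF0 : 0 < LF := by positivity
  have hφLF : φ * LF = K * LW := by rw [hLF]; field_simp
  have hlow : I1 / 2 * Hf * φ * LF ≤ ∑ A ∈ (range K).filter (fun A => A.Coprime K),
      |psiA X K A - y| * (Hf * ‖FW lam (K / X) K W N A‖) := by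
    have h1 : I1 / 2 * (K * LW) ≤ K * (I1 * LW - η * (1 + LW)) - Cx * η * K := by
      have hηC : Cx * η = I1 * v0 / 6 := by
        rw [hηdef]
        field_simp
      have hη1 : η ≤ Cx * η := le_mul_of_one_le_left hη.le hCx
      have h2 : η * (1 + LW) + Cx * η ≤ I1 / 2 * LW := by
        have h3 : Cx * η ≤ I1 * LW / 6 := by
          have h5 := mul_le_mul_of_nonneg_left hLWv hI.le
          rw [hηC]
          gcongr
        have h4 : η * LW ≤ I1 * LW / 6 := by
          have h5 : I1 * LW * v0 ≤ I1 * LW := mul_le_of_le_one_right (by positivity) hv1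
          calc η * LW ≤ (Cx * η) * LW := by gcongr
            _ = (I1 * LW * v0) / 6 := by rw [hηC]; ring
            _ ≤ I1 * LW / 6 := by gcongr
        calc η * (1 + LW) + Cx * η = η + η * LW + Cx * η := by ring
          _ ≤ I1 * LW / 6 + I1 * LW / 6 + I1 * LW / 6 :=
              add_le_add (add_le_add (hη1.trans h3) h4) h3
          _ = I1 / 2 * LW := by ring
      have h3 := mul_le_mul_of_nonneg_left h2 hK0.le
      calc I1 / 2 * (K * LW) = K * (I1 * LW) - K * (I1 / 2 * LW) := by ring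
        _ ≤ K * (I1 * LW) - K * (η * (1 + LW) + Cx * η) := sub_le_sub_left h3 _
        _ = K * (I1 * LW - η * (1 + LW)) - Cx * η * K := by ring
    have h2 : ∑ A ∈ (range K).filter (fun A => A.Coprime K),
        |psiA X K A - y| * (Hf * ‖FW lam (K / X) K W N A‖) = Hf *
        ∑ A ∈ (range K).filter (fun A => A.Coprime K),
        |psiA X K A - y| * ‖FW lam (K / X) K W N A‖ := by
      rw [mul_sum]
      refine sum_congr rfl fun A _ => by ring
    rw [h2]
    calc I1 / 2 * Hf * φ * LF = Hf * (I1 / 2 * (φ * LF)) := by ring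
      _ = Hf * (I1 / 2 * (K * LW)) := by rw [hφLF]
      _ ≤ Hf * (K * (I1 * LW - η * (1 + LW)) - Cx * η * K) :=
          mul_le_mul_of_nonneg_left h1 hHf0.le
      _ ≤ _ := mul_le_mul_of_nonneg_left hdp hHf0.le
  have hho := holder_fin hm ((range K).filter (fun A => A.Coprime K)) (fun A => psiA X K A - y)
    (fun A => Hf * ‖FW lam (K / X) K W N A‖) (fun A => by positivity)
  -- the moments
  have hmo := hmom (K / X) N M0 K P (2 * m) hY0 hM01 (fun p hp => hPall p (hPm p hp).1) hsm hM8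
    hVv (2 * m) le_rfl
  have hVLY : V * (L1 * (K / X)) = LW * (1 / H) := by rw [hLWdef, hYH]; ring
  have hsqm : (K1 * Real.sqrt (LW * (1 / H))) ^ (2 * m) = K1 ^ (2 * m) * (LW * (1 / H)) ^ m := by
    rw [mul_pow, pow_mul (Real.sqrt _) 2 m, Real.sq_sqrt (by positivity)]
  rw [← hVdef, ← hL1def, hVLY, hsqm] at hmo
  set z : ℕ := ⌊(K : ℝ) ^ (m * δ / 8)⌋₊ with hzdef
  have hz1 : 1 ≤ z := Nat.le_floor (by
    have : 1 ≤ (K : ℝ) ^ (m * δ / 8) := Real.one_le_rpow hK1r (by positivity)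
    exact_mod_cast this)
  have hz2 : (z : ℝ) ^ 2 ≤ X ^ (m * δ / 4) := by
    calc (z : ℝ) ^ 2 ≤ ((K : ℝ) ^ (m * δ / 8)) ^ 2 := by
          have : (z : ℝ) ≤ (K : ℝ) ^ (m * δ / 8) := Nat.floor_le (by positivity)
          gcongr
      _ ≤ (X ^ (m * δ / 8)) ^ 2 := by gcongr
      _ = X ^ (m * δ / 4) := by
          rw [← Real.rpow_natCast, ← Real.rpow_mul hX0.le]
          congr 1
          push_cast
          ring
  have hSz1 := Sz_ge_one (k := K) hK0' hz1
  have hSz2 : K * (1 / Sz K z) ≤ 2 * φ := by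
    have h1 := hSz K hK0' (e6.trans hT34')
    rw [← hzdef, div_le_iff₀ hφ] at h1
    rw [mul_one_div, div_le_iff₀ (by linarith)]
    calc (K : ℝ) ≤ 2 * Sz K z * φ := h1
      _ = 2 * φ * Sz K z := by ring
  have hsm2 : (z : ℝ) ^ 2 * (((P2 * M0 : ℕ) : ℝ) ^ (2 * m) * (m * (Real.exp B * (K / X)))) < K := by
    have h1 : ((P2 * M0 : ℕ) : ℝ) ^ (2 * m) ≤ X ^ (1 - m * δ / 2) := by
      calc ((P2 * M0 : ℕ) : ℝ) ^ (2 * m) ≤ (X ^ (1 / (2 * (m : ℝ)) - δ / 4)) ^ (2 * m) := by
            gcongr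
        _ = X ^ (1 - m * δ / 2) := by
            rw [← Real.rpow_natCast, ← Real.rpow_mul hX0.le]
            congr 1
            push_cast
            field_simp
            ring
    have h2 : X ^ (m * δ / 4) * X ^ (1 - m * δ / 2) = X / X ^ (m * δ / 4) := by
      rw [← Real.rpow_add hX0]
      have : m * δ / 4 + (1 - m * δ / 2) = 1 - m * δ / 4 := by ring
      rw [this, Real.rpow_sub hX0, Real.rpow_one]
    have h3 : 0 < X ^ (m * δ / 4) := by positivity
    calc (z : ℝ) ^ 2 * (((P2 * M0 : ℕ) : ℝ) ^ (2 * m) * (m * (Real.exp B * (K / X)))) ≤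
        X ^ (m * δ / 4) * (X ^ (1 - m * δ / 2) * (m * (Real.exp B * (K / X)))) := by gcongr
      _ = (X ^ (m * δ / 4) * X ^ (1 - m * δ / 2)) * (m * (Real.exp B * (K / X))) := by ring
      _ = K * ((m * Real.exp B) / X ^ (m * δ / 4)) := by
          rw [h2]
          field_simp
      _ < K * 1 := by
          apply mul_lt_mul_of_pos_left _ hK0
          rw [div_lt_one h3]
          exact e2
      _ = K := mul_one _
  have hFm := F_moment2 hlam hl0 hY0 (N := N) (M0 := M0) (k := K) (m := m) (R := P2 * M0) (P := P)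
    (z := z) hK0' hz1 (fun p hp => ⟨(hP' p hp).1, (hP' p hp).2,
      Nat.mul_le_mul_right M0 (hPQ p hp).2, (hPm p hp).2⟩) hsm2
  have hLFH : LF * (1 / Hf) = LW * (1 / H) := by
    rw [hLF, hHf, hHdef]
    field_simp
  have hG : ∑ A ∈ (range K).filter (fun A => A.Coprime K),
      (Hf * ‖FW lam (K / X) K W N A‖) ^ (2 * m) ≤
      φ * Hf ^ (2 * m) * (C4 * (LF * (1 / Hf)) ^ m) := by
    have h2 : ∑ A ∈ (range K).filter (fun A => A.Coprime K),
        (Hf * ‖FW lam (K / X) K W N A‖) ^ (2 * m) = Hf ^ (2 * m) *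
        ∑ A ∈ (range K).filter (fun A => A.Coprime K), ‖FW lam (K / X) K W N A‖ ^ (2 * m) := by
      rw [mul_sum]
      refine sum_congr rfl fun A _ => by rw [mul_pow]
    rw [h2, hLFH]
    set U0 : ℝ := 2 ^ (2 * m) * (2 ^ ((2 * m) ^ 2) * (K1 ^ (2 * m) * (LW * (1 / H)) ^ m)) with hU0
    have hU00 : 0 ≤ U0 := by positivity
    have h3 : ∑ A ∈ (range K).filter (fun A => A.Coprime K),
        ‖FW lam (K / X) K W N A‖ ^ (2 * m) ≤ 2 * φ * U0 := by
      refine le_trans hFm ?_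
      have h4 : 2 ^ (2 * m) * ((∑ p ∈ P, bK lam (K / X) N M0 K p) ^ (2 * m)).coeff 0 ≤ U0 := by
        rw [hU0]
        exact mul_le_mul_of_nonneg_left hmo (by positivity)
      have h5 : 0 ≤ K * (1 / Sz K z) := by positivity
      calc K * (1 / Sz K z * (2 ^ (2 * m) *
          ((∑ p ∈ P, bK lam (K / X) N M0 K p) ^ (2 * m)).coeff 0)) =
          (K * (1 / Sz K z)) * (2 ^ (2 * m) *
            ((∑ p ∈ P, bK lam (K / X) N M0 K p) ^ (2 * m)).coeff 0) := by ring
        _ ≤ (K * (1 / Sz K z)) * U0 := mul_le_mul_of_nonneg_left h4 h5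
        _ ≤ 2 * φ * U0 := mul_le_mul_of_nonneg_right hSz2 hU00
    calc Hf ^ (2 * m) * ∑ A ∈ (range K).filter (fun A => A.Coprime K),
        ‖FW lam (K / X) K W N A‖ ^ (2 * m) ≤ Hf ^ (2 * m) * (2 * φ * U0) :=
          mul_le_mul_of_nonneg_left h3 (by positivity)
      _ = _ := by rw [hC4def, hU0]; ring
  set I := ∑ A ∈ (range K).filter (fun A => A.Coprime K),
    |psiA X K A - y| ^ (2 * (m : ℝ) / (2 * m - 1)) with hIdef
  have hI0 : 0 ≤ I := sum_nonneg fun A _ => by positivity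
  have hfin : I1 / 2 * Hf * φ * LF ≤ I ^ (1 / (2 * (m : ℝ) / (2 * m - 1))) *
      (φ * Hf ^ (2 * m) * (C4 * (LF * (1 / Hf)) ^ m)) ^ (1 / (2 * (m : ℝ))) := by
    refine hlow.trans (hho.trans ?_)
    apply mul_le_mul_of_nonneg_left _ (by positivity)
    apply Real.rpow_le_rpow _ hG (by positivity)
    exact sum_nonneg fun A _ => by positivity
  have hfa := fin_alg hm hφ hHf0 hC4 hLF0 one_pos hI0 hfin
  refine le_trans ?_ hfa
  rw [mul_assoc]
  apply mul_le_mul_of_nonneg_left _ (by positivity)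
  rw [← Real.sqrt_mul hcc.le]
  apply Real.sqrt_le_sqrt
  have hL2 := LLK_low (τ := δ / 64) (by positivity) (by linarith) hH'1 hK0'
  rw [← hM0def, ← hL1def] at hL2
  have hlog : 1 + Real.log H ≤ (1 + Real.log H') * (1 + Real.log (1 / κ)) := by
    have h1 : Real.log H = Real.log H' + Real.log (1 / κ) := by
      rw [← Real.log_mul hH'0.ne' (by positivity)]
      congr 1
      rw [hH']
      field_simp
    have h2 : 0 ≤ Real.log H' := Real.log_nonneg hH'1
    rw [h1]
    have h3 := mul_nonneg h2 hlκ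
    calc 1 + (Real.log H' + Real.log (1 / κ)) ≤
        1 + (Real.log H' + Real.log (1 / κ)) + Real.log H' * Real.log (1 / κ) :=
          le_add_of_nonneg_right h3
      _ = (1 + Real.log H') * (1 + Real.log (1 / κ)) := by ring
  have hφK : 0 < φ / K := by positivity
  have hccL : cc * (φ / K * (1 + Real.log H)) ≤ LW := by
    calc cc * (φ / K * (1 + Real.log H)) ≤
        cc * (φ / K * ((1 + Real.log H') * (1 + Real.log (1 / κ)))) := by gcongr
      _ = v0 * (φ / K * (δ / 64 / 4 * (1 + Real.log H'))) := by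
          rw [hccdef]
          field_simp
      _ ≤ v0 * L1 := by gcongr
      _ ≤ V * L1 := by gcongr
  calc cc * (Hf * (1 + Real.log H)) =
      Hf * ((cc * (φ / K * (1 + Real.log H))) * K / φ) := by
        field_simp
    _ ≤ Hf * LF := by
        rw [hLF]
        gcongr

end TH819.PM
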