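import Pool.Agent.TH819.PL.Mom
import Pool.Agent.H336R2.V.LLKLower

/-! Moments of the polynomial with denominators coprime to `k`. -/

open Finset

namespace TH819.PM

open H343 H336V TH819.PL

lemma mem_ModK' {k M0 m : ℕ} (h : m ∈ ModK k 0 M0) : 1 ≤ m ∧ m ≤ M0 ∧ Squarefree m ∧
    m.Coprime k ∧ m ∈ Mod 0 M0 := by
  rw [ModK, mem_filter] at h
  have h2 := h.1
  rw [H343.Mod, mem_filter, mem_Ioc] at h2
  exact ⟨h2.1.1, h2.1.2, h2.2, h.2, h.1⟩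

/-- the indices belonging to `p`, with `m` coprime to `k` -/
noncomputable def JP (l : ℝ → ℝ) (Y : ℝ) (N M0 k p : ℕ) : Finset (ℕ × ℕ) :=
  ((ModK k 0 M0) ×ˢ Icc 1 N).filter (fun i => i.2.Coprime (p * i.1) ∧
    l (Real.log (i.2 / ((p * i.1 : ℕ) * Y))) ≠ 0)

lemma JP_sub (l : ℝ → ℝ) (Y : ℝ) (N M0 k p : ℕ) : JP l Y N M0 k p ⊆ IP l Y N M0 p := by
  intro i hi
  rw [JP, mem_filter, mem_product] at hi
  rw [IP, mem_filter, mem_product]
  exact ⟨⟨(mem_ModK' hi.1.1).2.2.2.2, hi.1.2⟩, hi.2⟩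

lemma JP_cop {l : ℝ → ℝ} {Y : ℝ} {N M0 k p : ℕ} {i : ℕ × ℕ} (hi : i ∈ JP l Y N M0 k p) :
    i.1.Coprime k := by
  rw [JP, mem_filter, mem_product] at hi
  exact (mem_ModK' hi.1.1).2.2.2.1

/-- the part of the polynomial belonging to `p` -/
noncomputable def bK (l : ℝ → ℝ) (Y : ℝ) (N M0 k p : ℕ) : AA :=
  ∑ i ∈ JP l Y N M0 k p, sym (fr p i) (wt l Y p i)

lemma bK_NN {l : ℝ → ℝ} {Y : ℝ} (hl0 : ∀ v, 0 ≤ l v) (N M0 k p : ℕ) : NN (bK l Y N M0 k p) :=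
  NN_sum fun i _ => sym_NN _ (wt_nonneg hl0 p i)

lemma LLK_ge_one {k M0 : ℕ} (hM0 : 1 ≤ M0) : 1 ≤ LLK k 0 M0 := by
  unfold LLK
  have h1 : (1 : ℕ) ∈ ModK k 0 M0 := by
    rw [ModK, mem_filter, H343.Mod, mem_filter, mem_Ioc]
    exact ⟨⟨⟨by norm_num, hM0⟩, squarefree_one⟩, Nat.coprime_one_left k⟩
  calc (1 : ℝ) = 1 / (Nat.totient 1 : ℝ) := by simp
    _ ≤ _ := single_le_sum (f := fun q : ℕ => (1 : ℝ) / Nat.totient q)
        (fun i _ => by positivity) h1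

/-- independence -/
lemma bK_factor {B Y : ℝ} {l : ℝ → ℝ} (hl : Test B l) (hY : 0 < Y) {N M0 k : ℕ} {P : Finset ℕ}
    (hP : ∀ p ∈ P, p.Prime ∧ M0 < p) {n : ℕ}
    (hsm : (n : ℝ) * (Real.exp B * Y) * (M0 : ℝ) ^ n < 1) (hM0 : 1 ≤ M0) :
    ∀ p ∈ P, ∀ j i, j + i ≤ n →
      (bK l Y N M0 k p ^ j * (∑ q ∈ P.erase p, bK l Y N M0 k q) ^ i).coeff 0 =
      (bK l Y N M0 k p ^ j).coeff 0 * ((∑ q ∈ P.erase p, bK l Y N M0 k q) ^ i).coeff 0 := by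
  intro p hp j i hji
  obtain ⟨hpp, hpM⟩ := hP p hp
  have hin1 : In (PE p (Real.exp B * Y) M0 j) (bK l Y N M0 k p ^ j) := by
    refine In_pow (P := PE p (Real.exp B * Y) M0) ?_ ?_ PE_add j
    · exact ⟨by simp, 1, le_rfl, by simp, 0, by simp⟩
    · exact In_sum fun i hi => In_sym _ (fr_PE hl hY hpp.one_le (JP_sub _ _ _ _ _ _ hi)).1
        (fr_PE hl hY hpp.one_le (JP_sub _ _ _ _ _ _ hi)).2
  have hin2 : In (PD p) ((∑ q ∈ P.erase p, bK l Y N M0 k q) ^ i) := by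
    refine In_pow (P := fun _ => PD p) (PD_zero hpp) ?_ (fun _ a b => PD_add hpp) i
    refine In_sum fun q hq => In_sum fun i hi => ?_
    rw [mem_erase] at hq
    have h := fr_PD hl hY hpp (hP q hq.2).1 hq.1.symm hpM (JP_sub _ _ _ _ _ _ hi)
    exact In_sym _ h.1 h.2
  refine factor hin1 hin2 fun a h1 h2 => PE_PD hpp h1 h2 ?_ (by positivity)
  refine lt_of_le_of_lt ?_ hsm
  have hj : (j : ℝ) ≤ n := by exact_mod_cast (by omega : j ≤ n)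
  have hM : (1 : ℝ) ≤ M0 := by exact_mod_cast hM0
  have : (M0 : ℝ) ^ j ≤ (M0 : ℝ) ^ n := pow_le_pow_right₀ hM (by omega)
  gcongr

section

variable {B : ℝ} {l : ℝ → ℝ} (hl : Test B l) (hl0 : ∀ v, 0 ≤ l v) (hl1 : ∀ v, l v ≤ 1)

include hl in
lemma wt_sqK : ∃ K1 : ℝ, 1 ≤ K1 ∧ ∀ (Y : ℝ) (N M0 k p : ℕ), 0 < Y → p.Prime → 1 ≤ M0 → M0 < p →
    Real.exp B * (p * M0) * Y ≤ N → (M0 : ℝ) ^ 2 ≤ Y * (p - 1) →
    ∑ i ∈ JP l Y N M0 k p, wt l Y p i ^ 2 ≤ K1 * (LLK k 0 M0 * Y) * (1 / ((p : ℝ) - 1)) := by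
  classical
  have hl2 : Test B (fun v => l v ^ 2) := ⟨hl.smooth.pow 2, fun v hv => by rw [hl.supp v hv]; ring⟩
  obtain ⟨C1, hC1, hc⟩ := coprime_count hl2
  set I2 := ∫ v, l v ^ 2 * Real.exp v with hI2
  have hI20 : 0 ≤ I2 := MeasureTheory.integral_nonneg fun v => by positivity
  refine ⟨I2 + 2 * C1 + 1, by linarith, ?_⟩
  intro Y N M0 k p hY hp hM0 hM hN hMY
  have hp2 : (2 : ℝ) ≤ p := by exact_mod_cast hp.two_le
  have hp0 : (0 : ℝ) < (p : ℝ) - 1 := by linarith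
  have hL1 := LLK_ge_one (k := k) hM0
  have h1 : ∑ i ∈ JP l Y N M0 k p, wt l Y p i ^ 2 ≤ ∑ m ∈ ModK k 0 M0,
      ∑ a ∈ (Icc 1 N).filter (fun a => a.Coprime (p * m)),
        (1 / (Nat.totient (p * m) : ℝ)) ^ 2 * l (Real.log (a / ((p * m : ℕ) * Y))) ^ 2 := by
    have e : ∀ m : ℕ, ∑ a ∈ (Icc 1 N).filter (fun a => a.Coprime (p * m)),
        (1 / (Nat.totient (p * m) : ℝ)) ^ 2 * l (Real.log (a / ((p * m : ℕ) * Y))) ^ 2 =
        ∑ a ∈ Icc 1 N, if a.Coprime (p * m) then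
        (1 / (Nat.totient (p * m) : ℝ)) ^ 2 * l (Real.log (a / ((p * m : ℕ) * Y))) ^ 2 else 0 :=
      fun m => by rw [sum_filter]
    rw [sum_congr rfl fun m _ => e m, ← sum_product', JP, sum_filter]
    refine sum_le_sum fun i _ => ?_
    unfold wt
    rw [mul_pow]
    by_cases h2 : i.2.Coprime (p * i.1)
    · rw [if_pos h2]
      split_ifs
      · exact le_rfl
      · positivity
    · rw [if_neg h2, if_neg (fun h => h2 h.1)]
  refine h1.trans ?_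
  have h2 : ∀ m ∈ ModK k 0 M0, ∑ a ∈ (Icc 1 N).filter (fun a => a.Coprime (p * m)),
        (1 / (Nat.totient (p * m) : ℝ)) ^ 2 * l (Real.log (a / ((p * m : ℕ) * Y))) ^ 2 ≤
      (Y * I2 * (1 / ((p : ℝ) - 1))) * (1 / (Nat.totient m : ℝ)) +
        2 * M0 * C1 * (1 / ((p : ℝ) - 1)) ^ 2 := by
    intro m hm
    obtain ⟨hm1, hm2, -⟩ := mem_ModK' hm
    have hmr : (m : ℝ) ≤ M0 := by exact_mod_cast hm2
    have ht : (1 : ℝ) ≤ Nat.totient m := by exact_mod_cast Nat.totient_pos.2 hm1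
    have h3 := hc (p * m) N Y (Nat.one_le_iff_ne_zero.2 (by have := hp.pos; positivity)) hY (by
      refine le_trans ?_ hN
      push_cast
      gcongr)
    have h4 := (abs_le.1 h3).2
    have hdiv : ((p * m).divisors.card : ℝ) ≤ 2 * M0 := by
      have hcop : Nat.Coprime p m := (Nat.Prime.coprime_iff_not_dvd hp).2 fun h => by
        have := Nat.le_of_dvd (by omega) h
        omega
      rw [hcop.card_divisors_mul, hp.divisors, card_pair hp.one_lt.ne]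
      push_cast
      have : (m.divisors.card : ℝ) ≤ m := by exact_mod_cast Nat.card_divisors_le_self m
      linarith
    rw [← mul_sum, tot_mul hp hM hm1 hm2] at *
    set t : ℝ := (Nat.totient m : ℝ) with htdef
    have h5 : ∑ a ∈ (Icc 1 N).filter (fun a => a.Coprime (p * m)),
        l (Real.log (a / ((p * m : ℕ) * Y))) ^ 2 ≤ (p - 1) * t * Y * I2 + C1 * (2 * M0) := by
      have : C1 * ((p * m).divisors.card : ℝ) ≤ C1 * (2 * M0) := by gcongr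
      linarith
    calc (1 / (((p : ℝ) - 1) * t)) ^ 2 * ∑ a ∈ (Icc 1 N).filter (fun a => a.Coprime (p * m)),
        l (Real.log (a / ((p * m : ℕ) * Y))) ^ 2 ≤
        (1 / (((p : ℝ) - 1) * t)) ^ 2 * ((p - 1) * t * Y * I2 + C1 * (2 * M0)) := by gcongr
      _ = (Y * I2 * (1 / ((p : ℝ) - 1))) * (1 / t) + 2 * M0 * C1 * (1 / (((p : ℝ) - 1) * t)) ^ 2 := by
          field_simp
      _ ≤ _ := by
          gcongr
          nlinarith
  refine (sum_le_sum h2).trans ?_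
  rw [sum_add_distrib, ← mul_sum, sum_const, nsmul_eq_mul]
  have hcard : ((ModK k 0 M0).card : ℝ) ≤ M0 := by
    refine le_trans ?_ (card_Mod 0 M0)
    exact_mod_cast card_le_card (filter_subset _ _)
  have h6 : ((ModK k 0 M0).card : ℝ) * (2 * M0 * C1 * (1 / ((p : ℝ) - 1)) ^ 2) ≤
      2 * C1 * Y * (1 / ((p : ℝ) - 1)) := by
    calc ((ModK k 0 M0).card : ℝ) * (2 * M0 * C1 * (1 / ((p : ℝ) - 1)) ^ 2) ≤
        M0 * (2 * M0 * C1 * (1 / ((p : ℝ) - 1)) ^ 2) := by gcongr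
      _ = 2 * C1 * (M0 : ℝ) ^ 2 * (1 / ((p : ℝ) - 1)) ^ 2 := by ring
      _ ≤ 2 * C1 * (Y * (p - 1)) * (1 / ((p : ℝ) - 1)) ^ 2 := by gcongr
      _ = _ := by field_simp
  have h7 : ∑ m ∈ ModK k 0 M0, (1 : ℝ) / Nat.totient m = LLK k 0 M0 := rfl
  rw [h7]
  have h8 : 2 * C1 * Y * (1 / ((p : ℝ) - 1)) ≤ 2 * C1 * (LLK k 0 M0 * Y) * (1 / ((p : ℝ) - 1)) := by
    gcongr
    nlinarith
  have h9 : 0 ≤ (LLK k 0 M0 * Y) * (1 / ((p : ℝ) - 1)) := by positivity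
  calc Y * I2 * (1 / ((p : ℝ) - 1)) * LLK k 0 M0 + ((ModK k 0 M0).card : ℝ) *
      (2 * M0 * C1 * (1 / ((p : ℝ) - 1)) ^ 2) ≤ Y * I2 * (1 / ((p : ℝ) - 1)) * LLK k 0 M0 +
        2 * C1 * (LLK k 0 M0 * Y) * (1 / ((p : ℝ) - 1)) := by linarith
    _ ≤ _ := by nlinarith

include hl hl0 hl1 in
/-- **moments of the polynomial** -/
theorem momK (v0 : ℝ) (hv0 : 0 < v0) (hv1 : v0 ≤ 1) : ∃ K : ℝ, 1 ≤ K ∧
    ∀ (Y : ℝ) (N M0 k : ℕ) (P : Finset ℕ) (n : ℕ), 0 < Y → 1 ≤ M0 →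
    (∀ p ∈ P, p.Prime ∧ M0 < p ∧ Real.exp B * (p * M0) * Y ≤ N ∧ (M0 : ℝ) ^ 2 ≤ Y * (p - 1)) →
    (n : ℝ) * (Real.exp B * Y) * (M0 : ℝ) ^ n < 1 → (M0 : ℝ) ^ 8 * Y ≤ 1 →
    v0 ≤ ∑ p ∈ P, 1 / ((p : ℝ) - 1) → ∀ i ≤ n,
    ((∑ p ∈ P, bK l Y N M0 k p) ^ i).coeff 0 ≤ 2 ^ (i ^ 2) *
      (K * Real.sqrt ((∑ p ∈ P, 1 / ((p : ℝ) - 1)) * (LLK k 0 M0 * Y))) ^ i := by
  obtain ⟨K1, hK1, hsq⟩ := wt_sqK hl
  set E : ℝ := 2 * Real.exp B + 1 with hE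
  have hE1 : 1 ≤ E := by have := Real.exp_pos B; linarith
  set K : ℝ := K1 + E / v0 with hK
  have hEv : 0 < E / v0 := by positivity
  have hKE : E / v0 ≤ K := by linarith
  have hKK1 : K1 ≤ K := by linarith
  have hK10 : 1 ≤ K := by linarith
  refine ⟨K, hK10, ?_⟩
  intro Y N M0 k P n hY hM0 hP hsm hM8 hV
  have hL1 := LLK_ge_one (k := k) hM0
  set V := ∑ p ∈ P, 1 / ((p : ℝ) - 1) with hVdef
  set L1 := LLK k 0 M0 with hL1def
  have hV0 : 0 < V := by linarith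
  have hZ : 0 ≤ V * (L1 * Y) := by positivity
  set W := K * Real.sqrt (V * (L1 * Y)) with hW
  have hW0 : 0 ≤ W := by positivity
  have hW2 : W ^ 2 = K ^ 2 * (V * (L1 * Y)) := by
    rw [hW, mul_pow, Real.sq_sqrt hZ]
  have hM0r : (1 : ℝ) ≤ M0 := by exact_mod_cast hM0
  refine moments P (fun p => bK l Y N M0 k p) (fun p _ => bK_NN hl0 N M0 k p) n
    (bK_factor hl hY (fun p hp => ⟨(hP p hp).1, (hP p hp).2.1⟩) hsm hM0)
    (fun p hp => sum_sym_zero fun i hi => fr_pos hl hY (hP p hp).1.one_le (JP_sub _ _ _ _ _ _ hi)) W hW0 ?_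
  intro j hj2 hjn
  rcases Nat.lt_or_ge 2 j with hj | hj
  swap
  · have : j = 2 := by omega
    subst this
    rw [hW2]
    have h1 : ∀ p ∈ P, (bK l Y N M0 k p ^ 2).coeff 0 ≤ K1 * (L1 * Y) * (1 / ((p : ℝ) - 1)) := by
      intro p hp
      obtain ⟨a1, a2, a3, a4⟩ := hP p hp
      have h2 := sum_sym_sq (I := JP l Y N M0 k p) (r := fr p) (c := wt l Y p)
        (fun i hi => fr_pos hl hY a1.one_le (JP_sub _ _ _ _ _ _ hi)) (fun i hi j hj h => fr_inj hl hY a1.one_le (JP_sub _ _ _ _ _ _ hi) (JP_sub _ _ _ _ _ _ hj) h)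
      have h3 : (bK l Y N M0 k p ^ 2).coeff 0 = (∑ i ∈ JP l Y N M0 k p, wt l Y p i ^ 2) / 2 := h2
      rw [h3]
      have h4 := hsq Y N M0 k p hY a1 hM0 a2 a3 a4
      have h5 : 0 ≤ ∑ i ∈ JP l Y N M0 k p, wt l Y p i ^ 2 := sum_nonneg fun i _ => sq_nonneg _
      linarith
    refine (sum_le_sum h1).trans ?_
    rw [← mul_sum, ← hVdef]
    have h6 : K1 ≤ K ^ 2 := by nlinarith
    calc K1 * (L1 * Y) * V = K1 * (V * (L1 * Y)) := by ring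
      _ ≤ K ^ 2 * (V * (L1 * Y)) := by gcongr
  · obtain ⟨s, rfl⟩ : ∃ s, j = s + 2 := ⟨j - 2, by omega⟩
    have hs : 1 ≤ s := by omega
    set D : ℝ := E * (M0 : ℝ) ^ 2 * Y with hD
    have hD0 : 0 < D := by positivity
    have h1 : ∀ p ∈ P, (bK l Y N M0 k p ^ (s + 2)).coeff 0 ≤ D ^ (s + 1) * (1 / ((p : ℝ) - 1)) := by
      intro p hp
      obtain ⟨a1, a2, a3, a4⟩ := hP p hp
      have hp2 : (2 : ℝ) ≤ p := by exact_mod_cast a1.two_le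
      have hp0 : (0 : ℝ) < (p : ℝ) - 1 := by linarith
      have h2 : ∀ α, (bK l Y N M0 k p).coeff α ≤ 1 / ((p : ℝ) - 1) := by
        intro α
        exact sum_sym_sup (fun i hi => fr_pos hl hY a1.one_le (JP_sub _ _ _ _ _ _ hi))
          (fun i hi j hj h => fr_inj hl hY a1.one_le (JP_sub _ _ _ _ _ _ hi)
            (JP_sub _ _ _ _ _ _ hj) h) (by positivity)
          (fun i hi => wt_le hl1 hl hY a1 a2 (JP_sub _ _ _ _ _ _ hi)) α
      have h3 : mass (bK l Y N M0 k p) ≤ D := by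
        have h4 : mass (bK l Y N M0 k p) = ∑ i ∈ JP l Y N M0 k p, wt l Y p i := by
          unfold bK
          rw [mass_sum]
          exact sum_congr rfl fun i _ => sym_mass _ _
        rw [h4, hD]
        refine (sum_le_sum_of_subset_of_nonneg (JP_sub l Y N M0 k p)
          (fun i _ _ => wt_nonneg hl0 p i)).trans ((wt_sum hl hl1 hY a1 a2).trans ?_)
        have : 0 ≤ (M0 : ℝ) ^ 2 * Y := by positivity
        rw [hE]
        nlinarith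
      have h30 : 0 ≤ mass (bK l Y N M0 k p) := sum_nonneg fun α _ => bK_NN hl0 N M0 k p α
      rw [pow_succ]
      refine (coeff_mul_le (NN_pow (bK_NN hl0 N M0 k p) _) h2 0).trans ?_
      rw [mass_pow]
      gcongr
    refine (sum_le_sum h1).trans ?_
    rw [← mul_sum, ← hVdef]
    have h2 : (D ^ (s + 1) * V) ^ 2 ≤ (W ^ (s + 2)) ^ 2 := by
      have e1 : (W ^ (s + 2)) ^ 2 = (K ^ 2) ^ (s + 2) * (V ^ (s + 2) * (L1 * Y) ^ (s + 2)) := by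
        rw [← pow_mul, mul_comm (s + 2) 2, pow_mul, hW2, mul_pow, mul_pow]
      have e2 : (D ^ (s + 1) * V) ^ 2 = V ^ 2 * E ^ (2 * s + 2) * Y ^ (s + 2) *
          ((M0 : ℝ) ^ (4 * s + 4) * Y ^ s) := by
        rw [hD]
        ring
      have e3 : (M0 : ℝ) ^ (4 * s + 4) * Y ^ s ≤ 1 := by
        calc (M0 : ℝ) ^ (4 * s + 4) * Y ^ s ≤ (M0 : ℝ) ^ (8 * s) * Y ^ s := by
              have := pow_le_pow_right₀ hM0r (show 4 * s + 4 ≤ 8 * s by omega)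
              gcongr
          _ = ((M0 : ℝ) ^ 8 * Y) ^ s := by rw [mul_pow, ← pow_mul]
          _ ≤ 1 := pow_le_one₀ (by positivity) hM8
      have e4 : E ^ (2 * s + 2) ≤ (K ^ 2) ^ (s + 2) * v0 ^ s := by
        have h3 : (E / v0) ^ (2 * (s + 2)) ≤ (K ^ 2) ^ (s + 2) := by
          rw [← pow_mul]
          gcongr
        calc E ^ (2 * s + 2) ≤ E ^ (2 * (s + 2)) := pow_le_pow_right₀ hE1 (by omega)
          _ ≤ (E / v0) ^ (2 * (s + 2)) * v0 ^ s := by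
              rw [div_pow, div_mul_eq_mul_div, le_div_iff₀ (by positivity)]
              have h5 : v0 ^ (2 * (s + 2)) ≤ v0 ^ s := pow_le_pow_of_le_one hv0.le hv1 (by omega)
              exact mul_le_mul_of_nonneg_left h5 (by positivity)
          _ ≤ _ := by gcongr
      rw [e1, e2]
      have e5 : v0 ^ s ≤ V ^ s := by gcongr
      calc V ^ 2 * E ^ (2 * s + 2) * Y ^ (s + 2) * ((M0 : ℝ) ^ (4 * s + 4) * Y ^ s) ≤
          V ^ 2 * E ^ (2 * s + 2) * Y ^ (s + 2) * 1 := by gcongr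
        _ ≤ V ^ 2 * ((K ^ 2) ^ (s + 2) * v0 ^ s) * Y ^ (s + 2) * 1 := by gcongr
        _ ≤ V ^ 2 * ((K ^ 2) ^ (s + 2) * V ^ s) * Y ^ (s + 2) * 1 := by gcongr
        _ = (K ^ 2) ^ (s + 2) * (V ^ (s + 2) * Y ^ (s + 2)) := by ring
        _ ≤ (K ^ 2) ^ (s + 2) * (V ^ (s + 2) * (L1 * Y) ^ (s + 2)) := by
            gcongr
            nlinarith
    rw [mul_comm] at h2 ⊢
    exact (pow_le_pow_iff_left₀ (by positivity) (by positivity) two_ne_zero).1 (by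
      rw [mul_comm V]; rw [mul_comm] at h2; exact h2)

end

end TH819.PM
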